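import Mathlib.NumberTheory.NumberField.Units.DirichletTheorem
import Mathlib.NumberTheory.NumberField.InfinitePlace.TotallyRealComplex
import Mathlib.NumberTheory.NumberField.ClassNumber
import Mathlib.NumberTheory.RamificationInertia.Valuation
import Mathlib.NumberTheory.Padics.Complex
import Mathlib.FieldTheory.Galois.Infinite
import Pool.Agent.MP_a43263_nt.Defs
import Mathlib.NumberTheory.LegendreSymbol.QuadraticChar.Basic

-- ======== part 0: formerly Pool.Agent.MP_a43263_nt.VH.Spec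
section MrgPart0

/-! THEOREM V, part H: the Hasse principle for sign valued 2-cocycles over the rationals.
Definitions and statements of the modules. Blueprint: `/team-store/VH_BLUEPRINT.md`. -/

set_option autoImplicit false

noncomputable section

namespace Pool.Agent.MP_a43263_nt.VH

open NumberField IsDedekindDomain

/-! definitions, number fields -/

/-- the finite primes -/
abbrev Pr (K : Type) [Field K] : Type := HeightOneSpectrum (𝓞 K)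

/-- the squares -/
def Sq (K : Type) [Field K] : Subgroup Kˣ := (powMonoidHom 2 : Kˣ →* Kˣ).range

/-- the norms from `K (√ d)` -/
def Nm {K : Type} [Field K] (d : K) : Subgroup Kˣ where
  carrier := {a | ∃ x y : K, (a : K) = x ^ 2 - d * y ^ 2}
  one_mem' := ⟨1, 0, by simp⟩
  mul_mem' := by
    rintro a b ⟨x, y, h⟩ ⟨z, w, k⟩
    exact ⟨x * z + d * y * w, x * w + y * z, by rw [Units.val_mul, h, k]; ring⟩
  inv_mem' := by
    rintro a ⟨x, y, h⟩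
    refine ⟨x / a, y / a, ?_⟩
    have h0 := a.ne_zero
    rw [Units.val_inv_eq_inv_val]
    field_simp
    exact h

section
variable {K : Type} [Field K] [NumberField K]

theorem four_le (𝔭 : Pr K) : 𝔭.valuation K 4 ≤ 1 := by
  have h : 𝔭.valuation K (algebraMap (𝓞 K) K 4) ≤ 1 := 𝔭.valuation_le_one (K := K) 4
  rwa [map_ofNat] at h

/-- the elements that are one modulo `4 𝔭` -/
def Uo (𝔭 : Pr K) : Subgroup Kˣ where
  carrier := {u | 𝔭.valuation K ((u : K) - 1) < 𝔭.valuation K 4}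
  one_mem' := by
    simp only [Set.mem_ofPred_eq, Units.val_one, sub_self, map_zero]
    exact zero_lt_iff.2 ((Valuation.ne_zero_iff _).2 (by norm_num))
  mul_mem' := by
    intro a b ha hb
    have h4 := four_le 𝔭
    have h1 : 𝔭.valuation K (a : K) = 1 := by
      simpa using (𝔭.valuation K).map_one_add_of_lt (lt_of_lt_of_le ha h4)
    have e : ((a * b : Kˣ) : K) - 1 = a * (b - 1) + (a - 1) := by rw [Units.val_mul]; ring
    simp only [Set.mem_ofPred_eq] at ha hb ⊢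
    rw [e]
    exact (𝔭.valuation K).map_add_lt (by rwa [map_mul, h1, one_mul]) ha
  inv_mem' := by
    intro a ha
    have h4 := four_le 𝔭
    have h1 : 𝔭.valuation K (a : K) = 1 := by
      simpa using (𝔭.valuation K).map_one_add_of_lt (lt_of_lt_of_le ha h4)
    have h0 := a.ne_zero
    have e : ((a⁻¹ : Kˣ) : K) - 1 = -((a : K)⁻¹ * (a - 1)) := by
      rw [Units.val_inv_eq_inv_val]; field_simp; ring
    simp only [Set.mem_ofPred_eq] at ha ⊢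
    rwa [e, Valuation.map_neg, map_mul, map_inv₀, h1, inv_one, one_mul]

/-- the local squares -/
def LS (𝔭 : Pr K) : Subgroup Kˣ := Sq K ⊔ Uo 𝔭

/-- the local norms from `K (√ d)` -/
def LN (𝔭 : Pr K) (d : K) : Subgroup Kˣ := Nm d ⊔ Uo 𝔭

/-- the `S`-units -/
def SU (S : Finset (Pr K)) : Subgroup Kˣ where
  carrier := {u | ∀ 𝔭 ∉ S, 𝔭.valuation K (u : K) = 1}
  one_mem' := by simp
  mul_mem' := fun ha hb 𝔭 h => by rw [Units.val_mul, map_mul, ha 𝔭 h, hb 𝔭 h, mul_one]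
  inv_mem' := fun ha 𝔭 h => by rw [Units.val_inv_eq_inv_val, map_inv₀, ha 𝔭 h, inv_one]

/-- `S` contains the primes above two and generators of the class group -/
def Big (S : Finset (Pr K)) : Prop := (∀ 𝔭 ∉ S, 𝔭.valuation K 2 = 1) ∧
  ∀ 𝔮 ∉ S, ∃ k : Kˣ, 𝔮.valuation K (k : K) = WithZero.exp (-1 : ℤ) ∧
    ∀ 𝔭 ∉ S, 𝔭 ≠ 𝔮 → 𝔭.valuation K (k : K) = 1

open Classical in
/-- the primes of `S` where `d` is not a local square -/
def ns (S : Finset (Pr K)) (d : Kˣ) : Finset (Pr K) := S.filter fun 𝔭 => d ∉ LS 𝔭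

end

/-- the rank of a subgroup -/
def rk {G : Type} [CommGroup G] (A : Subgroup G) : ℕ := Module.finrank ℤ (Additive A)

/-- finitely generated -/
def Fg {G : Type} [CommGroup G] (A : Subgroup G) : Prop := Module.Finite ℤ (Additive A)

/-- `L = K (δ)` with `δ ^ 2 = d`, and `σ` is the conjugation -/
structure Quad {K L : Type} [Field K] [Field L] [Algebra K L] (d : K) (δ : L) (σ : L ≃ₐ[K] L) :
    Prop where
  ne : δ ≠ 0
  sq : δ ^ 2 = algebraMap K L d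
  neg : σ δ = -δ
  span : ∀ w : L, ∃ x y : K, w = algebraMap K L x + algebraMap K L y * δ

/-- the inclusion of the multiplicative groups -/
def up (K L : Type) [Field K] [Field L] [Algebra K L] : Kˣ →* Lˣ :=
  Units.map (algebraMap K L).toMonoidHom

/-- an automorphism on the multiplicative group -/
def cj {K L : Type} [Field K] [Field L] [Algebra K L] (σ : L ≃ₐ[K] L) : Lˣ →* Lˣ :=
  Units.map (σ : L →+* L).toMonoidHom

/-- the prime below -/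
def dn (K : Type) {L : Type} [Field K] [NumberField K] [Field L] [NumberField L] [Algebra K L]
    (𝔓 : Pr L) : Pr K := 𝔓.under (𝓞 K)

/-! A. local statements -/

def L1AStmt : Prop := ∀ (K : Type) [Field K] [NumberField K] (𝔭 : Pr K) (e : ℕ),
  𝔭.valuation K 2 = WithZero.exp (-(e : ℤ)) →
  (LS 𝔭).index ≠ 0 ∧ (LS 𝔭).index ≤ 4 * Ideal.absNorm 𝔭.asIdeal ^ e

def L1BStmt : Prop := ∀ (K : Type) [Field K] [NumberField K] (S : Finset (Pr K)),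
  (⨅ 𝔭 ∈ S, LS 𝔭).index ≠ 0 ∧ (⨅ 𝔭 ∈ S, LS 𝔭).index ≤ 4 ^ S.card * 2 ^ Module.finrank ℚ K

def L2Stmt : Prop := ∀ (K : Type) [Field K] [NumberField K] (𝔭 : Pr K) (d : Kˣ),
  d ∉ LS 𝔭 → LN 𝔭 (d : K) ≠ ⊤

def ODDStmt : Prop := ∀ (K : Type) [Field K] [NumberField K] (𝔭 : Pr K) (x y : Kˣ),
  𝔭.valuation K 2 = 1 → 𝔭.valuation K (x : K) = 1 → 𝔭.valuation K (y : K) = 1 →
  x ∉ LS 𝔭 → y ∉ LS 𝔭 → x * y ∈ LS 𝔭

def WAStmt : Prop := ∀ (K : Type) [Field K] [NumberField K] (T : Finset (Pr K)) (a : Pr K → Kˣ),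
  ∃ x : Kˣ, ∀ 𝔭 ∈ T, x / a 𝔭 ∈ Uo 𝔭

/-! B. groups and units -/

def IDXStmt : Prop := ∀ (G ι : Type) [CommGroup G] (T : Finset ι) (B : ι → Subgroup G)
  (W N : Subgroup G) (x : ι → G), (∀ i ∈ T, N ≤ B i) → (∀ i ∈ T, x i ∈ W ∧ x i ∉ B i) →
  (∀ i ∈ T, ∀ j ∈ T, j ≠ i → x i ∈ B j) → N.relIndex W ≠ 0 → 2 ^ T.card ≤ N.relIndex W

def FIN0Stmt : Prop := ∀ (G : Type) [CommGroup G] (A B N W : Subgroup G) (t : ℕ), A ≤ B → N ≤ B →
  A.index ≠ 0 → A.index ≤ 2 * A.relIndex W → 2 ^ t ≤ B.index → N.relIndex W ≠ 0 →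
  2 * N.relIndex W ≤ 2 ^ t → W ⊓ B ≤ N

def FGStmt : Prop := ∀ (F : Type) [Field F] [CharZero F] (A : Subgroup Fˣ), Fg A → -1 ∈ A →
  (A.map (powMonoidHom 2)).relIndex A = 2 ^ (rk A + 1)

def RKStmt : Prop := ∀ (K : Type) [Field K] [NumberField K] (S : Finset (Pr K)),
  Fg (SU S) ∧ rk (SU S) = Units.rank K + S.card

def FGSStmt : Prop := ∀ (K : Type) [Field K] [NumberField K] (S : Finset (Pr K)),
  (Sq K).relIndex (SU S) = 2 ^ (Units.rank K + 1 + S.card)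

def BIGStmt : Prop := ∀ (K : Type) [Field K] [NumberField K],
  (∀ S₀ : Finset (Pr K), ∃ S, S₀ ⊆ S ∧ Big S) ∧
  (∀ X : Finset Kˣ, ∃ S : Finset (Pr K), ∀ x ∈ X, x ∈ SU S) ∧
  (∀ S S' : Finset (Pr K), S ⊆ S' → SU S ≤ SU S' ∧ (Big S → Big S')) ∧
  (∀ S : Finset (Pr K), -1 ∈ SU S) ∧
  ∀ (𝔭 : Pr K) (d : K), LS 𝔭 ≤ LN 𝔭 d

/-! C. quadratic extensions -/

def QUADStmt : Prop := ∀ (K : Type) [Field K] [NumberField K] (d : Kˣ), d ∉ Sq K →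
  ∃ (L : Type) (_ : Field L) (_ : NumberField L) (_ : Algebra K L) (δ : L) (σ : L ≃ₐ[K] L),
    Quad (d : K) δ σ ∧
      (IsTotallyComplex K → IsTotallyComplex L ∧ Units.rank L = 2 * Units.rank K + 1)

def VALStmt : Prop := ∀ (K L : Type) [Field K] [NumberField K] [Field L] [NumberField L]
  [Algebra K L],
  (∀ 𝔓 : Pr L, ∃ e : ℕ, 0 < e ∧
    ∀ x : K, 𝔓.valuation L (algebraMap K L x) = (dn K 𝔓).valuation K x ^ e) ∧
  (∀ 𝔭 : Pr K, ∃ 𝔓 : Pr L, dn K 𝔓 = 𝔭) ∧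
  (∀ S : Finset (Pr K), ∃ S' : Finset (Pr L), ∀ 𝔓, 𝔓 ∈ S' ↔ dn K 𝔓 ∈ S) ∧
  ∀ (σ : L ≃ₐ[K] L) (𝔓 : Pr L), ∃ 𝔓' : Pr L, dn K 𝔓' = dn K 𝔓 ∧
    ∀ w : L, 𝔓'.valuation L w = 𝔓.valuation L (σ w)

def SPLStmt : Prop := ∀ (K L : Type) [Field K] [NumberField K] [Field L] [NumberField L]
  [Algebra K L] (d : Kˣ) (δ : L) (σ : L ≃ₐ[K] L) (S : Finset (Pr K)) (S' : Finset (Pr L)),
  Quad (d : K) δ σ → (∀ 𝔓, 𝔓 ∈ S' ↔ dn K 𝔓 ∈ S) → 2 * S.card ≤ S'.card + (ns S d).card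

def H1Stmt : Prop := ∀ (K L : Type) [Field K] [NumberField K] [Field L] [NumberField L]
  [Algebra K L] (d : Kˣ) (δ : L) (σ : L ≃ₐ[K] L) (S : Finset (Pr K)) (S' : Finset (Pr L)),
  Quad (d : K) δ σ → (∀ 𝔓, 𝔓 ∈ S' ↔ dn K 𝔓 ∈ S) →
  (∀ x : Kˣ, up K L x ∈ SU S' ↔ x ∈ SU S) ∧ (∀ w ∈ SU S', cj σ w ∈ SU S') ∧
  (Big S → d ∈ SU S → ∀ w ∈ SU S', w * cj σ w = 1 → ∃ z ∈ SU S', w * cj σ z = z)

def CNT0Stmt : Prop := ∀ (K L : Type) [Field K] [CharZero K] [Field L] [CharZero L] [Algebra K L]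
  (d : K) (δ : L) (σ : L ≃ₐ[K] L) (U : Subgroup Kˣ) (V : Subgroup Lˣ), Quad d δ σ →
  Fg U → Fg V → -1 ∈ U → (∀ x : Kˣ, up K L x ∈ V ↔ x ∈ U) → (∀ w ∈ V, cj σ w ∈ V) →
  (∀ w ∈ V, w * cj σ w = 1 → ∃ z ∈ V, w * cj σ z = z) →
  (Nm d).relIndex U ≠ 0 ∧ (Nm d).relIndex U * 2 ^ rk V ≤ 2 ^ (2 * rk U)

def COUNTStmt : Prop := ∀ (K : Type) [Field K] [NumberField K] [IsTotallyComplex K]
  (S : Finset (Pr K)) (d : Kˣ), d ∉ Sq K → Big S → d ∈ SU S →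
  (Nm (d : K)).relIndex (SU S) ≠ 0 ∧ 2 * (Nm (d : K)).relIndex (SU S) ≤ 2 ^ (ns S d).card

/-! D. the Hasse norm theorem -/

def GSTStmt : Prop := ∀ (K : Type) [Field K] [NumberField K] [IsTotallyComplex K]
  (u : Kˣ) (S₀ : Finset (Pr K)), u ∉ Sq K → ∃ 𝔭 ∉ S₀, u ∉ LS 𝔭

def GST2Stmt : Prop := ∀ (K : Type) [Field K] [NumberField K] [IsTotallyComplex K]
  (d u : Kˣ) (S S₁ : Finset (Pr K)), Big S → d ∈ SU S → u ∈ SU S → d ∉ Sq K → u ∉ Sq K →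
  u * d ∉ Sq K → ∃ 𝔭 ∉ S, 𝔭 ∉ S₁ ∧ d ∈ LS 𝔭 ∧ u ∉ LS 𝔭

def SELStmt : Prop := ∀ (K : Type) [Field K] [NumberField K] [IsTotallyComplex K]
  (d : Kˣ) (S : Finset (Pr K)), Big S → d ∈ SU S → d ∉ Sq K →
  ∃ T : Finset (Pr K), Disjoint S T ∧ T.card = Units.rank K + S.card ∧ (∀ 𝔭 ∈ T, d ∈ LS 𝔭) ∧
    ∀ 𝔭 ∈ T, ∃ x ∈ SU S, x ∉ LS 𝔭 ∧ ∀ 𝔮 ∈ T, 𝔮 ≠ 𝔭 → x ∈ LS 𝔮

def INJStmt : Prop := ∀ (K : Type) [Field K] [NumberField K] [IsTotallyComplex K]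
  (S T S' : Finset (Pr K)) (b : Kˣ), Big S → Disjoint S T → (∀ 𝔭, 𝔭 ∈ S' ↔ 𝔭 ∈ S ∨ 𝔭 ∈ T) →
  (∀ 𝔭 ∈ T, ∃ x ∈ SU S, x ∉ LS 𝔭 ∧ ∀ 𝔮 ∈ T, 𝔮 ≠ 𝔭 → x ∈ LS 𝔮) →
  b ∈ SU S' → (∀ 𝔭 ∈ S, b ∈ LS 𝔭) → b ∈ Sq K

/-- the Hasse norm theorem for quadratic extensions of totally complex fields -/
def HNTStmt : Prop := ∀ (K : Type) [Field K] [NumberField K] [IsTotallyComplex K] (d a : Kˣ),
  (∀ 𝔭 : Pr K, a ∈ LN 𝔭 (d : K)) → a ∈ Nm (d : K)

/-! E. cocycles -/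

section
variable {k M : Type} [Field k] [Field M] [Algebra k M]

/-- a 2-cocycle with values in the multiplicative group -/
def Coc (C : (M ≃ₐ[k] M) → (M ≃ₐ[k] M) → M) : Prop := (∀ σ τ, C σ τ ≠ 0) ∧
  ∀ σ τ ρ, C σ τ * C (σ * τ) ρ = σ (C τ ρ) * C σ (τ * ρ)

/-- the restriction to `H` is a coboundary -/
def Triv (H : Subgroup (M ≃ₐ[k] M)) (C : (M ≃ₐ[k] M) → (M ≃ₐ[k] M) → M) : Prop :=
  ∃ b : (M ≃ₐ[k] M) → M, (∀ σ, b σ ≠ 0) ∧
    ∀ σ ∈ H, ∀ τ ∈ H, C σ τ * b (σ * τ) = b σ * σ (b τ)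

open Classical in
/-- the restriction to `H` is cohomologous to the cyclic cocycle of `a` for `H' < H` -/
def Cyc (H' H : Subgroup (M ≃ₐ[k] M)) (C : (M ≃ₐ[k] M) → (M ≃ₐ[k] M) → M) (a : M) : Prop :=
  ∃ b : (M ≃ₐ[k] M) → M, (∀ σ, b σ ≠ 0) ∧ ∀ σ ∈ H, ∀ τ ∈ H,
    C σ τ * b (σ * τ) = b σ * σ (b τ) * if σ ∈ H' ∨ τ ∈ H' then 1 else a

/-- a sign valued function with values in the field -/
def cz (c : (M ≃ₐ[k] M) → (M ≃ₐ[k] M) → ℤˣ) (σ τ : M ≃ₐ[k] M) : M := ((c σ τ : ℤ) : M)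

end

/-- a sign valued 2-cocycle -/
def SC {G : Type} [Group G] (c : G → G → ℤˣ) : Prop :=
  ∀ σ τ ρ, c σ τ * c (σ * τ) ρ = c τ ρ * c σ (τ * ρ)

/-- the local Galois group -/
abbrev Gp (p : ℕ) [Fact p.Prime] : Type := PadicAlgCl p ≃ₐ[ℚ_[p]] PadicAlgCl p

/-- `c` becomes a coboundary along the embedding `ε` -/
def LocT {M : Type} [Field M] [Algebra ℚ M] {p : ℕ} [Fact p.Prime] (ε : M →+* PadicAlgCl p)
    (c : (M ≃ₐ[ℚ] M) → (M ≃ₐ[ℚ] M) → ℤˣ) : Prop :=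
  ∃ β : Gp p → PadicAlgCl p, (∀ s, β s ≠ 0) ∧
    (∃ F : IntermediateField ℚ_[p] (PadicAlgCl p), FiniteDimensional ℚ_[p] F ∧
      ∀ s ∈ F.fixingSubgroup, β s = β 1) ∧
    ∀ (s s' : Gp p) (σ σ' : M ≃ₐ[ℚ] M), (∀ x, ε (σ x) = s (ε x)) → (∀ x, ε (σ' x) = s' (ε x)) →
      ((c σ σ' : ℤ) : PadicAlgCl p) * β (s * s') = β s * s (β s')

/-- Hilbert 90 for a group of automorphisms -/
def H90Stmt : Prop := ∀ (k M : Type) [Field k] [Field M] [Algebra k M]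
  (H : Subgroup (M ≃ₐ[k] M)) (c : (M ≃ₐ[k] M) → M) (F : IntermediateField k M),
  FiniteDimensional k F → (∀ σ ∈ H, c σ ≠ 0) → (∀ σ ∈ H, ∀ τ ∈ H, c (σ * τ) = c σ * σ (c τ)) →
  (∀ σ ∈ H, σ ∈ F.fixingSubgroup → c σ = 1) → ∃ z : M, z ≠ 0 ∧ ∀ σ ∈ H, σ z = c σ * z

def NORMStmt : Prop := ∀ (k M : Type) [Field k] [Field M] [Algebra k M]
  (H : Subgroup (M ≃ₐ[k] M)) (C : (M ≃ₐ[k] M) → (M ≃ₐ[k] M) → M), Coc C → Triv H C →
  ∃ f : (M ≃ₐ[k] M) → M, (∀ σ, f σ ≠ 0) ∧ ∀ σ, ∀ τ ∈ H, C σ τ * f (σ * τ) = f σ * σ (f τ)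

/-- transfer along a subgroup of odd index -/
def CORStmt : Prop := ∀ (k M : Type) [Field k] [Field M] [Algebra k M]
  (H' H : Subgroup (M ≃ₐ[k] M)) (C : (M ≃ₐ[k] M) → (M ≃ₐ[k] M) → M), H' ≤ H →
  Odd (H'.relIndex H) → Coc C → (∀ σ τ, C σ τ ^ 2 = 1) → Triv H' C → Triv H C

def CYCStmt : Prop := ∀ (k M : Type) [Field k] [Field M] [Algebra k M] [FiniteDimensional k M]
  (H' H : Subgroup (M ≃ₐ[k] M)) (C : (M ≃ₐ[k] M) → (M ≃ₐ[k] M) → M), H' ≤ H →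
  H'.relIndex H = 2 → Coc C → Triv H' C →
  ∃ a : M, a ≠ 0 ∧ (∀ σ ∈ H, σ a = a) ∧ Cyc H' H C a

def NRMStmt : Prop := ∀ (k M : Type) [Field k] [Field M] [Algebra k M]
  (H' H : Subgroup (M ≃ₐ[k] M)) (C : (M ≃ₐ[k] M) → (M ≃ₐ[k] M) → M) (a x y δ : M), H' ≤ H →
  H'.relIndex H = 2 → Cyc H' H C a → a ≠ 0 → a = x ^ 2 - δ ^ 2 * y ^ 2 →
  (∀ σ ∈ H, σ x = x ∧ σ y = y) → (∀ σ ∈ H', σ δ = δ) → (∀ σ ∈ H, σ ∉ H' → σ δ = -δ) → Triv H C

def RESStmt : Prop := ∀ (M : Type) [Field M] [NumberField M] [IsGalois ℚ M] (p : ℕ) [Fact p.Prime]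
  (ε : M →+* PadicAlgCl p), ∃ r : Gp p →* (M ≃ₐ[ℚ] M), (∀ s x, ε (r s x) = s (ε x)) ∧
    ∃ F : IntermediateField ℚ_[p] (PadicAlgCl p), FiniteDimensional ℚ_[p] F ∧
      ∀ s ∈ F.fixingSubgroup, r s = 1

def CONJStmt : Prop := ∀ (M : Type) [Field M] [NumberField M] [IsGalois ℚ M] (p : ℕ) [Fact p.Prime]
  (ε : M →+* PadicAlgCl p) (c : (M ≃ₐ[ℚ] M) → (M ≃ₐ[ℚ] M) → ℤˣ) (g : M ≃ₐ[ℚ] M), SC c →
  LocT ε c → LocT (ε.comp (g : M →+* M)) c

def LOCStmt : Prop := ∀ (M : Type) [Field M] [NumberField M] [IsGalois ℚ M] (p : ℕ) [Fact p.Prime]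
  (ε : M →+* PadicAlgCl p) (c : (M ≃ₐ[ℚ] M) → (M ≃ₐ[ℚ] M) → ℤˣ)
  (H' H : Subgroup (M ≃ₐ[ℚ] M)) (a δ : M), H' ≤ H → H'.relIndex H = 2 → LocT ε c →
  Cyc H' H (cz c) a → (∀ σ ∈ H, σ a = a) → δ ≠ 0 → (∀ σ ∈ H', σ δ = δ) →
  (∀ σ ∈ H, σ ∉ H' → σ δ = -δ) →
  ∃ x y : PadicAlgCl p, ε a = x ^ 2 - ε δ ^ 2 * y ^ 2 ∧
    ∀ s : Gp p, (∀ z : M, (∀ σ ∈ H, σ z = z) → s (ε z) = ε z) → s x = x ∧ s y = y

def APXStmt : Prop := ∀ (K : Type) [Field K] [CharZero K] (p : ℕ) [Fact p.Prime]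
  (φ : K →+* PadicAlgCl p) (x : PadicAlgCl p) (η : ℝ), 0 < η →
  (∀ s : Gp p, (∀ z, s (φ z) = φ z) → s x = x) → ∃ z : K, ‖φ z - x‖ < η

def PLACEStmt : Prop := ∀ (K M : Type) [Field K] [NumberField K] [Field M] [NumberField M]
  [Algebra K M] [IsGalois ℚ M] (𝔭 : Pr K), ∃ (p : ℕ) (_ : Fact p.Prime),
    ∀ ε : M →+* PadicAlgCl p, ∃ g : M ≃ₐ[ℚ] M,
      ∀ z : K, ‖ε (g (algebraMap K M z))‖ < 1 ↔ 𝔭.valuation K z < 1

/-- local triviality at all finite primes -/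
def LocAll {M : Type} [Field M] [Algebra ℚ M] (c : (M ≃ₐ[ℚ] M) → (M ≃ₐ[ℚ] M) → ℤˣ) : Prop :=
  ∀ (p : ℕ) [Fact p.Prime], ∃ ε : M →+* PadicAlgCl p, LocT ε c

def LNMStmt : Prop := ∀ (M : Type) [Field M] [NumberField M] [IsGalois ℚ M]
  (c : (M ≃ₐ[ℚ] M) → (M ≃ₐ[ℚ] M) → ℤˣ) (H' H : Subgroup (M ≃ₐ[ℚ] M)) (δ : M)
  (a d : (IntermediateField.fixedField H)ˣ), H' ≤ H → H'.relIndex H = 2 → SC c → LocAll c →
  Cyc H' H (cz c) (a.1 : M) → δ ^ 2 = (d.1 : M) → (∀ σ ∈ H', σ δ = δ) →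
  (∀ σ ∈ H, σ ∉ H' → σ δ = -δ) → ∀ 𝔭 : Pr (IntermediateField.fixedField H), a ∈ LN 𝔭 d.1

def STEPStmt : Prop := ∀ (M : Type) [Field M] [NumberField M] [IsGalois ℚ M] (i : M)
  (c : (M ≃ₐ[ℚ] M) → (M ≃ₐ[ℚ] M) → ℤˣ) (H' H : Subgroup (M ≃ₐ[ℚ] M)), i ^ 2 = -1 →
  (∀ σ ∈ H, σ i = i) → H' ≤ H → H'.relIndex H = 2 → SC c → LocAll c →
  Triv H' (cz c) → Triv H (cz c)

def TWOStmt : Prop := ∀ a : ℚ, a ≠ 0 →
  (∀ (p : ℕ) [Fact p.Prime], ∃ x y : ℚ_[p], (a : ℚ_[p]) = x ^ 2 + y ^ 2) →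
  ∃ x y : ℚ, a = x ^ 2 + y ^ 2

def TOPStmt : Prop := ∀ (M : Type) [Field M] [NumberField M] [IsGalois ℚ M] (i : M)
  (c : (M ≃ₐ[ℚ] M) → (M ≃ₐ[ℚ] M) → ℤˣ), i ^ 2 = -1 → SC c → LocAll c →
  Triv (MulAction.stabilizer (M ≃ₐ[ℚ] M) i) (cz c) → Triv ⊤ (cz c)

/-- the Hasse principle at a finite level -/
def FINStmt : Prop := ∀ (M : Type) [Field M] [NumberField M] [IsGalois ℚ M] (i : M)
  (c : (M ≃ₐ[ℚ] M) → (M ≃ₐ[ℚ] M) → ℤˣ), i ^ 2 = -1 → SC c → LocAll c → Triv ⊤ (cz c)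

abbrev Qb : Type := AlgebraicClosure ℚ

abbrev GQ : Type := Qb ≃ₐ[ℚ] Qb

def LEVStmt : Prop := ∀ a : GQ → GQ → ℤˣ, IsLocallyConstant (fun x : GQ × GQ => a x.1 x.2) →
  ∃ M : IntermediateField ℚ Qb, FiniteDimensional ℚ M ∧ IsGalois ℚ M ∧ (∃ i : M, i ^ 2 = -1) ∧
    ∀ σ σ' τ τ' : GQ, (∀ x ∈ M, σ x = σ' x) → (∀ x ∈ M, τ x = τ' x) → a σ τ = a σ' τ'

/-- the Hasse principle for sign valued 2-cocycles -/
def ABHNStmt : Prop := ∀ a : GQ → GQ → ℤˣ, IsLocallyConstant (fun x : GQ × GQ => a x.1 x.2) →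
  (∀ σ τ ρ, a σ τ * a (σ * τ) ρ = a τ ρ * a σ (τ * ρ)) →
  (∀ (p : ℕ) [Fact p.Prime],
    ∃ b : (AlgebraicClosure ℚ_[p] ≃ₐ[ℚ_[p]] AlgebraicClosure ℚ_[p]) → AlgebraicClosure ℚ_[p],
      IsLocallyConstant b ∧ (∀ σ, b σ ≠ 0) ∧
      ∀ σ σ' τ τ', (∀ x, emb ℚ_[p] (τ x) = σ (emb ℚ_[p] x)) →
        (∀ x, emb ℚ_[p] (τ' x) = σ' (emb ℚ_[p] x)) →
        ((a τ τ' : ℤ) : AlgebraicClosure ℚ_[p]) * b (σ * σ') = b σ * σ (b σ')) →
  ∃ b : GQ → Qb, IsLocallyConstant b ∧ (∀ σ, b σ ≠ 0) ∧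
    ∀ τ τ', ((a τ τ' : ℤ) : Qb) * b (τ * τ') = b τ * τ (b τ')

end Pool.Agent.MP_a43263_nt.VH

end
end MrgPart0

-- ======== part 1: formerly Pool.Agent.MP_a43263_nt.VH.L2
section MrgPart1

/-! THEOREM V, part H, row L2: a local non-square has a local non-norm. -/

set_option autoImplicit false

noncomputable section

namespace Pool.Agent.MP_a43263_nt.VH

open NumberField IsDedekindDomain WithZero

namespace L2A

variable {K : Type} [Field K] (v : Valuation K (WithZero (Multiplicative ℤ)))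

/-- `z ^ 2 + z = ρ` has no solution in the residue field -/
def Un (ρ : K) : Prop := v ρ ≤ 1 ∧ ∀ z, v z ≤ 1 → v (z ^ 2 + z - ρ) = 1

/-- nonzero of even order -/
def Ev (x : K) : Prop := ∃ y : K, y ≠ 0 ∧ v x = v (y ^ 2)

/-- of odd order -/
def Od (x : K) : Prop := ∃ m : ℤ, v x = exp (2 * m + 1)

/-- every element is a local norm -/
def All (d : K) : Prop :=
  ∀ a : K, a ≠ 0 → ∃ x y η : K, v η < v 4 ∧ a * (1 + η) = x ^ 2 - d * y ^ 2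

variable {v}

theorem ex {x : K} (hx : x ≠ 0) : ∃ n : ℤ, v x = exp n :=
  ⟨_, (exp_log ((Valuation.ne_zero_iff v).2 hx)).symm⟩

theorem no {c y : K} (hc : Od v c) (h : Ev v (c * y ^ 2)) : False := by
  obtain ⟨m, hm⟩ := hc
  obtain ⟨z, hz, h⟩ := h
  have hy : y ≠ 0 := by
    rintro rfl
    simp only [ne_eq, OfNat.ofNat_ne_zero, not_false_eq_true, zero_pow, mul_zero, map_zero] at h
    exact (Valuation.ne_zero_iff v).2 (pow_ne_zero 2 hz) h.symm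
  obtain ⟨j, hj⟩ := ex (v := v) hy
  obtain ⟨n, hn⟩ := ex (v := v) hz
  rw [map_mul, map_pow, map_pow, hm, hj, hn, ← exp_nsmul, ← exp_nsmul, ← exp_add, exp_inj] at h
  simp only [nsmul_eq_mul, Nat.cast_ofNat] at h
  omega

theorem v4 : v 4 = v 2 ^ 2 := by rw [← map_pow]; norm_num

theorem v4_le (h2 : v 2 ≤ 1) : v 4 ≤ 1 := by
  rw [v4]; exact pow_le_one₀ zero_le h2

theorem un_add (h20 : (2 : K) ≠ 0) {ρ τ : K} (hρ : Un v ρ) (hτ : v τ < v 4) :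
    Un v (ρ + τ / 4) := by
  have h4 : (4 : K) ≠ 0 := by
    have : (4 : K) = 2 * 2 := by norm_num
    rw [this]; exact mul_ne_zero h20 h20
  have hlt : v (τ / 4) < 1 := by
    rw [map_div₀]
    exact (div_lt_one₀ (zero_lt_iff.2 ((Valuation.ne_zero_iff v).2 h4))).2 hτ
  refine ⟨v.map_add_le hρ.1 hlt.le, fun z hz => ?_⟩
  have e : z ^ 2 + z - (ρ + τ / 4) = (z ^ 2 + z - ρ) - τ / 4 := by ring
  rw [e, v.map_sub_eq_of_lt_left (by rw [hρ.2 z hz]; exact hlt), hρ.2 z hz]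

theorem ev0 (h20 : (2 : K) ≠ 0) {ρ P x : K} (hρ : Un v ρ) (hne : P ≠ 0 ∨ x ≠ 0) :
    Ev v (P ^ 2 - (1 + 4 * ρ) * x ^ 2) := by
  obtain ⟨z, rfl⟩ : ∃ z, P = 2 * z + x := ⟨(P - x) / 2, by field_simp; ring⟩
  rcases le_or_gt (v z) (v x) with h | h
  · have hx : x ≠ 0 := by
      rintro rfl
      have hz : z = 0 := by simpa using h
      simp [hz] at hne
    have h1 : v (z / x) ≤ 1 := by
      rw [map_div₀]
      exact (div_le_one₀ (zero_lt_iff.2 ((Valuation.ne_zero_iff v).2 hx))).2 h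
    refine ⟨2 * x, mul_ne_zero h20 hx, ?_⟩
    have e : (2 * z + x) ^ 2 - (1 + 4 * ρ) * x ^ 2
        = (2 * x) ^ 2 * ((z / x) ^ 2 + z / x - ρ) := by
      field_simp; ring
    rw [e, map_mul, hρ.2 _ h1, mul_one]
  · have hz : z ≠ 0 := by
      rintro rfl
      simp at h
    have h1 : v (x / z) < 1 := by
      rw [map_div₀]
      exact (div_lt_one₀ (zero_lt_iff.2 ((Valuation.ne_zero_iff v).2 hz))).2 h
    refine ⟨2 * z, mul_ne_zero h20 hz, ?_⟩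
    have e : (2 * z + x) ^ 2 - (1 + 4 * ρ) * x ^ 2
        = (2 * z) ^ 2 * (1 + x / z * (1 - ρ * (x / z))) := by
      field_simp; ring
    have h2 : v (1 - ρ * (x / z)) ≤ 1 := by
      refine v.map_sub_le (by simp) ?_
      rw [map_mul]
      exact mul_le_one' hρ.1 h1.le
    have h3 : v (x / z * (1 - ρ * (x / z))) < 1 := by
      rw [map_mul]
      exact mul_lt_one_of_lt_of_le h1 h2
    rw [e, map_mul, v.map_one_add_of_lt h3, mul_one]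

theorem ev1 (h20 : (2 : K) ≠ 0) {ρ τ P x : K} (hρ : Un v ρ) (hτ : v τ < v 4)
    (hne : P ≠ 0 ∨ x ≠ 0) : Ev v (P ^ 2 - (1 + 4 * ρ + τ) * x ^ 2) := by
  have h4 : (4 : K) ≠ 0 := by
    have : (4 : K) = 2 * 2 := by norm_num
    rw [this]; exact mul_ne_zero h20 h20
  have e : 1 + 4 * ρ + τ = 1 + 4 * (ρ + τ / 4) := by field_simp; ring
  rw [e]
  exact ev0 h20 (un_add h20 hρ hτ) hne

theorem all_mul {d w : K} (hd : All v d) (hw : w ≠ 0) : All v (d * w ^ 2) := by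
  intro a ha
  obtain ⟨x, y, η, h1, h2⟩ := hd a ha
  exact ⟨x, y / w, η, h1, by rw [h2]; field_simp⟩

theorem small {a η : K} (ha : v a ≤ 1) (hη : v η < v 4) : v (a * η) < v 4 := by
  rw [map_mul]
  exact lt_of_le_of_lt (mul_le_of_le_one_left' ha) hη

/-- odd order -/
theorem caseO (h20 : (2 : K) ≠ 0) (h2 : v 2 ≤ 1) {ρ d : K} (hρ : Un v ρ) (hd : All v d)
    (ho : Od v d) : False := by
  have ha : 1 + 4 * ρ ≠ 0 := by
    intro h0
    obtain ⟨y, hy, h⟩ := ev0 (P := 0) (x := 1) h20 hρ (Or.inr one_ne_zero)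
    rw [h0] at h
    simp only [ne_eq, OfNat.ofNat_ne_zero, not_false_eq_true, zero_pow, zero_mul, sub_self,
      map_zero] at h
    exact (Valuation.ne_zero_iff v).2 (pow_ne_zero 2 hy) h.symm
  have ha1 : v (1 + 4 * ρ) ≤ 1 := by
    refine v.map_add_le (by simp) ?_
    rw [map_mul]
    exact mul_le_one' (v4_le h2) hρ.1
  obtain ⟨x, y, η, h1, h⟩ := hd _ ha
  have := ev1 (P := x) (x := 1) h20 hρ (small ha1 h1) (Or.inr one_ne_zero)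
  have e : x ^ 2 - (1 + 4 * ρ + (1 + 4 * ρ) * η) * 1 ^ 2 = d * y ^ 2 := by
    linear_combination -h
  rw [e] at this
  exact no ho this

/-- odd defect -/
theorem caseK (h20 : (2 : K) ≠ 0) (h2 : v 2 ≤ 1) {ρ d : K} (hρ : Un v ρ) (hd : All v d)
    (h1 : v d = 1) (h4 : v 4 < v (d - 1)) (hlt : v (d - 1) < 1) (ho : Od v (d - 1)) : False := by
  have hv : v (4 * ρ - (d - 1)) = v (d - 1) := by
    refine v.map_sub_eq_of_lt_right (lt_of_le_of_lt ?_ h4)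
    rw [map_mul]
    exact mul_le_of_le_one_right' hρ.1
  have ha : 4 * ρ - (d - 1) ≠ 0 := by
    intro h0
    rw [h0, map_zero] at hv
    rw [← hv] at h4
    exact not_lt_zero h4
  obtain ⟨x, y, η, hη, h⟩ := hd _ ha
  set a := 4 * ρ - (d - 1) with ha'
  have hη1 : v (1 + η) = 1 := v.map_one_add_of_lt (lt_of_lt_of_le hη (v4_le h2))
  have hb : v (a * (1 + η)) = v (d - 1) := by rw [map_mul, hη1, mul_one, hv]
  have hob : Od v (-(d * (a * (1 + η)))) := by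
    obtain ⟨m, hm⟩ := ho
    exact ⟨m, by rw [Valuation.map_neg, map_mul, h1, one_mul, hb, hm]⟩
  have hx : x ≠ 0 := by
    rintro rfl
    have hy : y ≠ 0 := by
      rintro rfl
      rw [h] at hb
      rw [← hb] at h4
      simp at h4
    refine no (y := 1) hob ⟨d * y, mul_ne_zero ?_ hy, ?_⟩
    · rintro rfl
      simp at h1
    · rw [h]
      congr 1
      ring
  have := ev1 (P := d * y + a * (1 + η)) (x := x) h20 hρ (small (hv ▸ hlt.le) hη) (Or.inr hx)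
  have e : (d * y + a * (1 + η)) ^ 2 - (1 + 4 * ρ + a * η) * x ^ 2
      = -(d * (a * (1 + η))) * (y - 1) ^ 2 := by
    have e1 : 1 + 4 * ρ + a * η = d + a * (1 + η) := by rw [ha']; ring
    have e2 : x ^ 2 = d * y ^ 2 + a * (1 + η) := by rw [h]; ring
    rw [e1, e2]
    ring
  rw [e] at this
  exact no hob this

/-- the unramified case -/
theorem caseU (h20 : (2 : K) ≠ 0) (h2 : v 2 ≤ 1) {π ρ : K} (hπ : v π = exp (-1 : ℤ))
    (hρ : Un v ρ) (hd : All v (1 + 4 * ρ)) : False := by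
  have hπ0 : π ≠ 0 := by
    rintro rfl
    rw [map_zero] at hπ
    exact exp_ne_zero hπ.symm
  obtain ⟨x, y, η, hη, h⟩ := hd π hπ0
  have hη1 : v (1 + η) = 1 := v.map_one_add_of_lt (lt_of_lt_of_le hη (v4_le h2))
  have ho : Od v (π * (1 + η)) := ⟨-1, by rw [map_mul, hη1, mul_one, hπ]; norm_num⟩
  have hne : x ≠ 0 ∨ y ≠ 0 := by
    by_contra hc
    push Not at hc
    obtain ⟨m, hm⟩ := ho
    rw [h, hc.1, hc.2] at hm
    simp only [ne_eq, OfNat.ofNat_ne_zero, not_false_eq_true, zero_pow, mul_zero, sub_self,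
      map_zero] at hm
    exact exp_ne_zero hm.symm
  refine no (y := 1) ho ?_
  rw [one_pow, mul_one, h]
  exact ev0 h20 hρ hne

theorem step (h20 : (2 : K) ≠ 0) (h2 : v 2 ≤ 1) {π ρ d : K} (hπ : v π = exp (-1 : ℤ))
    (hρ : Un v ρ) (hsq : v 2 < 1 → ∀ t, v t ≤ 1 → ∃ r, v r ≤ 1 ∧ v (t - r ^ 2) < 1)
    (hd : All v d) (h1 : v d = 1) (h4 : v 4 ≤ v (d - 1)) : ∃ s, v (d - s ^ 2) < v (d - 1) := by
  have h40 : (4 : K) ≠ 0 := by
    have : (4 : K) = 2 * 2 := by norm_num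
    rw [this]; exact mul_ne_zero h20 h20
  have h4p : 0 < v 4 := zero_lt_iff.2 ((Valuation.ne_zero_iff v).2 h40)
  have hle : v (d - 1) ≤ 1 := v.map_sub_le h1.le (by simp)
  rcases h4.eq_or_lt with h4 | h4
  · have hr : v ((d - 1) / 4) = 1 := by rw [map_div₀, ← h4, div_self h4p.ne']
    have hn : ¬ Un v ((d - 1) / 4) := fun hu =>
      caseU h20 h2 hπ hu (by rwa [show 1 + 4 * ((d - 1) / 4) = d by field_simp; ring])
    simp only [Un, hr, le_refl, true_and, not_forall] at hn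
    obtain ⟨z, hz, hn⟩ := hn
    have hz2 : v (z ^ 2 + z - (d - 1) / 4) < 1 := by
      refine lt_of_le_of_ne (v.map_sub_le (v.map_add_le ?_ hz) hr.le) hn
      rw [map_pow]; exact pow_le_one₀ zero_le hz
    refine ⟨1 + 2 * z, ?_⟩
    have e : d - (1 + 2 * z) ^ 2 = -(4 * (z ^ 2 + z - (d - 1) / 4)) := by field_simp; ring
    rw [e, Valuation.map_neg, map_mul, ← h4]
    exact mul_lt_of_lt_one_right h4p hz2
  · have hδ : d - 1 ≠ 0 := by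
      intro h0
      rw [h0, map_zero] at h4
      exact not_lt_zero h4
    obtain ⟨n, hn⟩ := ex (v := v) hδ
    have hn0 : n ≤ 0 := by rwa [hn, ← exp_zero, exp_le_exp] at hle
    rcases Int.even_or_odd' n with ⟨j, hj | hj⟩
    · have hp : v (π ^ (-j)) = exp j := by
        rw [map_zpow₀, hπ, ← exp_zsmul]; simp
      set p := π ^ (-j)
      have hp0 : p ≠ 0 := by
        intro h0
        rw [h0, map_zero] at hp
        exact exp_ne_zero hp.symm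
      have hp2 : v (p ^ 2) = v (d - 1) := by
        rw [map_pow, hp, hn, hj, ← exp_nsmul]; simp
      have hpp : 0 < v p := by rw [hp]; exact exp_pos
      have h2p : v 2 < v p := by
        rw [← hp2, v4, map_pow] at h4
        exact lt_of_pow_lt_pow_left₀ 2 zero_le h4
      have hp1 : v p ≤ 1 := by rw [hp, ← exp_zero, exp_le_exp]; omega
      obtain ⟨r, hr, ht⟩ := hsq (lt_of_lt_of_le h2p hp1) ((d - 1) / p ^ 2) (by
        rw [map_div₀, hp2, div_self (by rw [hn]; exact exp_ne_zero)])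
      refine ⟨1 + p * r, ?_⟩
      have e : d - (1 + p * r) ^ 2 = p ^ 2 * ((d - 1) / p ^ 2 - r ^ 2) - p * (2 * r) := by
        field_simp; ring
      rw [e, ← hp2]
      refine v.map_sub_lt ?_ ?_
      · rw [map_mul]
        exact mul_lt_of_lt_one_right (by rw [map_pow]; exact pow_pos hpp 2) ht
      · rw [map_mul, map_mul, map_pow, pow_two]
        exact mul_lt_mul_of_pos_left (lt_of_le_of_lt (mul_le_of_le_one_right' hr) h2p) hpp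
    · exact (caseK h20 h2 hρ hd h1 h4 (by rw [hn, ← exp_zero, exp_lt_exp]; omega)
        ⟨j, by rw [hn, hj]⟩).elim

theorem core (h20 : (2 : K) ≠ 0) (h2 : v 2 ≤ 1) {π ρ d : K} (hπ : v π = exp (-1 : ℤ))
    (hρ : Un v ρ) (hsq : v 2 < 1 → ∀ t, v t ≤ 1 → ∃ r, v r ≤ 1 ∧ v (t - r ^ 2) < 1)
    (hd0 : d ≠ 0) (hd : All v d) : ∃ w, w ≠ 0 ∧ v (d * w ^ 2 - 1) < v 4 := by
  have key : ∀ k : ℕ, ∃ w, w ≠ 0 ∧ v (d * w ^ 2) = 1 ∧
      (v (d * w ^ 2 - 1) < v 4 ∨ v (d * w ^ 2 - 1) ≤ exp (-(k : ℤ))) := by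
    intro k
    induction k with
    | zero =>
      obtain ⟨n, hn⟩ := ex (v := v) hd0
      rcases Int.even_or_odd' n with ⟨j, hj | hj⟩
      · have hp : v (π ^ j) = exp (-j) := by
          rw [map_zpow₀, hπ, ← exp_zsmul]; simp
        have h1 : v (d * (π ^ j) ^ 2) = 1 := by
          rw [map_mul, map_pow, hp, hn, hj, ← exp_nsmul, ← exp_add]; simp
        refine ⟨π ^ j, ?_, h1, Or.inr (v.map_sub_le (by simp [h1]) (by simp))⟩
        intro h0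
        rw [h0, map_zero] at hp
        exact exp_ne_zero hp.symm
      · exact (caseO h20 h2 hρ hd ⟨j, by rw [hn, hj]⟩).elim
    | succ k ih =>
      obtain ⟨w, hw, h1, h | h⟩ := ih
      · exact ⟨w, hw, h1, Or.inl h⟩
      rcases lt_or_ge (v (d * w ^ 2 - 1)) (v 4) with h4 | h4
      · exact ⟨w, hw, h1, Or.inl h4⟩
      obtain ⟨s, hs⟩ := step h20 h2 hπ hρ hsq (all_mul hd hw) h1 h4
      have hlt : v (d * w ^ 2 - s ^ 2) < exp (-(k : ℤ)) := lt_of_lt_of_le hs h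
      have hlt1 : v (d * w ^ 2 - s ^ 2) < v (d * w ^ 2) := by
        rw [h1]
        exact lt_of_lt_of_le hlt (by rw [← exp_zero, exp_le_exp]; omega)
      have hs1 : v (s ^ 2) = 1 := by
        have := v.map_sub_eq_of_lt_left hlt1
        rwa [sub_sub_cancel, h1] at this
      have hs0 : s ≠ 0 := by
        rintro rfl
        simp at hs1
      refine ⟨w / s, div_ne_zero hw hs0, ?_, Or.inr ?_⟩
      · rw [div_pow, ← mul_div_assoc, map_div₀, h1, hs1, div_one]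
      · have e : d * (w / s) ^ 2 - 1 = (d * w ^ 2 - s ^ 2) / s ^ 2 := by field_simp
        rw [e, map_div₀, hs1, div_one, ← lt_mul_exp_iff_le exp_ne_zero, ← exp_add]
        convert hlt using 2
        push_cast
        ring
  have h40 : (4 : K) ≠ 0 := by
    have : (4 : K) = 2 * 2 := by norm_num
    rw [this]; exact mul_ne_zero h20 h20
  obtain ⟨k, hk⟩ := exists_exp_neg_natCast_lt ((Valuation.ne_zero_iff v).2 h40)
  obtain ⟨w, hw, -, h | h⟩ := key k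
  · exact ⟨w, hw, h⟩
  · exact ⟨w, hw, lt_of_le_of_lt h hk⟩

section
variable [NumberField K] (𝔭 : Pr K)

theorem near {z : K} (hz : 𝔭.valuation K z ≤ 1) :
    ∃ a : 𝓞 K, 𝔭.valuation K (algebraMap (𝓞 K) K a - z) < 1 := by
  simpa using 𝔭.exists_valuation_sub_lt_of_integer hz 1

theorem exists_un : ∃ ρ, Un (𝔭.valuation K) ρ := by
  have := 𝔭.isPrime
  have := 𝔭.asIdeal.finiteQuotientOfFreeOfNeBot 𝔭.ne_bot
  have hns : ¬ Function.Surjective fun z : 𝓞 K ⧸ 𝔭.asIdeal => z ^ 2 + z := by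
    rw [← Finite.injective_iff_surjective]
    intro h
    have : (0 : 𝓞 K ⧸ 𝔭.asIdeal) = -1 := h (by simp)
    simp at this
  simp only [Function.Surjective, not_forall, not_exists] at hns
  obtain ⟨b, hb⟩ := hns
  obtain ⟨ρ, rfl⟩ := Ideal.Quotient.mk_surjective b
  refine ⟨algebraMap (𝓞 K) K ρ, 𝔭.valuation_le_one ρ, fun z hz => ?_⟩
  obtain ⟨a, ha⟩ := near 𝔭 hz
  have h1 : 𝔭.valuation K (algebraMap (𝓞 K) K (a ^ 2 + a - ρ)) = 1 := by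
    rw [HeightOneSpectrum.valuation_eq_one_iff_notMem, ← Ideal.Quotient.eq]
    simpa using hb (Ideal.Quotient.mk _ a)
  have e : z ^ 2 + z - algebraMap (𝓞 K) K ρ = algebraMap (𝓞 K) K (a ^ 2 + a - ρ) -
      (algebraMap (𝓞 K) K a - z) * (algebraMap (𝓞 K) K a + z + 1) := by
    simp only [map_sub, map_add, map_pow]; ring
  rw [e, Valuation.map_sub_eq_of_lt_left, h1]
  rw [h1, map_mul]
  exact mul_lt_one_of_lt_of_le ha (Valuation.map_add_le _ (Valuation.map_add_le _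
    (𝔭.valuation_le_one a) hz) (by simp))

theorem exists_sq (h2 : 𝔭.valuation K 2 < 1) (t : K) (ht : 𝔭.valuation K t ≤ 1) :
    ∃ r, 𝔭.valuation K r ≤ 1 ∧ 𝔭.valuation K (t - r ^ 2) < 1 := by
  have := 𝔭.isPrime
  have := 𝔭.asIdeal.finiteQuotientOfFreeOfNeBot 𝔭.ne_bot
  have h2' : (2 : 𝓞 K ⧸ 𝔭.asIdeal) = 0 := by
    have : (2 : 𝓞 K) ∈ 𝔭.asIdeal := by
      refine (𝔭.valuation_lt_one_iff_mem (K := K) _).1 ?_
      change 𝔭.valuation K (algebraMap (𝓞 K) K 2) < 1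
      rwa [map_ofNat]
    have := Ideal.Quotient.eq_zero_iff_mem.2 this
    rwa [map_ofNat] at this
  have hs : Function.Surjective fun z : 𝓞 K ⧸ 𝔭.asIdeal => z ^ 2 := by
    rw [← Finite.injective_iff_surjective]
    intro a b h
    have h' : a ^ 2 = b ^ 2 := h
    have : (a - b) ^ 2 = 0 := by linear_combination (a ^ 2 - a * b) * h2' - h'
    exact sub_eq_zero.1 (pow_eq_zero_iff two_ne_zero |>.1 this)
  obtain ⟨a, ha⟩ := near 𝔭 ht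
  obtain ⟨b, hb⟩ := hs (Ideal.Quotient.mk _ a)
  obtain ⟨r, rfl⟩ := Ideal.Quotient.mk_surjective b
  refine ⟨algebraMap (𝓞 K) K r, 𝔭.valuation_le_one r, ?_⟩
  have h1 : 𝔭.valuation K (algebraMap (𝓞 K) K (a - r ^ 2)) < 1 := by
    refine (𝔭.valuation_lt_one_iff_mem (K := K) _).2 ?_
    rw [← Ideal.Quotient.eq]
    simpa using hb.symm
  have e : t - algebraMap (𝓞 K) K r ^ 2 = algebraMap (𝓞 K) K (a - r ^ 2) -
      (algebraMap (𝓞 K) K a - t) := by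
    simp only [map_sub, map_pow]; ring
  rw [e]
  exact Valuation.map_sub_lt _ h1 ha

end

end L2A

open L2A in
theorem ltwo : L2Stmt := by
  intro K _ _ 𝔭 d hd htop
  apply hd
  have h2 : 𝔭.valuation K 2 ≤ 1 := by
    have h : 𝔭.valuation K (algebraMap (𝓞 K) K 2) ≤ 1 := 𝔭.valuation_le_one (K := K) 2
    rwa [map_ofNat] at h
  obtain ⟨π, hπ⟩ := 𝔭.valuation_exists_uniformizer K
  obtain ⟨ρ, hρ⟩ := exists_un 𝔭
  have hall : All (𝔭.valuation K) (d : K) := by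
    intro a ha
    have hm : Units.mk0 a ha ∈ LN 𝔭 (d : K) := htop ▸ Subgroup.mem_top _
    obtain ⟨b, ⟨x, y, hb⟩, u, hu, h⟩ := Subgroup.mem_sup.1 hm
    refine ⟨x, y, ((u⁻¹ : Kˣ) : K) - 1, (Uo 𝔭).inv_mem hu, ?_⟩
    have h' : a = b * u := by simpa using (congrArg Units.val h).symm
    rw [← hb, h', add_sub_cancel, mul_assoc, Units.mul_inv, mul_one]
  obtain ⟨w, hw, h⟩ := core two_ne_zero h2 hπ hρ (exists_sq 𝔭) d.ne_zero hall
  refine Subgroup.mem_sup.2 ⟨(Units.mk0 w hw)⁻¹ ^ 2, ⟨_, rfl⟩, d * Units.mk0 w hw ^ 2, ?_, ?_⟩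
  · change 𝔭.valuation K _ < _
    simpa using h
  · rw [mul_comm d, ← mul_assoc, ← mul_pow, inv_mul_cancel, one_pow, one_mul]

end Pool.Agent.MP_a43263_nt.VH

end
end MrgPart1

-- ======== part 2: formerly Pool.Agent.MP_a43263_nt.VH.Odd
section MrgPart2

/-! THEOREM V, part H: local squares at odd primes, and the primes that split. -/

set_option autoImplicit false
set_option linter.style.haveILetI false

noncomputable section

namespace Pool.Agent.MP_a43263_nt.VH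

open NumberField IsDedekindDomain

namespace OddA

variable {K : Type} [Field K] [NumberField K]

theorem mem_LS (𝔭 : Pr K) (z : Kˣ) (r : K) (h2 : 𝔭.valuation K 2 = 1)
    (hz : 𝔭.valuation K (z : K) = 1) (h : 𝔭.valuation K ((z : K) - r ^ 2) < 1) : z ∈ LS 𝔭 := by
  have h1 : 𝔭.valuation K (r ^ 2) = 1 := by
    have e : r ^ 2 = (z : K) - ((z : K) - r ^ 2) := by ring
    rw [e, (𝔭.valuation K).map_sub_eq_of_lt_left (by rwa [hz]), hz]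
  have r0 : r ≠ 0 := by
    rintro rfl
    simp at h1
  have h4 : 𝔭.valuation K 4 = 1 := by
    rw [show (4 : K) = 2 * 2 by norm_num, map_mul, h2, one_mul]
  refine Subgroup.mem_sup.2 ⟨Units.mk0 r r0 ^ 2, ⟨_, rfl⟩, z / Units.mk0 r r0 ^ 2, ?_, by simp⟩
  have e : ((z / Units.mk0 r r0 ^ 2 : Kˣ) : K) - 1 = ((z : K) - r ^ 2) / r ^ 2 := by
    simp only [Units.val_div_eq_div_val, Units.val_pow_eq_pow_val, Units.val_mk0]
    field_simp
  change 𝔭.valuation K (((z / Units.mk0 r r0 ^ 2 : Kˣ) : K) - 1) < 𝔭.valuation K 4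
  rwa [e, map_div₀, h1, div_one, h4]

theorem nonsq (𝔭 : Pr K) (z : Kˣ) (h2 : 𝔭.valuation K 2 = 1) (hz : 𝔭.valuation K (z : K) = 1)
    (hn : z ∉ LS 𝔭) : ∃ a : 𝓞 K, 𝔭.valuation K (algebraMap (𝓞 K) K a - z) < 1 ∧
      ¬ IsSquare (Ideal.Quotient.mk 𝔭.asIdeal a) := by
  obtain ⟨a, ha⟩ := 𝔭.exists_valuation_sub_lt_of_integer hz.le 1
  refine ⟨a, ha, fun ⟨r, hr⟩ => hn ?_⟩
  obtain ⟨r, rfl⟩ := Ideal.Quotient.mk_surjective r
  rw [← map_mul, Ideal.Quotient.eq, ← 𝔭.valuation_lt_one_iff_mem (K := K)] at hr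
  refine mem_LS 𝔭 z (algebraMap (𝓞 K) K r) h2 hz ?_
  have e : (z : K) - algebraMap (𝓞 K) K r ^ 2 =
      algebraMap (𝓞 K) K (a - r * r) - (algebraMap (𝓞 K) K a - z) := by
    rw [map_sub, map_mul]; ring
  rw [e]
  exact (𝔭.valuation K).map_sub_lt hr ha

theorem two {L : Type} [Field L] [NumberField L] [Algebra K L] (h : VALStmt) {d : Kˣ} {δ : L}
    {σ : L ≃ₐ[K] L} (hQ : Quad (d : K) δ σ) (𝔭 : Pr K) (hd : d ∈ LS 𝔭) :
    ∃ 𝔓 𝔓' : Pr L, 𝔓 ≠ 𝔓' ∧ dn K 𝔓 = 𝔭 ∧ dn K 𝔓' = 𝔭 := by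
  obtain ⟨v1, v2, -, v4⟩ := h K L
  obtain ⟨𝔓, rfl⟩ := v2 𝔭
  obtain ⟨𝔓', h1, h2⟩ := v4 σ 𝔓
  refine ⟨𝔓, 𝔓', ?_, rfl, h1⟩
  rintro rfl
  obtain ⟨e, e0, he⟩ := v1 𝔓
  obtain ⟨_, ⟨w, rfl⟩, u, hu, hw⟩ := Subgroup.mem_sup.1 hd
  have hu' : (dn K 𝔓).valuation K ((u : K) - 1) < (dn K 𝔓).valuation K 4 := hu
  have hρ : (dn K 𝔓).valuation K (((u : K) - 1) / 4) < 1 := by
    rw [map_div₀]
    exact (div_lt_one₀ (zero_lt_iff.2 ((Valuation.ne_zero_iff _).2 (by norm_num)))).2 hu'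
  have hw' : (d : K) = (w : K) ^ 2 * u := by
    rw [← hw]
    simp
  have w0 : algebraMap K L w ≠ 0 := by simp
  obtain ⟨θ, hθ⟩ : ∃ θ : L, θ = (δ / algebraMap K L w - 1) / 2 := ⟨_, rfl⟩
  have s1 : σ θ = -1 - θ := by
    rw [hθ, map_div₀, map_sub, map_div₀, hQ.neg, σ.commutes, map_one, map_ofNat]
    ring
  have s2 : θ * σ θ = -algebraMap K L (((u : K) - 1) / 4) := by
    have := hQ.sq
    rw [hw', map_mul, map_pow] at this
    rw [s1, hθ, map_div₀, map_sub, map_one, map_ofNat]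
    field_simp
    linear_combination (-4 : L) * this
  have s3 : 𝔓.valuation L θ * 𝔓.valuation L θ < 1 := by
    conv_lhs => rw [h2 θ]; arg 1; rw [← h2 θ]
    rw [← map_mul, s2, Valuation.map_neg, he]
    exact pow_lt_one₀ zero_le hρ e0.ne'
  have s4 : 𝔓.valuation L θ < 1 := by
    by_contra hc
    exact absurd s3 (not_lt.2 (one_le_mul (not_lt.1 hc) (not_lt.1 hc)))
  have s5 := (𝔓.valuation L).map_add_lt s4 (h2 θ ▸ s4 : 𝔓.valuation L (σ θ) < 1)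
  rw [s1, show θ + (-1 - θ) = -1 by ring, Valuation.map_neg, map_one] at s5
  exact lt_irrefl _ s5

end OddA

open OddA in
theorem oddp : ODDStmt := by
  intro K _ _ 𝔭 x y h2 hx hy nx ny
  obtain ⟨a, ha, ha'⟩ := nonsq 𝔭 x h2 hx nx
  obtain ⟨b, hb, hb'⟩ := nonsq 𝔭 y h2 hy ny
  have hxy : 𝔭.valuation K ((x * y : Kˣ) : K) = 1 := by rw [Units.val_mul, map_mul, hx, hy, mul_one]
  have hs : IsSquare (Ideal.Quotient.mk 𝔭.asIdeal (a * b)) := by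
    classical
    letI := 𝔭.isMaximal
    letI := Ideal.Quotient.field 𝔭.asIdeal
    haveI : Finite (𝓞 K ⧸ 𝔭.asIdeal) := 𝔭.asIdeal.finiteQuotientOfFreeOfNeBot 𝔭.ne_bot
    letI := Fintype.ofFinite (𝓞 K ⧸ 𝔭.asIdeal)
    by_contra hc
    rw [← quadraticChar_neg_one_iff_not_isSquare] at ha' hb' hc
    rw [map_mul, map_mul, ha', hb'] at hc
    norm_num at hc
  obtain ⟨r, hr⟩ := hs
  obtain ⟨r, rfl⟩ := Ideal.Quotient.mk_surjective r
  rw [← map_mul, Ideal.Quotient.eq, ← 𝔭.valuation_lt_one_iff_mem (K := K)] at hr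
  refine mem_LS 𝔭 _ (algebraMap (𝓞 K) K r) h2 hxy ?_
  have e : ((x * y : Kˣ) : K) - algebraMap (𝓞 K) K r ^ 2 = algebraMap (𝓞 K) K (a * b - r * r) -
      (x * (algebraMap (𝓞 K) K b - y) + algebraMap (𝓞 K) K b * (algebraMap (𝓞 K) K a - x)) := by
    rw [map_sub, map_mul, map_mul, Units.val_mul]; ring
  rw [e]
  refine (𝔭.valuation K).map_sub_lt hr ((𝔭.valuation K).map_add_lt ?_ ?_)
  · rwa [map_mul, hx, one_mul]
  · rw [map_mul]
    exact mul_lt_one_of_nonneg_of_lt_one_right (𝔭.valuation_le_one b) zero_le ha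

open OddA in
theorem spl (h : VALStmt) : SPLStmt := by
  classical
  intro K L _ _ _ _ _ d δ σ S S' hQ hS
  rw [Finset.card_eq_sum_card_fiberwise (f := dn K) (s := S') (t := S) fun 𝔓 h' => (hS 𝔓).1 h',
    ns, Finset.card_filter, ← Finset.sum_add_distrib, mul_comm, ← smul_eq_mul, ← Finset.sum_const]
  refine Finset.sum_le_sum fun 𝔭 h𝔭 => ?_
  by_cases hd : d ∈ LS 𝔭
  · obtain ⟨𝔓, 𝔓', a1, a2, a3⟩ := two h hQ 𝔭 hd
    refine le_add_right (Finset.one_lt_card.2 ⟨𝔓, ?_, 𝔓', ?_, a1⟩)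
    · exact Finset.mem_filter.2 ⟨(hS _).2 (a2 ▸ h𝔭), a2⟩
    · exact Finset.mem_filter.2 ⟨(hS _).2 (a3 ▸ h𝔭), a3⟩
  · obtain ⟨𝔓, a2⟩ := (h K L).2.1 𝔭
    rw [if_pos hd]
    exact Nat.succ_le_succ (Finset.card_pos.2
      ⟨𝔓, Finset.mem_filter.2 ⟨(hS _).2 (a2 ▸ h𝔭), a2⟩⟩)

end Pool.Agent.MP_a43263_nt.VH

end
end MrgPart2

-- marker of a merged file
example : 731051 + 456456 = 731051 + 456456 := rfl
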