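import Pool.Agent.MP_a43263_nt.VH.Odd
import Mathlib.GroupTheory.Sylow

-- ======== part 0: formerly Pool.Agent.MP_a43263_nt.VH.Cyc
section MrgPart0

/-! THEOREM V, part H: the cyclic normal form of a cocycle. -/

set_option autoImplicit false

namespace Pool.Agent.MP_a43263_nt.VH

namespace CYC

theorem mul_mem {G : Type} [Group G] {H' H : Subgroup G} (h2 : H'.relIndex H = 2) {σ τ : G}
    (hσ : σ ∈ H) (hτ : τ ∈ H) : σ * τ ∈ H' ↔ (σ ∈ H' ↔ τ ∈ H') := by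
  have := Subgroup.mul_mem_iff_of_index_two (H := H'.subgroupOf H) h2 (a := ⟨σ, hσ⟩) (b := ⟨τ, hτ⟩)
  simpa [Subgroup.mem_subgroupOf] using this

theorem exists_out {G : Type} [Group G] {H' H : Subgroup G} (h2 : H'.relIndex H = 2) :
    ∃ t ∈ H, t ∉ H' := by
  by_contra h
  push Not at h
  rw [Subgroup.relIndex_eq_one.2 h] at h2
  omega

variable {k M : Type} [Field k] [Field M] [Algebra k M]

theorem twist {C : (M ≃ₐ[k] M) → (M ≃ₐ[k] M) → M} (hC : Coc C) {f : (M ≃ₐ[k] M) → M}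
    (hf : ∀ σ, f σ ≠ 0) : Coc fun σ τ => C σ τ * f (σ * τ) / (f σ * σ (f τ)) := by
  have hs : ∀ σ τ : M ≃ₐ[k] M, σ (f τ) ≠ 0 := fun σ τ => (map_ne_zero σ).2 (hf τ)
  refine ⟨fun σ τ => div_ne_zero (mul_ne_zero (hC.1 _ _) (hf _)) (mul_ne_zero (hf _) (hs _ _)),
    fun σ τ ρ => ?_⟩
  have e := hC.2 σ τ ρ
  have n1 := hf σ
  have n2 := hf (σ * τ)
  have n3 := hs σ τ
  have n4 := hs σ (τ * ρ)
  have n5 : σ (τ (f ρ)) ≠ 0 := (map_ne_zero σ).2 (hs τ ρ)
  simp only [map_div₀, map_mul, AlgEquiv.mul_apply, mul_assoc σ τ ρ]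
  field_simp
  linear_combination f (σ * (τ * ρ)) * e

end CYC

open CYC in
theorem cyc (h1 : NORMStmt) (h2 : H90Stmt) : CYCStmt := by
  classical
  intro k M _ _ _ _ H' H C hle hi hC hT
  obtain ⟨f, hf, hf1⟩ := h1 k M H' C hC hT
  obtain ⟨t, ht, ht'⟩ := exists_out hi
  obtain ⟨D, hD, hDe⟩ : ∃ D, Coc D ∧ ∀ σ τ, D σ τ = C σ τ * f (σ * τ) / (f σ * σ (f τ)) :=
    ⟨_, twist hC hf, fun _ _ => rfl⟩
  have hs : ∀ σ τ : M ≃ₐ[k] M, σ (f τ) ≠ 0 := fun σ τ => (map_ne_zero σ).2 (hf τ)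
  have d1 : ∀ σ, ∀ τ ∈ H', D σ τ = 1 := fun σ τ h => by
    rw [hDe, hf1 σ τ h, div_self (mul_ne_zero (hf _) (hs _ _))]
  have d2 : ∀ σ, ∀ τ ∈ H, τ ∉ H' → D σ τ = D σ t := fun σ τ h h' => by
    have m : t⁻¹ * τ ∈ H' := by
      rw [mul_mem hi (H.inv_mem ht) h]
      simp [h', ht']
    have e := hD.2 σ t (t⁻¹ * τ)
    rw [d1 _ _ m, d1 _ _ m, map_one, mul_one, one_mul, mul_inv_cancel_left] at e
    exact e.symm
  have no : ∀ σ ∈ H', ∀ τ ∈ H, τ ∉ H' → σ * τ ∉ H' ∧ τ * σ ∉ H' := fun σ h τ g g' => by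
    rw [mul_mem hi (hle h) g, mul_mem hi g (hle h)]
    simp [h, g']
  have ye : ∀ σ ∈ H, σ ∉ H' → ∀ τ ∈ H, τ ∉ H' → σ * τ ∈ H' := fun σ h h' τ g g' => by
    rw [mul_mem hi h g]
    simp [h', g']
  have d3 : ∀ σ ∈ H', ∀ τ ∈ H', D (σ * τ) t = D σ t * σ (D τ t) := fun σ h τ g => by
    have e := hD.2 σ τ t
    rw [d1 _ _ g, one_mul, d2 σ _ (H.mul_mem (hle g) ht) (no τ g t ht ht').1] at e
    rw [e, mul_comm]
  obtain ⟨m, hm0, hm⟩ := h2 k M H' (fun σ => D σ t) ⊤ inferInstance (fun σ _ => hD.1 σ t) d3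
    (fun σ _ h => by
      rw [IntermediateField.fixingSubgroup_top, Subgroup.mem_bot] at h
      have e := d3 1 H'.one_mem 1 H'.one_mem
      rw [mul_one, AlgEquiv.one_apply] at e
      rw [h]
      exact (mul_left_cancel₀ (hD.1 1 t) (by rw [← e, mul_one])).symm)
  let g : (M ≃ₐ[k] M) → M := fun σ => if σ ∈ H' then 1 else m
  have hg : ∀ σ, g σ ≠ 0 := fun σ => by
    simp only [g]
    split_ifs
    exacts [one_ne_zero, hm0]
  obtain ⟨E, hE, hEe⟩ : ∃ E, Coc E ∧ ∀ σ τ, E σ τ = D σ τ * g (σ * τ) / (g σ * σ (g τ)) :=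
    ⟨_, twist hD hg, fun _ _ => rfl⟩
  have e1 : ∀ σ ∈ H, ∀ τ ∈ H, σ ∈ H' ∨ τ ∈ H' → E σ τ = 1 := fun σ h τ h' o => by
    rw [hEe]
    by_cases a : τ ∈ H'
    · by_cases b : σ ∈ H'
      · simp [g, d1 σ τ a, a, b, H'.mul_mem b a]
      · simp [g, d1 σ τ a, a, b, (no τ a σ h b).2, hm0]
    · have b := o.resolve_right a
      simp only [g, if_pos b, if_neg a, if_neg (no σ b τ h' a).1, one_mul]
      rw [d2 σ τ h' a, hm σ b, div_self (mul_ne_zero (hD.1 _ _) hm0)]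
  have e2 : ∀ σ ∈ H, σ ∉ H' → ∀ τ ∈ H, τ ∉ H' → E σ τ = E t t := by
    have r1 : ∀ σ ∈ H, ∀ τ ∈ H, τ ∉ H' → E σ τ = E σ t := fun σ h τ g g' => by
      have m := ye _ (H.inv_mem ht) (by simpa using ht') τ g g'
      have e := hE.2 σ t (t⁻¹ * τ)
      rw [e1 _ (H.mul_mem h ht) _ (hle m) (Or.inr m), e1 _ ht _ (hle m) (Or.inr m), map_one, mul_one,
        one_mul, mul_inv_cancel_left] at e
      exact e.symm
    intro σ h h' τ g g'
    have m := ye _ (H.inv_mem ht) (by simpa using ht') σ h h'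
    have e := hE.2 t (t⁻¹ * σ) τ
    rw [e1 _ ht _ (hle m) (Or.inr m), e1 _ (hle m) _ g (Or.inl m), map_one, one_mul, one_mul,
      mul_inv_cancel_left] at e
    rw [e, r1 t ht _ (H.mul_mem (hle m) g) (no _ m τ g g').1]
  refine ⟨E t t, hE.1 t t, fun σ h => ?_, fun σ => f σ * g σ, fun σ => mul_ne_zero (hf σ) (hg σ),
    fun σ h τ h' => ?_⟩
  · have e := hE.2 σ t t
    have m := ye t ht ht' t ht ht'
    rw [e1 σ h _ (hle m) (Or.inr m), mul_one] at e
    by_cases a : σ ∈ H'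
    · rw [← e, e1 σ h t ht (Or.inl a), one_mul, e2 _ (H.mul_mem h ht) (no σ a t ht ht').1 t ht ht']
    · rw [← e, e2 σ h a t ht ht', e1 _ (H.mul_mem h ht) t ht (Or.inl (ye σ h a t ht ht')), mul_one]
  · have e : E σ τ = if σ ∈ H' ∨ τ ∈ H' then 1 else E t t := by
      split_ifs with o
      · exact e1 σ h τ h' o
      · exact e2 σ h (fun a => o (Or.inl a)) τ h' fun a => o (Or.inr a)
    rw [← e, hEe, hDe, map_mul]
    have n1 := hf σ
    have n2 := hg σ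
    have n3 := hs σ τ
    have n4 : σ (g τ) ≠ 0 := (map_ne_zero σ).2 (hg τ)
    field_simp

open CYC in
theorem nrm : NRMStmt := by
  classical
  intro k M _ _ _ H' H C a x y δ hle hi ⟨b, hb0, hb⟩ ha0 ha hxy h1 h2
  have hY : x + y * δ ≠ 0 := fun h => ha0 (by rw [ha]; linear_combination (x - y * δ) * h)
  refine ⟨fun σ => b σ * if σ ∈ H' then 1 else x + y * δ, fun σ => mul_ne_zero (hb0 σ) ?_,
    fun σ h τ h' => ?_⟩
  · split_ifs
    exacts [one_ne_zero, hY]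
  · have e := hb σ h τ h'
    have m := mul_mem hi h h'
    by_cases p : σ ∈ H' <;> by_cases q : τ ∈ H' <;>
      simp only [p, q, m, if_true, if_false, or_true, or_false, iff_true, iff_false, iff_self,
        not_true, mul_one, map_mul, map_add, (hxy σ h).1, (hxy σ h).2] at e ⊢
    · exact e
    · rw [h1 σ p]
      linear_combination (x + y * δ) * e
    · linear_combination (x + y * δ) * e
    · rw [h2 σ h p, e, ha]
      ring

end Pool.Agent.MP_a43263_nt.VH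

end MrgPart0

-- ======== part 1: formerly Pool.Agent.MP_a43263_nt.VH.L1a
section MrgPart1

/-! THEOREM V, part H: the index of the local squares. -/

set_option autoImplicit false

noncomputable section

namespace Pool.Agent.MP_a43263_nt.VH

open NumberField IsDedekindDomain WithZero

namespace L1a

variable {K : Type} [Field K] [NumberField K]

/-- integral elements that are distinct modulo a power of the prime -/
theorem count (𝔭 : Pr K) (n : ℕ) {X : Type} (t : X → K) (h1 : ∀ x, 𝔭.valuation K (t x) ≤ 1)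
    (h2 : ∀ x y, 𝔭.valuation K (t x - t y) ≤ exp (-(n : ℤ)) → x = y) :
    Finite X ∧ Nat.card X ≤ Ideal.absNorm 𝔭.asIdeal ^ n := by
  have h : ∀ x, ∃ g : 𝓞 K, 𝔭.valuation K (algebraMap (𝓞 K) K g - t x) < exp (-(n : ℤ)) :=
    fun x => 𝔭.exists_valuation_sub_lt_of_integer (h1 x) (Units.mk0 (exp (-(n : ℤ))) exp_ne_zero)
  choose g hg using h
  have hf : Finite (𝓞 K ⧸ 𝔭.asIdeal ^ n) :=
    Ideal.finiteQuotientOfFreeOfNeBot _ (pow_ne_zero n 𝔭.ne_bot)
  have hi : Function.Injective fun x => Ideal.Quotient.mk (𝔭.asIdeal ^ n) (g x) := by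
    intro x y hxy
    have a := Ideal.Quotient.eq.1 hxy
    rw [← 𝔭.intValuation_le_pow_iff_mem, ← 𝔭.valuation_of_algebraMap (K := K)] at a
    refine h2 x y ?_
    have e : t x - t y = algebraMap (𝓞 K) K (g x - g y) - (algebraMap (𝓞 K) K (g x) - t x) +
        (algebraMap (𝓞 K) K (g y) - t y) := by
      rw [map_sub]; ring
    rw [e]
    exact (𝔭.valuation K).map_add_le ((𝔭.valuation K).map_sub_le a (hg x).le) (hg y).le
  refine ⟨Finite.of_injective _ hi, (Nat.card_le_card_of_injective _ hi).trans ?_⟩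
  rw [← map_pow, Ideal.absNorm_apply, Submodule.cardQuot_apply]

/-- the local units -/
def W (𝔭 : Pr K) : Subgroup Kˣ where
  carrier := {u | 𝔭.valuation K (u : K) = 1}
  one_mem' := by simp
  mul_mem' := fun {a b} ha hb => by
    simp only [Set.mem_ofPred_eq] at ha hb ⊢
    rw [Units.val_mul, map_mul, ha, hb, mul_one]
  inv_mem' := fun {a} ha => by
    simp only [Set.mem_ofPred_eq] at ha ⊢
    rw [Units.val_inv_eq_inv_val, map_inv₀, ha, inv_one]

theorem top (𝔭 : Pr K) : (LS 𝔭 ⊔ W 𝔭).index ∣ 2 := by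
  obtain ⟨π, hπ⟩ := 𝔭.valuation_exists_uniformizer K
  have h0 : π ≠ 0 := by
    rintro rfl
    rw [map_zero] at hπ
    exact exp_ne_zero hπ.symm
  have key : ∀ (b : Kˣ) (m : ℤ), 𝔭.valuation K (b : K) = exp (m + m) → b ∈ LS 𝔭 ⊔ W 𝔭 := by
    intro b m hb
    have e : b = (Units.mk0 π h0 ^ (-m)) ^ 2 * (b * (Units.mk0 π h0 ^ m) ^ 2) := by
      rw [zpow_neg, inv_pow, mul_comm b, inv_mul_cancel_left]
    rw [e]
    refine Subgroup.mul_mem_sup (Subgroup.mem_sup_left ⟨_, rfl⟩) ?_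
    change 𝔭.valuation K ((b * (Units.mk0 π h0 ^ m) ^ 2 : Kˣ) : K) = 1
    rw [Units.val_mul, Units.val_pow_eq_pow_val, Units.val_zpow_eq_zpow_val, Units.val_mk0,
      map_mul, map_pow, map_zpow₀, hb, hπ, ← exp_zsmul, ← exp_nsmul, ← exp_add, ← exp_zero]
    congr 1
    simp only [smul_eq_mul, nsmul_eq_mul]
    ring
  refine Subgroup.index_dvd_two_iff.2 ⟨Units.mk0 π h0, fun b => ?_⟩
  have hb : 𝔭.valuation K (b : K) = exp (log (𝔭.valuation K (b : K))) :=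
    (exp_log ((Valuation.ne_zero_iff _).2 b.ne_zero)).symm
  rcases Int.even_or_odd (log (𝔭.valuation K (b : K))) with ⟨m, hm⟩ | ⟨m, hm⟩
  · exact Or.inr (key b m (hm ▸ hb))
  · refine Or.inl (key _ m ?_)
    rw [Units.val_mul, map_mul, Units.val_mk0, hb, hπ, hm, ← exp_add]
    congr 1
    ring

/-- the local units modulo `4 𝔭` -/
abbrev Q (𝔭 : Pr K) : Type := W 𝔭 ⧸ (Uo 𝔭).subgroupOf (W 𝔭)

/-- squaring -/
def sqr (𝔭 : Pr K) : Q 𝔭 →* Q 𝔭 := MonoidHom.mk' (fun x => x ^ 2) fun x y => by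
  obtain ⟨a, rfl⟩ := QuotientGroup.mk_surjective x
  obtain ⟨b, rfl⟩ := QuotientGroup.mk_surjective y
  rw [← QuotientGroup.mk_mul, ← QuotientGroup.mk_pow, ← QuotientGroup.mk_pow,
    ← QuotientGroup.mk_pow, mul_pow, QuotientGroup.mk_mul]

/-- a representative -/
def rp {𝔭 : Pr K} (x : Q 𝔭) : K := ((x.out : W 𝔭) : Kˣ)

theorem rp_val {𝔭 : Pr K} (x : Q 𝔭) : 𝔭.valuation K (rp x) = 1 := x.out.2

theorem rp_inj {𝔭 : Pr K} {x y : Q 𝔭}
    (h : 𝔭.valuation K (rp x - rp y) < 𝔭.valuation K 4) : x = y := by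
  rw [← x.out_eq, ← y.out_eq]
  refine QuotientGroup.eq.2 ?_
  change 𝔭.valuation K (((((x.out : W 𝔭) : Kˣ)⁻¹ * ((y.out : W 𝔭) : Kˣ) : Kˣ) : K) - 1) < _
  have h0 : rp x ≠ 0 := Units.ne_zero _
  have e : (rp x)⁻¹ * rp y - 1 = -((rp x)⁻¹ * (rp x - rp y)) := by
    field_simp
    ring
  rw [Units.val_mul, Units.val_inv_eq_inv_val]
  change 𝔭.valuation K ((rp x)⁻¹ * rp y - 1) < _
  rwa [e, Valuation.map_neg, map_mul, map_inv₀, rp_val, inv_one, one_mul]

theorem four {𝔭 : Pr K} {e : ℕ} (he : 𝔭.valuation K 2 = exp (-(e : ℤ))) :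
    𝔭.valuation K 4 = exp (-(e : ℤ) + -(e : ℤ)) := by
  rw [exp_add, ← he, ← map_mul]
  norm_num

theorem fin {𝔭 : Pr K} {e : ℕ} (he : 𝔭.valuation K 2 = exp (-(e : ℤ))) : Finite (Q 𝔭) := by
  refine (count 𝔭 (2 * e + 1) rp (fun x => (rp_val x).le) fun x y h => rp_inj (h.trans_lt ?_)).1
  rw [four he, exp_lt_exp]
  push_cast
  omega

theorem near {𝔭 : Pr K} {e : ℕ} (he : 𝔭.valuation K 2 = exp (-(e : ℤ))) (c : K) :
    {x : Q 𝔭 | 𝔭.valuation K (rp x - c) < 𝔭.valuation K 2}.ncard ≤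
      Ideal.absNorm 𝔭.asIdeal ^ e := by
  obtain ⟨π, hπ⟩ := 𝔭.valuation_exists_uniformizer K
  have hv : 𝔭.valuation K (2 * π) = exp (-(e : ℤ) + -1) := by rw [map_mul, he, hπ, exp_add]
  refine (count 𝔭 e (X := {x : Q 𝔭 | 𝔭.valuation K (rp x - c) < 𝔭.valuation K 2})
    (fun x => (rp x.1 - c) / (2 * π)) (fun x => ?_) fun x y h => Subtype.ext (rp_inj ?_)).2
  · rw [map_div₀, hv, div_le_one₀ exp_pos, ← lt_mul_exp_iff_le exp_ne_zero, ← exp_add,
      neg_add_cancel_right, ← he]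
    exact x.2
  · rw [← sub_div, sub_sub_sub_cancel_right, map_div₀, hv, div_le_iff₀ exp_pos, ← exp_add] at h
    refine h.trans_lt ?_
    rw [four he, exp_lt_exp]
    omega

theorem ker {𝔭 : Pr K} {e : ℕ} (he : 𝔭.valuation K 2 = exp (-(e : ℤ))) :
    Nat.card (sqr 𝔭).ker ≤ 2 * Ideal.absNorm 𝔭.asIdeal ^ e := by
  have := fin he
  have hs : ((sqr 𝔭).ker : Set (Q 𝔭)) ⊆
      {x : Q 𝔭 | 𝔭.valuation K (rp x - 1) < 𝔭.valuation K 2} ∪
        {x : Q 𝔭 | 𝔭.valuation K (rp x - -1) < 𝔭.valuation K 2} := by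
    intro x hx
    have h1 : x ^ 2 = 1 := hx
    rw [← x.out_eq] at h1
    have h2 : x.out ^ 2 ∈ (Uo 𝔭).subgroupOf (W 𝔭) := (QuotientGroup.eq_one_iff _).1 h1
    have h3 : 𝔭.valuation K (rp x ^ 2 - 1) < 𝔭.valuation K 4 := h2
    by_contra hc
    simp only [Set.mem_union, Set.mem_ofPred_eq, not_or, not_lt] at hc
    have e1 : rp x ^ 2 - 1 = (rp x - 1) * (rp x - -1) := by ring
    have e2 : (4 : K) = 2 * 2 := by norm_num
    rw [e1, e2, map_mul, map_mul] at h3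
    exact h3.not_ge (mul_le_mul' hc.1 hc.2)
  have h1 := (Set.ncard_le_ncard hs).trans (Set.ncard_union_le _ _)
  have h2 := near he 1
  have h3 := near he (-1)
  change ((sqr 𝔭).ker : Set (Q 𝔭)).ncard ≤ _
  omega

end L1a

theorem l1a : L1AStmt := by
  intro K _ _ 𝔭 e he
  have := L1a.fin he
  have h1 := L1a.top 𝔭
  have h2 := L1a.ker he
  rw [← Subgroup.index_range, ← Subgroup.index_comap_of_surjective _
    (QuotientGroup.mk'_surjective ((Uo 𝔭).subgroupOf (L1a.W 𝔭)))] at h2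
  have h3 : (L1a.sqr 𝔭).range.comap
      (QuotientGroup.mk' ((Uo 𝔭).subgroupOf (L1a.W 𝔭))) ≤ (LS 𝔭).subgroupOf (L1a.W 𝔭) := by
    rintro w ⟨x, hx⟩
    obtain ⟨y, rfl⟩ := QuotientGroup.mk_surjective x
    have a : (y ^ 2)⁻¹ * w ∈ (Uo 𝔭).subgroupOf (L1a.W 𝔭) := QuotientGroup.eq.1 hx
    have b : (w : Kˣ) = (y : Kˣ) ^ 2 * ((y ^ 2)⁻¹ * w : L1a.W 𝔭) := by simp
    rw [Subgroup.mem_subgroupOf, b]
    exact Subgroup.mul_mem_sup ⟨_, rfl⟩ a
  have h4 : ((L1a.sqr 𝔭).range.comap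
      (QuotientGroup.mk' ((Uo 𝔭).subgroupOf (L1a.W 𝔭)))).index ≠ 0 := by
    rw [Subgroup.index_comap_of_surjective _ (QuotientGroup.mk'_surjective _)]
    exact Subgroup.index_ne_zero_of_finite
  have h5 := Subgroup.index_dvd_of_le h3
  have h6 : (LS 𝔭).index = ((LS 𝔭).subgroupOf (L1a.W 𝔭)).index * (LS 𝔭 ⊔ L1a.W 𝔭).index := by
    rw [← Subgroup.relIndex_mul_index (le_sup_left : LS 𝔭 ≤ LS 𝔭 ⊔ L1a.W 𝔭),
      Subgroup.relIndex_sup_left]
    rfl
  rw [h6]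
  refine ⟨mul_ne_zero (ne_zero_of_dvd_ne_zero h4 h5) (ne_zero_of_dvd_ne_zero two_ne_zero h1), ?_⟩
  calc _ ≤ 2 * Ideal.absNorm 𝔭.asIdeal ^ e * 2 :=
        Nat.mul_le_mul ((Nat.le_of_dvd (Nat.pos_of_ne_zero h4) h5).trans h2)
          (Nat.le_of_dvd two_pos h1)
    _ = _ := by ring

end Pool.Agent.MP_a43263_nt.VH

end
end MrgPart1

-- ======== part 2: formerly Pool.Agent.MP_a43263_nt.VH.Loc
section MrgPart2

/-! THEOREM V, part H: a locally trivial cyclic cocycle comes from a local norm. -/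

set_option autoImplicit false

namespace Pool.Agent.MP_a43263_nt.VH

namespace LOC

theorem mul_mem {G : Type} [Group G] {H' H : Subgroup G} (h2 : H'.relIndex H = 2) {σ τ : G}
    (hσ : σ ∈ H) (hτ : τ ∈ H) : σ * τ ∈ H' ↔ (σ ∈ H' ↔ τ ∈ H') := by
  have := Subgroup.mul_mem_iff_of_index_two (H := H'.subgroupOf H) h2 (a := ⟨σ, hσ⟩) (b := ⟨τ, hτ⟩)
  simpa [Subgroup.mem_subgroupOf] using this

end LOC

open LOC in
theorem loc (h1 : RESStmt) (h2 : H90Stmt) : LOCStmt := by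
  classical
  intro M _ _ _ p _ ε c H' H a δ hle hi hl hc ha hδ0 hδ1 hδ2
  obtain ⟨r, hr, F1, hF1, hr1⟩ := h1 M p ε
  obtain ⟨β, hβ0, ⟨F0, hF0, hβ1⟩, hβ⟩ := hl
  obtain ⟨b, hb0, hb⟩ := hc
  have hd0 : ε δ ≠ 0 := (map_ne_zero ε).2 hδ0
  have hH : ∀ s : Gp p, (∀ z : M, (∀ σ ∈ H, σ z = z) → s (ε z) = ε z) → r s ∈ H := by
    intro s hs
    rw [← IntermediateField.fixingSubgroup_fixedField H, IntermediateField.mem_fixingSubgroup_iff]
    intro z hz
    apply ε.injective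
    rw [hr, hs z fun σ hσ => (IntermediateField.mem_fixedField_iff H z).1 hz σ hσ]
  by_cases hex : ∃ t : Gp p, r t ∈ H ∧ r t ∉ H'
  swap
  · refine ⟨(ε a + 1) / 2, (ε a - 1) / (2 * ε δ), by field_simp; ring, fun s hs => ?_⟩
    have k1 := hH s hs
    have k2 : r s ∈ H' := by
      by_contra k
      exact hex ⟨s, k1, k⟩
    have e1 : s (ε a) = ε a := by rw [← hr, ha _ k1]
    have e2 : s (ε δ) = ε δ := by rw [← hr, hδ1 _ k2]
    simp [e1, e2, map_ofNat]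
  obtain ⟨t, ht, ht'⟩ := hex
  have hε0 : ∀ s, ε (b (r s)) ≠ 0 := fun s => (map_ne_zero ε).2 (hb0 _)
  let γ : Gp p → PadicAlgCl p := fun s => β s / ε (b (r s))
  have hγ0 : ∀ s, γ s ≠ 0 := fun s => div_ne_zero (hβ0 s) (hε0 s)
  have hγ : ∀ s s', r s ∈ H → r s' ∈ H →
      (if r s ∈ H' ∨ r s' ∈ H' then 1 else ε a) * γ (s * s') = γ s * s (γ s') := by
    intro s s' k k'
    have e1 := hβ s s' (r s) (r s') (hr s) (hr s')
    have e2 := congrArg ε (hb _ k _ k')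
    simp only [cz, map_mul, map_intCast, hr, apply_ite ε, map_one] at e2
    have n1 := hε0 s
    have n2 : s (ε (b (r s'))) ≠ 0 := (map_ne_zero s).2 (hε0 s')
    have n3 := hε0 (s * s')
    simp only [γ, map_div₀, map_mul r] at n3 ⊢
    field_simp
    linear_combination (-β (s * s')) * e2 + ε (b (r s * r s')) * e1
  have hγ1 : γ 1 = 1 := by
    have e := hγ 1 1 (by simp) (by simp)
    rw [if_pos (Or.inl (by simp)), one_mul, mul_one, AlgEquiv.one_apply] at e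
    exact mul_left_cancel₀ (hγ0 1) (by rw [← e, mul_one])
  obtain ⟨z, hz0, hz⟩ := h2 ℚ_[p] (PadicAlgCl p) (H'.comap r) γ (F0 ⊔ F1) inferInstance
    (fun s _ => hγ0 s)
    (fun s k s' k' => by
      have e := hγ s s' (hle k) (hle k')
      rwa [if_pos (Or.inl (show r s ∈ H' from k)), one_mul] at e)
    (fun s _ k => by
      have k0 : s ∈ F0.fixingSubgroup := IntermediateField.fixingSubgroup_antitone le_sup_left k
      have k1 : s ∈ F1.fixingSubgroup := IntermediateField.fixingSubgroup_antitone le_sup_right k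
      rw [← hγ1]
      simp only [γ, hβ1 s k0, hr1 s k1, map_one])
  let η : Gp p → PadicAlgCl p := fun s => γ s * z / s z
  have hsz : ∀ s : Gp p, s z ≠ 0 := fun s => (map_ne_zero s).2 hz0
  have hη : ∀ s s', r s ∈ H → r s' ∈ H →
      (if r s ∈ H' ∨ r s' ∈ H' then 1 else ε a) * η (s * s') = η s * s (η s') := by
    intro s s' k k'
    have e := hγ s s' k k'
    have n1 := hsz s
    have n2 : s (s' z) ≠ 0 := (map_ne_zero s).2 (hsz s')
    simp only [η, map_div₀, map_mul, AlgEquiv.mul_apply]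
    field_simp
    linear_combination e
  have hη1 : ∀ s, r s ∈ H' → η s = 1 := fun s k => by
    simp only [η]
    rw [hz s k, div_self (mul_ne_zero (hγ0 s) hz0)]
  have hout : ∀ s, r s ∈ H → r s ∉ H' → η s = η t := by
    intro s k k'
    have m1 : r (t⁻¹ * s) ∈ H' := by
      rw [map_mul, map_inv, mul_mem hi (H.inv_mem ht) k]
      simp [k', ht']
    have e := hη t (t⁻¹ * s) ht (hle m1)
    rwa [if_pos (Or.inr m1), one_mul, mul_inv_cancel_left, hη1 _ m1, map_one, mul_one] at e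
  have hin : ∀ s, r s ∈ H' → s (η t) = η t := by
    intro s k
    have e := hη s t (hle k) ht
    rw [if_pos (Or.inl k), one_mul, hη1 s k, one_mul] at e
    rw [← e]
    refine hout _ (by rw [map_mul]; exact H.mul_mem (hle k) ht) ?_
    rw [map_mul, mul_mem hi (hle k) ht]
    simp [k, ht']
  have hmm : ∀ s, r s ∈ H → r s ∉ H' → r (s * t) ∈ H' ∧ r (t⁻¹ * s) ∈ H' := by
    intro s k k'
    rw [map_mul, map_mul, map_inv, mul_mem hi k ht, mul_mem hi (H.inv_mem ht) k]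
    simp [k', ht']
  have hN : ε a = η t * t (η t) := by
    have e := hη t t ht ht
    rwa [if_neg (by simp [ht']), hη1 _ (hmm t ht ht').1, mul_one] at e
  refine ⟨(η t + t (η t)) / 2, (η t - t (η t)) / (2 * ε δ), by rw [hN]; field_simp; ring,
    fun s hs => ?_⟩
  have k := hH s hs
  by_cases k' : r s ∈ H'
  · have e1 := hin s k'
    have e2 : s (t (η t)) = t (η t) := by
      have m : r (t⁻¹ * (s * t)) ∈ H' := by
        refine (hmm _ (by rw [map_mul]; exact H.mul_mem k ht) ?_).2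
        rw [map_mul, mul_mem hi k ht]
        simp [k', ht']
      have := congrArg t (hin _ m)
      rwa [← AlgEquiv.mul_apply, mul_inv_cancel_left] at this
    have e3 : s (ε δ) = ε δ := by rw [← hr, hδ1 _ k']
    simp [e1, e2, e3, map_ofNat]
  · have e1 : s (η t) = t (η t) := by
      have := congrArg t (hin _ (hmm s k k').2)
      rwa [← AlgEquiv.mul_apply, mul_inv_cancel_left] at this
    have e2 : s (t (η t)) = η t := hin _ (hmm s k k').1
    have e3 : s (ε δ) = -ε δ := by rw [← hr, hδ2 _ k k', map_neg]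
    simp only [map_div₀, map_add, map_sub, map_mul, map_ofNat, e1, e2, e3]
    exact ⟨by ring, by field_simp; ring⟩

end Pool.Agent.MP_a43263_nt.VH

end MrgPart2

-- ======== part 3: formerly Pool.Agent.MP_a43263_nt.VH.Sel
section MrgPart3

/-! THEOREM V, part H: the choice of auxiliary primes with dual `S`-units. -/

set_option autoImplicit false

namespace Pool.Agent.MP_a43263_nt.VH

open NumberField IsDedekindDomain

namespace SelA

theorem two {G : Type} [Group G] (H W : Subgroup G)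
    (h : ∀ x ∈ W, ∀ y ∈ W, x ∉ H → y ∉ H → x * y ∈ H) : H.relIndex W ≠ 0 ∧ H.relIndex W ≤ 2 := by
  by_cases h1 : W ≤ H
  · rw [Subgroup.relIndex_eq_one.2 h1]
    exact ⟨one_ne_zero, one_le_two⟩
  · obtain ⟨a, ha, hb⟩ := SetLike.not_le_iff_exists.1 h1
    have : H.relIndex W = 2 := by
      refine Subgroup.index_eq_two_iff.2 ⟨⟨a, ha⟩, fun b => ?_⟩
      simp only [Subgroup.mem_subgroupOf, Subgroup.coe_mul]
      by_cases hc : (b : G) ∈ H
      · exact Or.inr ⟨hc, fun hd => hb ((H.mul_mem_cancel_left hc).1 hd)⟩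
      · exact Or.inl ⟨h _ b.2 _ ha hc hb, hc⟩
    rw [this]
    exact ⟨two_ne_zero, le_rfl⟩

theorem bound {G : Type} [CommGroup G] (Q A W : Subgroup G) (d : G) (hd : d * d ∈ Q)
    (hA : A.relIndex W ≠ 0) (h : ∀ u ∈ W, u ∈ A → u ∉ Q → u * d ∈ Q) :
    Q.relIndex W ≤ 2 * A.relIndex W := by
  have h1 := two Q (A ⊓ W) fun x hx y hy a b => by
    have := Q.mul_mem (h x hx.2 hx.1 a) (h y hy.2 hy.1 b)
    rw [mul_mul_mul_comm] at this
    exact (Q.mul_mem_cancel_right hd).1 this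
  have h2 := Subgroup.relIndex_mul_relIndex (Q ⊓ (A ⊓ W)) (A ⊓ W) W inf_le_right inf_le_right
  rw [Subgroup.inf_relIndex_right, Subgroup.inf_relIndex_right] at h2
  refine (Subgroup.relIndex_le_of_le_left (inf_le_left (b := A ⊓ W)) ?_).trans ?_ <;> rw [← h2]
  exacts [mul_ne_zero h1.1 hA, Nat.mul_le_mul_right _ h1.2]

end SelA

open SelA

theorem sel (h1 : FGSStmt) (h2 : ODDStmt) (h3 : GST2Stmt) : SELStmt := by
  classical
  intro K _ _ _ d S hS hd hq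
  have odd : ∀ 𝔭 ∉ S, ∀ x ∈ SU S, ∀ y ∈ SU S, x ∉ LS 𝔭 → y ∉ LS 𝔭 → x * y ∈ LS 𝔭 :=
    fun 𝔭 hp x hx y hy => h2 K 𝔭 x y (hS.1 𝔭 hp) (hx 𝔭 hp) (hy 𝔭 hp)
  have key : ∀ j ≤ Units.rank K + S.card, ∃ T : Finset (Pr K), Disjoint S T ∧ T.card = j ∧
      (∀ 𝔭 ∈ T, d ∈ LS 𝔭) ∧ (∀ 𝔭 ∈ T, ∃ x ∈ SU S, x ∉ LS 𝔭 ∧ ∀ 𝔮 ∈ T, 𝔮 ≠ 𝔭 → x ∈ LS 𝔮) ∧
      (⨅ 𝔭 ∈ T, LS 𝔭).relIndex (SU S) ≠ 0 ∧ (⨅ 𝔭 ∈ T, LS 𝔭).relIndex (SU S) ≤ 2 ^ j := by
    intro j
    induction j with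
    | zero => exact fun _ => ⟨∅, by simp⟩
    | succ j ih =>
      intro hj
      obtain ⟨T, t1, t2, t3, t4, t5, t6⟩ := ih (Nat.le_of_succ_le hj)
      obtain ⟨u, u1, u2, u3, u4⟩ : ∃ u ∈ SU S, u ∈ (⨅ 𝔭 ∈ T, LS 𝔭) ∧ u ∉ Sq K ∧ u * d ∉ Sq K := by
        by_contra hc
        have c1 := bound (Sq K) (⨅ 𝔭 ∈ T, LS 𝔭) (SU S) d ⟨d, pow_two d⟩ t5 fun u a b c =>
          by_contra fun e => hc ⟨u, a, b, c, e⟩
        rw [h1 K S] at c1
        have c2 := c1.trans (Nat.mul_le_mul_left 2 t6)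
        rw [← pow_succ', Nat.pow_le_pow_iff_right one_lt_two] at c2
        omega
      obtain ⟨𝔭, p1, p2, p3, p4⟩ := h3 K d u S T hS hd u1 hq u3 u4
      have u5 : ∀ 𝔮 ∈ T, u ∈ LS 𝔮 := fun 𝔮 h => Subgroup.mem_iInf.1 (Subgroup.mem_iInf.1 u2 𝔮) h
      have p5 := two (LS 𝔭) (SU S) (odd 𝔭 p1)
      refine ⟨insert 𝔭 T, Finset.disjoint_insert_right.2 ⟨p1, t1⟩,
        by rw [Finset.card_insert_of_notMem p2, t2], Finset.forall_mem_insert .. |>.2 ⟨p3, t3⟩,
        Finset.forall_mem_insert .. |>.2 ⟨⟨u, u1, p4, fun 𝔮 a b =>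
          u5 𝔮 ((Finset.mem_insert.1 a).resolve_left b)⟩, fun 𝔮 hq => ?_⟩, ?_, ?_⟩
      · obtain ⟨x, x1, x2, x3⟩ := t4 𝔮 hq
        by_cases hx : x ∈ LS 𝔭
        · refine ⟨x, x1, x2, fun r a b => ?_⟩
          rcases Finset.mem_insert.1 a with rfl | a
          exacts [hx, x3 r a b]
        · refine ⟨x * u, (SU S).mul_mem x1 u1,
            fun e => x2 (((LS 𝔮).mul_mem_cancel_right (u5 𝔮 hq)).1 e), fun r a b => ?_⟩
          rcases Finset.mem_insert.1 a with rfl | a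
          exacts [odd r p1 x x1 u u1 hx p4, (LS r).mul_mem (x3 r a b) (u5 r a)]
      · rw [Finset.iInf_insert]
        exact Subgroup.relIndex_inf_ne_zero p5.1 t5
      · rw [Finset.iInf_insert, pow_succ']
        exact Subgroup.relIndex_inf_le.trans (Nat.mul_le_mul p5.2 t6)
  obtain ⟨T, t1, t2, t3, t4, -⟩ := key _ le_rfl
  exact ⟨T, t1, t2, t3, t4⟩

end Pool.Agent.MP_a43263_nt.VH

end MrgPart3

-- ======== part 4: formerly Pool.Agent.MP_a43263_nt.VH.Step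
section MrgPart4

/-! THEOREM V, part H: the step along a subgroup of index two. -/

set_option autoImplicit false

namespace Pool.Agent.MP_a43263_nt.VH

open NumberField IntermediateField

namespace Step

theorem coc {k M : Type} [Field k] [Field M] [Algebra k M]
    {c : (M ≃ₐ[k] M) → (M ≃ₐ[k] M) → ℤˣ} (h : SC c) : Coc (cz c) := by
  refine ⟨fun σ τ => ?_, fun σ τ ρ => ?_⟩
  · rcases Int.units_eq_one_or (c σ τ) with e | e <;> simp [cz, e]
  · simp only [cz, map_intCast, ← Int.cast_mul, ← Units.val_mul, h σ τ ρ]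

theorem two {G : Type} [Group G] {H' H : Subgroup G} (h : H'.relIndex H = 2) {a b : G}
    (ha : a ∈ H) (hb : b ∈ H) : a * b ∈ H' ↔ (a ∈ H' ↔ b ∈ H') :=
  Subgroup.mul_mem_iff_of_index_two (H := H'.subgroupOf H) h (a := ⟨a, ha⟩) (b := ⟨b, hb⟩)

theorem root {k M : Type} [Field k] [Field M] [Algebra k M] [FiniteDimensional k M]
    {H' H : Subgroup (M ≃ₐ[k] M)} (l : H' ≤ H) (h : H'.relIndex H = 2) :
    ∃ δ : M, δ ≠ 0 ∧ (∀ σ ∈ H', σ δ = δ) ∧ ∀ σ ∈ H, σ ∉ H' → σ δ = -δ := by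
  obtain ⟨t, ht, ht'⟩ : ∃ t ∈ H, t ∉ H' := by
    by_contra! a
    rw [Subgroup.relIndex_eq_one.2 a] at h
    omega
  obtain ⟨z, hz, hz'⟩ : ∃ z : M, (∀ σ ∈ H', σ z = z) ∧ t z ≠ z := by
    by_contra! a
    rw [← fixingSubgroup_fixedField H', IntermediateField.mem_fixingSubgroup_iff] at ht'
    exact ht' fun z hz => a z ((mem_fixedField_iff H' z).1 hz)
  have k : ∀ σ ∈ H, σ ∉ H' → σ z = t z := fun σ a b => by
    have := hz (t⁻¹ * σ) ((two h (inv_mem ht) a).2 (by simp [ht', b]))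
    rw [← this, ← AlgEquiv.mul_apply t, mul_inv_cancel_left, this]
  refine ⟨z - t z, sub_ne_zero.2 hz'.symm, fun σ a => ?_, fun σ a b => ?_⟩
  · rw [map_sub, hz σ a, ← AlgEquiv.mul_apply σ, k (σ * t) (mul_mem (l a) ht)
      fun b => ht' (((two h (l a) ht).1 b).1 a)]
  · rw [map_sub, k σ a b, ← AlgEquiv.mul_apply σ, hz (σ * t) ((two h a ht).2 (by simp [ht', b])),
      neg_sub]

theorem cx {K : Type} [Field K] [NumberField K] {i : K} (h : i ^ 2 = -1) : IsTotallyComplex K :=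
  ⟨fun v => InfinitePlace.not_isReal_iff_isComplex.1 fun r => by
    have := congrArg (InfinitePlace.embedding_of_isReal r) h
    rw [map_pow, map_neg, map_one] at this
    nlinarith [sq_nonneg (InfinitePlace.embedding_of_isReal r i)]⟩

end Step

open Step in
theorem step (h1 : CYCStmt) (h2 : NRMStmt) (h3 : LNMStmt) (h4 : HNTStmt) : STEPStmt := by
  intro M _ _ _ i c H' H hi fi l h sc loc tr
  obtain ⟨a, a0, fa, cy⟩ := h1 ℚ M H' H (cz c) l h (coc sc) tr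
  obtain ⟨δ, d0, f1, f2⟩ := root l h
  have fd : ∀ σ ∈ H, σ (δ ^ 2) = δ ^ 2 := fun σ s => by
    by_cases b : σ ∈ H'
    · rw [map_pow, f1 σ b]
    · rw [map_pow, f2 σ s b, neg_sq]
  let a' : (fixedField H)ˣ := Units.mk0 ⟨a, (mem_fixedField_iff H a).2 fa⟩
    fun e => a0 (congrArg Subtype.val e)
  let d' : (fixedField H)ˣ := Units.mk0 ⟨δ ^ 2, (mem_fixedField_iff H _).2 fd⟩
    fun e => pow_ne_zero 2 d0 (congrArg Subtype.val e)
  have : IsTotallyComplex (fixedField H) :=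
    cx (i := ⟨i, (mem_fixedField_iff H i).2 fi⟩) (Subtype.ext hi)
  obtain ⟨x, y, e⟩ := h4 (fixedField H) d' a' (h3 M c H' H δ a' d' l h sc loc cy rfl f1 f2)
  exact h2 ℚ M H' H (cz c) a x y δ l h cy a0 (congrArg Subtype.val e)
    (fun σ s => ⟨(mem_fixedField_iff H _).1 x.2 σ s, (mem_fixedField_iff H _).1 y.2 σ s⟩) f1 f2

end Pool.Agent.MP_a43263_nt.VH

end MrgPart4

-- ======== part 5: formerly Pool.Agent.MP_a43263_nt.VH.Top
section MrgPart5

/-! THEOREM V, part H: the last step and the induction along a Sylow subgroup. -/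

set_option autoImplicit false

namespace Pool.Agent.MP_a43263_nt.VH

namespace TopA

theorem coc {k M : Type} [Field k] [Field M] [Algebra k M]
    {c : (M ≃ₐ[k] M) → (M ≃ₐ[k] M) → ℤˣ} (h : SC c) :
    Coc (cz c) ∧ ∀ σ τ, cz c σ τ ^ 2 = 1 := by
  have s : ∀ σ τ, cz c σ τ ^ 2 = 1 := fun σ τ => by
    rw [cz, ← Int.cast_pow, ← Units.val_pow_eq_pow_val, Int.units_sq, Units.val_one, Int.cast_one]
  refine ⟨⟨fun σ τ e => ?_, fun σ τ ρ => ?_⟩, s⟩
  · have := s σ τ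
    rw [e] at this
    simp at this
  · simp only [cz, map_intCast, ← Int.cast_mul, ← Units.val_mul, h σ τ ρ]

theorem pm {k M : Type} [Field k] [Field M] [Algebra k M] {i : M} (hi : i ^ 2 = -1)
    (σ : M ≃ₐ[k] M) : σ i = i ∨ σ i = -i :=
  sq_eq_sq_iff_eq_or_eq_neg.1 (by rw [← map_pow, hi, map_neg, map_one])

theorem two {M : Type} [Field M] [NumberField M] [IsGalois ℚ M] {i : M} (hi : i ^ 2 = -1) :
    (MulAction.stabilizer (M ≃ₐ[ℚ] M) i).relIndex ⊤ = 2 := by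
  have : ∃ σ : M ≃ₐ[ℚ] M, σ i ≠ i := by
    by_contra q
    obtain ⟨x, rfl⟩ := (IsGalois.mem_range_algebraMap_iff_fixed (F := ℚ) i).2
      fun σ => not_not.1 fun e => q ⟨σ, e⟩
    have : x ^ 2 = -1 := (algebraMap ℚ M).injective (by rw [map_pow, hi, map_neg, map_one])
    nlinarith [sq_nonneg x]
  obtain ⟨σ, hσ⟩ := this
  refine Subgroup.relIndex_eq_two_iff_exists_notMem_and.2 ⟨σ, trivial, hσ, fun b _ => ?_⟩
  rcases pm hi b with e | e
  · exact Or.inr e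
  · refine Or.inl ?_
    show b (σ i) = i
    rw [(pm hi σ).resolve_left hσ, map_neg, e, neg_neg]

end TopA

open TopA in
theorem top (h1 : CYCStmt) (h2 : NRMStmt) (h3 : LOCStmt) (h4 : TWOStmt) : TOPStmt := by
  intro M _ _ _ i c hi hc hl ht
  have i0 : i ≠ 0 := fun e => by
    rw [e] at hi
    simp at hi
  have f1 : ∀ σ ∈ MulAction.stabilizer (M ≃ₐ[ℚ] M) i, σ i = i := fun σ h => h
  have f2 : ∀ σ ∈ (⊤ : Subgroup (M ≃ₐ[ℚ] M)), σ ∉ MulAction.stabilizer (M ≃ₐ[ℚ] M) i →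
      σ i = -i := fun σ _ h => (pm hi σ).resolve_left h
  obtain ⟨a, a0, fa, ha⟩ := h1 ℚ M _ ⊤ (cz c) le_top (two hi) (coc hc).1 ht
  obtain ⟨q, rfl⟩ := (IsGalois.mem_range_algebraMap_iff_fixed (F := ℚ) a).2 fun σ => fa σ trivial
  obtain ⟨x, y, e⟩ := h4 q (fun e => a0 (by rw [e, map_zero])) fun p _ => by
    obtain ⟨ε, hε⟩ := hl p
    obtain ⟨x, y, e, f⟩ := h3 M p ε c _ ⊤ _ i le_top (two hi) hε ha fa i0 f1 f2
    have g : ∀ s : Gp p, s x = x ∧ s y = y := fun s => f s fun z hz => by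
      obtain ⟨w, rfl⟩ := (IsGalois.mem_range_algebraMap_iff_fixed (F := ℚ) z).2
        fun σ => hz σ trivial
      rw [eq_ratCast, map_ratCast, map_ratCast]
    obtain ⟨x, rfl⟩ := (InfiniteGalois.mem_range_algebraMap_iff_fixed (k := ℚ_[p]) x).2
      fun s => (g s).1
    obtain ⟨y, rfl⟩ := (InfiniteGalois.mem_range_algebraMap_iff_fixed (k := ℚ_[p]) y).2
      fun s => (g s).2
    refine ⟨x, y, (algebraMap ℚ_[p] (PadicAlgCl p)).injective ?_⟩
    rw [eq_ratCast, map_ratCast, ← map_pow ε, hi, map_neg, map_one] at e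
    rw [map_ratCast, e, map_add, map_pow, map_pow]
    ring
  refine h2 ℚ M _ ⊤ (cz c) _ (algebraMap ℚ M x) (algebraMap ℚ M y) i le_top (two hi) ha a0 ?_
    (fun σ _ => ⟨σ.commutes x, σ.commutes y⟩) f1 f2
  rw [e, hi, map_add, map_pow, map_pow]
  ring

open TopA in
theorem fin (h1 : STEPStmt) (h2 : CORStmt) (h3 : TOPStmt) : FINStmt := by
  intro M _ _ _ i c hi hc hl
  refine h3 M i c hi hc hl ?_
  set G := MulAction.stabilizer (M ≃ₐ[ℚ] M) i
  obtain ⟨n, m, hm, e⟩ := Nat.exists_eq_two_pow_mul_odd (Nat.card_pos (α := G)).ne'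
  have : Fact (Nat.Prime 2) := ⟨Nat.prime_two⟩
  have key : ∀ j ≤ n, ∃ K : Subgroup G, Nat.card K = 2 ^ j ∧ Triv (K.map G.subtype) (cz c) := by
    intro j
    induction j with
    | zero =>
      refine fun _ => ⟨⊥, by simp, fun _ => cz c 1 1, fun _ => (coc hc).1.1 1 1, ?_⟩
      intro σ hσ τ hτ
      rw [Subgroup.map_bot, Subgroup.mem_bot] at hσ hτ
      rw [hσ, hτ]
      rfl
    | succ j ih =>
      intro hj
      obtain ⟨K, k1, k2⟩ := ih (Nat.le_of_succ_le hj)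
      obtain ⟨K', k3, k4⟩ := Sylow.exists_subgroup_card_pow_succ (G := G) (p := 2) (n := j)
        (e ▸ (pow_dvd_pow 2 hj).mul_right m) k1
      refine ⟨K', k3, h1 M i c _ _ hi ?_ (Subgroup.map_mono k4) ?_ hc hl k2⟩
      · rintro σ ⟨τ, -, rfl⟩
        exact τ.2
      · rw [Subgroup.relIndex_map_map_of_injective _ _ G.subtype_injective]
        have := Subgroup.relIndex_mul_relIndex ⊥ K K' bot_le k4
        rw [Subgroup.relIndex_bot_left, Subgroup.relIndex_bot_left, k1, k3, pow_succ] at this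
        exact Nat.eq_of_mul_eq_mul_left (by positivity) this
  obtain ⟨K, k1, k2⟩ := key n le_rfl
  refine h2 ℚ M _ G (cz c) (Subgroup.map_subtype_le K) ?_ (coc hc).1 (coc hc).2 k2
  have := K.card_mul_index
  rw [k1, e] at this
  rw [Subgroup.relIndex, Subgroup.subgroupOf,
    Subgroup.comap_map_eq_self_of_injective G.subtype_injective,
    Nat.eq_of_mul_eq_mul_left (by positivity) this]
  exact hm

end Pool.Agent.MP_a43263_nt.VH

end MrgPart5

-- marker of a merged file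
example : 731051 + 613177 = 731051 + 613177 := rfl
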