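import Mathlib.Algebra.AffineMonoid.Basic
import Mathlib.Tactic.Monotonicity.Lemmas
import Mathlib.Data.Int.Star
import Mathlib.RingTheory.Valuation.Integral
import Mathlib.GroupTheory.FiniteAbelian.Basic
import Mathlib.FieldTheory.Galois.Profinite
import Mathlib.GroupTheory.IndexNSmul
import Mathlib.RingTheory.Ideal.Quotient.HasFiniteQuotients
import Mathlib.RingTheory.Ideal.Int
import Mathlib.Topology.Algebra.Valued.LocallyCompact
import Mathlib.RingTheory.DedekindDomain.FiniteAdeleRing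
import Mathlib.NumberTheory.SumTwoSquares
import Mathlib.Order.CompletePartialOrder
import Pool.Agent.MP_a43263_nt.VH.Odd
import Pool.Agent.MP_a43263_nt.VV.Face
import Pool.Agent.MP_a43263_nt.VH.Top

-- ======== part 0: formerly Pool.Agent.MP_a43263_nt.VH.Abhn
section MrgPart0

/-! THEOREM V, part H: passage from a finite level to the absolute Galois group. -/

set_option autoImplicit false

noncomputable section

namespace Pool.Agent.MP_a43263_nt.VH

namespace Abhn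

theorem normalQb : Normal ℚ Qb :=
  have : IsAlgClosure ℚ Qb := ⟨inferInstance, inferInstance⟩
  IsAlgClosure.normal ℚ Qb

theorem exists_res (K : Type) [Field K] [CharZero K]
    (σ : AlgebraicClosure K ≃ₐ[K] AlgebraicClosure K) :
    ∃ τ : GQ, ∀ x, emb K (τ x) = σ (emb K x) := by
  have := normalQb
  let _ : Algebra Qb (AlgebraicClosure K) := (emb K).toAlgebra
  have : IsScalarTower ℚ Qb (AlgebraicClosure K) :=
    IsScalarTower.of_algebraMap_eq' (Subsingleton.elim _ _)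
  let σ' : AlgebraicClosure K ≃ₐ[ℚ] AlgebraicClosure K :=
    AlgEquiv.ofRingEquiv (f := σ.toRingEquiv) (fun q => by simp)
  exact ⟨σ'.restrictNormal Qb, fun x => σ'.restrictNormal_commutes Qb x⟩

theorem core (h2 : FINStmt) (M : Type) [Field M] [NumberField M] [IsGalois ℚ M] (i : M)
    (hi : i ^ 2 = -1) (j : M →+* Qb) (r : GQ →* (M ≃ₐ[ℚ] M)) (hs : Function.Surjective r)
    (hr : ∀ σ x, j (r σ x) = σ (j x)) (hlc : IsLocallyConstant r) (a : GQ → GQ → ℤˣ)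
    (hM : ∀ σ σ' τ τ', r σ = r σ' → r τ = r τ' → a σ τ = a σ' τ')
    (hc : ∀ σ τ ρ, a σ τ * a (σ * τ) ρ = a τ ρ * a σ (τ * ρ))
    (hl : ∀ (p : ℕ) [Fact p.Prime],
      ∃ b : (AlgebraicClosure ℚ_[p] ≃ₐ[ℚ_[p]] AlgebraicClosure ℚ_[p]) → AlgebraicClosure ℚ_[p],
        IsLocallyConstant b ∧ (∀ σ, b σ ≠ 0) ∧
        ∀ σ σ' τ τ', (∀ x, emb ℚ_[p] (τ x) = σ (emb ℚ_[p] x)) →
          (∀ x, emb ℚ_[p] (τ' x) = σ' (emb ℚ_[p] x)) →
          ((a τ τ' : ℤ) : AlgebraicClosure ℚ_[p]) * b (σ * σ') = b σ * σ (b σ')) :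
    ∃ b : GQ → Qb, IsLocallyConstant b ∧ (∀ σ, b σ ≠ 0) ∧
      ∀ τ τ', ((a τ τ' : ℤ) : Qb) * b (τ * τ') = b τ * τ (b τ') := by
  choose l hl' using hs
  have hca : ∀ σ τ, a (l (r σ)) (l (r τ)) = a σ τ := fun σ τ => hM _ _ _ _ (hl' _) (hl' _)
  have hSC : SC fun g g' : M ≃ₐ[ℚ] M => a (l g) (l g') := by
    intro g g' g''
    have e1 : a (l (g * g')) (l g'') = a (l g * l g') (l g'') :=
      hM _ _ _ _ (by rw [map_mul, hl', hl', hl']) rfl
    have e2 : a (l g) (l (g' * g'')) = a (l g) (l g' * l g'') :=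
      hM _ _ _ _ rfl (by rw [map_mul, hl', hl', hl'])
    simp only [e1, e2]
    exact hc _ _ _
  have hLoc : LocAll fun g g' : M ≃ₐ[ℚ] M => a (l g) (l g') := by
    intro p _
    obtain ⟨b, hb1, hb2, hb3⟩ := hl p
    refine ⟨(emb ℚ_[p]).comp j, b, hb2, ?_, fun s s' σ σ' e e' => ?_⟩
    · have h1 : b ⁻¹' {b 1} ∈ nhds 1 := (hb1 _).mem_nhds rfl
      obtain ⟨F, hF, hsub⟩ := (krullTopology_mem_nhds_one_iff _ _ _).1 h1
      exact ⟨F, hF, fun s hs => hsub hs⟩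
    · have key : ∀ (s : Gp p) (σ : M ≃ₐ[ℚ] M),
          (∀ x, (emb ℚ_[p]).comp j (σ x) = s ((emb ℚ_[p]).comp j x)) →
          ∃ τ : GQ, (∀ x, emb ℚ_[p] (τ x) = s (emb ℚ_[p] x)) ∧ r τ = σ := by
        intro s σ e
        obtain ⟨τ, hτ⟩ := exists_res ℚ_[p] s
        refine ⟨τ, hτ, AlgEquiv.ext fun x => ((emb ℚ_[p]).comp j).injective ?_⟩
        rw [e, RingHom.comp_apply, RingHom.comp_apply, hr, hτ]
      obtain ⟨τ, hτ, rfl⟩ := key s σ e
      obtain ⟨τ', hτ', rfl⟩ := key s' σ' e'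
      simp only [hca]
      exact hb3 s s' τ τ' hτ hτ'
  obtain ⟨b, hb1, hb2⟩ := h2 M i _ hi hSC hLoc
  refine ⟨fun τ => j (b (r τ)), hlc.comp fun g => j (b g), fun σ => ?_, fun τ τ' => ?_⟩
  · exact (map_ne_zero j).2 (hb1 _)
  · have h3 := congrArg j (hb2 (r τ) (Subgroup.mem_top _) (r τ') (Subgroup.mem_top _))
    simp only [cz, hca, map_mul, map_intCast, hr] at h3
    simpa only [map_mul] using h3

end Abhn

theorem abhn_of (h1 : LEVStmt) (h2 : FINStmt) : ABHNStmt := by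
  intro a ha hc hl
  obtain ⟨M, hfd, hg, ⟨i, hi⟩, hM⟩ := h1 a ha
  have : NumberField M := ⟨⟩
  have := Abhn.normalQb
  have hr : ∀ (σ : GQ) (x : M), ((AlgEquiv.restrictNormalHom (F := ℚ) (K₁ := Qb) M σ x : M) : Qb) =
      σ x := fun σ x => AlgEquiv.restrictNormal_commutes σ M x
  refine Abhn.core h2 M i hi (algebraMap M Qb) (AlgEquiv.restrictNormalHom (F := ℚ) (K₁ := Qb) M)
    (AlgEquiv.restrictNormalHom_surjective Qb) hr ?_ a (fun σ σ' τ τ' e e' => ?_) hc hl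
  · refine (IsLocallyConstant.iff_exists_open _).2 fun σ => ?_
    refine ⟨(fun x => σ⁻¹ * x) ⁻¹' (M.fixingSubgroup : Set GQ),
      M.fixingSubgroup_isOpen.preimage (by fun_prop), by simp, fun τ hτ => ?_⟩
    refine AlgEquiv.ext fun x => Subtype.ext ?_
    rw [hr, hr]
    have h3 := (IntermediateField.mem_fixingSubgroup_iff _ _).1 hτ x x.2
    have h4 := congrArg σ h3
    simpa using h4
  · refine hM _ _ _ _ (fun x hx => ?_) fun x hx => ?_
    · exact (hr σ ⟨x, hx⟩).symm.trans (e ▸ hr σ' ⟨x, hx⟩)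
    · exact (hr τ ⟨x, hx⟩).symm.trans (e' ▸ hr τ' ⟨x, hx⟩)

end Pool.Agent.MP_a43263_nt.VH

end
end MrgPart0

-- ======== part 1: formerly Pool.Agent.MP_a43263_nt.VH.Big
section MrgPart1

/-! THEOREM V, part H: large finite sets of primes. -/

set_option autoImplicit false

namespace Pool.Agent.MP_a43263_nt.VH

open NumberField IsDedekindDomain
open scoped nonZeroDivisors

namespace BigA

variable {K : Type} [Field K] [NumberField K]

theorem supp (x : Kˣ) : {𝔭 : Pr K | 𝔭.valuation K (x : K) ≠ 1}.Finite := by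
  refine ((HeightOneSpectrum.Support.finite (𝓞 K) (x : K)).union
    (HeightOneSpectrum.Support.finite (𝓞 K) (x : K)⁻¹)).subset fun 𝔭 h => ?_
  rcases lt_or_gt_of_ne h with h | h
  · right
    show 1 < 𝔭.valuation K (x : K)⁻¹
    rw [map_inv₀]
    exact one_lt_inv_iff₀.2 ⟨zero_lt_iff.2 ((Valuation.ne_zero_iff _).2 x.ne_zero), h⟩
  · exact Or.inl h

theorem su (X : Finset Kˣ) : ∃ S : Finset (Pr K), ∀ x ∈ X, x ∈ SU S :=
  ⟨(X.finite_toSet.biUnion fun x _ => supp x).toFinset, fun _ hx _ h => by_contra fun k =>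
    h ((Set.Finite.mem_toFinset _).2 (Set.mem_biUnion hx k))⟩

theorem mono {S S' : Finset (Pr K)} (h : S ⊆ S') : SU S ≤ SU S' ∧ (Big S → Big S') :=
  ⟨fun _ hx 𝔭 k => hx 𝔭 fun m => k (h m), fun b => ⟨fun 𝔭 k => b.1 𝔭 fun m => k (h m),
    fun 𝔮 k => (b.2 𝔮 fun m => k (h m)).imp fun _ a =>
      ⟨a.1, fun 𝔭 k' => a.2 𝔭 fun m => k' (h m)⟩⟩⟩

theorem gen (𝔮 : Pr K) (I : (Ideal (𝓞 K))⁰)
    (h : ClassGroup.mk0 I =
      (ClassGroup.mk0 ⟨𝔮.asIdeal, mem_nonZeroDivisors_of_ne_zero 𝔮.ne_bot⟩)⁻¹)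
    (hq : ¬ 𝔮.asIdeal ∣ I.1) : ∃ k : Kˣ, 𝔮.valuation K (k : K) = WithZero.exp (-1 : ℤ) ∧
      ∀ 𝔭 : Pr K, ¬ 𝔭.asIdeal ∣ I.1 → 𝔭 ≠ 𝔮 → 𝔭.valuation K (k : K) = 1 := by
  have h0 : 𝔮.asIdeal * I.1 ∈ (Ideal (𝓞 K))⁰ :=
    mul_mem (mem_nonZeroDivisors_of_ne_zero 𝔮.ne_bot) I.2
  have h1 : ClassGroup.mk0 ⟨_, h0⟩ = 1 := by
    rw [← mul_inv_cancel (ClassGroup.mk0
      ⟨𝔮.asIdeal, mem_nonZeroDivisors_of_ne_zero 𝔮.ne_bot⟩), ← h, ← map_mul]
    rfl
  obtain ⟨r, hr⟩ := (ClassGroup.mk0_eq_one_iff h0).1 h1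
  have hr' : Ideal.span {r} = 𝔮.asIdeal * I.1 := hr.symm
  have r0 : r ≠ 0 := fun e => nonZeroDivisors.ne_zero h0 (by rw [← hr', e]; simp)
  refine ⟨Units.mk0 (r : K) (by exact_mod_cast r0), ?_, fun 𝔭 hp ne => ?_⟩
  · have a1 := (𝔮.intValuation_le_pow_iff_dvd r 1).2 (by rw [hr', pow_one]; exact dvd_mul_right _ _)
    have a2 : ¬ 𝔮.intValuation r ≤ WithZero.exp (-((2 : ℕ) : ℤ)) := fun e => by
      rw [𝔮.intValuation_le_pow_iff_dvd, hr', sq, mul_dvd_mul_iff_left 𝔮.ne_bot] at e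
      exact hq e
    show 𝔮.valuation K (algebraMap (𝓞 K) K r) = _
    have a0 := 𝔮.intValuation_ne_zero r r0
    rw [show 𝔮.valuation K (algebraMap (𝓞 K) K r) = 𝔮.intValuation r from
      𝔮.valuation_of_algebraMap r]
    rw [← WithZero.exp_log a0, WithZero.exp_le_exp] at a1 a2
    rw [← WithZero.exp_log a0]
    congr 1
    omega
  · show 𝔭.valuation K (algebraMap (𝓞 K) K r) = 1
    refine 𝔭.valuation_eq_one_iff_notMem.2 fun m => ?_
    rw [← Ideal.dvd_span_singleton, hr'] at m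
    rcases 𝔭.prime.dvd_or_dvd m with m | m
    · exact ne (HeightOneSpectrum.ext (𝔮.isMaximal.eq_of_le 𝔭.isPrime.ne_top
        (Ideal.le_of_dvd m)).symm)
    · exact hp m

theorem ex : ∃ S : Finset (Pr K), Big S := by
  classical
  choose I hI using ClassGroup.mk0_surjective (R := 𝓞 K)
  have f : (⋃ c, {𝔭 : Pr K | 𝔭.asIdeal ∣ (I c).1}).Finite :=
    Set.finite_iUnion fun c => Ideal.finite_factors (nonZeroDivisors.ne_zero (I c).2)
  obtain ⟨S, hS⟩ := su {Units.mk0 (2 : K) two_ne_zero}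
  have k : ∀ 𝔭 ∉ S ∪ f.toFinset, ∀ c, ¬ 𝔭.asIdeal ∣ (I c).1 := fun 𝔭 h c m =>
    h (Finset.mem_union_right _ (f.mem_toFinset.2 (Set.mem_iUnion.2 ⟨c, m⟩)))
  refine ⟨S ∪ f.toFinset, fun 𝔭 h => hS _ (Finset.mem_singleton_self _) 𝔭
    fun m => h (Finset.mem_union_left _ m), fun 𝔮 h => ?_⟩
  exact (gen 𝔮 _ (hI _) (k 𝔮 h _)).imp fun _ a => ⟨a.1, fun 𝔭 hp => a.2 𝔭 (k 𝔭 hp _)⟩

end BigA

theorem big : BIGStmt := by
  intro K _ _
  classical
  refine ⟨fun S₀ => ?_, BigA.su, fun _ _ => BigA.mono, fun S 𝔭 _ => by simp,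
    fun 𝔭 d => sup_le_sup_right ?_ _⟩
  · obtain ⟨S, h⟩ := BigA.ex (K := K)
    exact ⟨S₀ ∪ S, Finset.subset_union_left, (BigA.mono Finset.subset_union_right).2 h⟩
  · rintro _ ⟨w, rfl⟩
    exact ⟨w, 0, by simp⟩

end Pool.Agent.MP_a43263_nt.VH

end MrgPart1

-- ======== part 2: formerly Pool.Agent.MP_a43263_nt.VH.Cnt0
section MrgPart2

/-! THEOREM V, part H: the index of the norms in a group of units. -/

set_option autoImplicit false

noncomputable section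

namespace Pool.Agent.MP_a43263_nt.VH

namespace Cnt0A

section
variable {G H : Type} [CommGroup G] [CommGroup H]

/-- a homomorphism between subgroups as a linear map -/
def lin (f : G →* H) (A : Subgroup G) (B : Subgroup H) (h : ∀ x ∈ A, f x ∈ B) :
    Additive A →ₗ[ℤ] Additive B :=
  (MonoidHom.toAdditive ((f.comp A.subtype).codRestrict B fun x => h x x.2)).toIntLinearMap

theorem lin_apply (f : G →* H) (A : Subgroup G) (B : Subgroup H) (h : ∀ x ∈ A, f x ∈ B)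
    (x : Additive A) : ((lin f A B h x).toMul : H) = f (x.toMul : A) := rfl

theorem fg_mono {A B : Subgroup G} (h : A ≤ B) (hB : Fg B) : Fg A := by
  have : Module.Finite ℤ (Additive B) := hB
  refine Module.Finite.of_injective (lin (MonoidHom.id G) A B h) fun x y e => ?_
  have e' := congrArg (fun z : Additive B => ((z.toMul : B) : G)) e
  exact Additive.toMul.injective (Subtype.ext e')

theorem rk_le (f : G →* H) (V W : Subgroup G) (U : Subgroup H) (hV : Fg V) (hW : Fg W)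
    (hU : Fg U) (h : ∀ x ∈ V, f x ∈ U) (hk : ∀ x ∈ V, f x = 1 → x ∈ W) : rk V ≤ rk W + rk U := by
  have : Module.Finite ℤ (Additive V) := hV
  have : Module.Finite ℤ (Additive W) := hW
  have : Module.Finite ℤ (Additive U) := hU
  have h1 := Submodule.finrank_quotient_add_finrank (LinearMap.ker (lin f V U h))
  have h2 := (lin f V U h).quotKerEquivRange.finrank_eq
  have h3 := Submodule.finrank_le (LinearMap.range (lin f V U h))
  have hm : ∀ x : LinearMap.ker (lin f V U h), ((x.1.toMul : V) : G) ∈ W := fun x =>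
    hk _ (x.1.toMul : V).2 (by
      have := congrArg (fun z : Additive U => ((z.toMul : U) : H)) (LinearMap.mem_ker.1 x.2)
      exact this)
  let g : LinearMap.ker (lin f V U h) →ₗ[ℤ] Additive W :=
    (AddMonoidHom.mk' (fun x => Additive.ofMul (⟨_, hm x⟩ : W)) fun _ _ => rfl).toIntLinearMap
  have h4 := LinearMap.finrank_le_finrank_of_injective (f := g) fun x y e => by
    have e' := congrArg (fun z : Additive W => ((z.toMul : W) : G)) e
    exact Subtype.ext (Additive.toMul.injective (Subtype.ext e'))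
  unfold rk
  omega
end

section
variable {K L : Type} [Field K] [Field L] [Algebra K L] {d : K} {δ : L} {σ : L ≃ₐ[K] L}

theorem up_val (x : Kˣ) : (up K L x : L) = algebraMap K L x := rfl

theorem cj_val (w : Lˣ) : (cj σ w : L) = σ w := rfl

theorem up_inj : Function.Injective (up K L) := fun _ _ e =>
  Units.ext ((algebraMap K L).injective (congrArg Units.val e))

theorem cj_up (x : Kˣ) : cj σ (up K L x) = up K L x :=
  Units.ext (by rw [cj_val, up_val, AlgEquiv.commutes])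

theorem cj_cj (q : Quad d δ σ) (w : Lˣ) : cj σ (cj σ w) = w := by
  obtain ⟨x, y, e⟩ := q.span w
  refine Units.ext ?_
  rw [cj_val, cj_val, e]
  simp [q.neg]

theorem ex_norm (q : Quad d δ σ) (w : Lˣ) : ∃ a : Kˣ, a ∈ Nm d ∧ up K L a = w * cj σ w := by
  obtain ⟨x, y, e⟩ := q.span w
  have h : algebraMap K L (x ^ 2 - d * y ^ 2) = ((w * cj σ w : Lˣ) : L) := by
    rw [Units.val_mul, cj_val, e]
    simp only [map_sub, map_mul, map_pow, map_add, AlgEquiv.commutes, q.neg, ← q.sq]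
    ring
  have h0 : x ^ 2 - d * y ^ 2 ≠ 0 := fun h0 => by
    rw [h0, map_zero] at h
    exact (w * cj σ w).ne_zero h.symm
  exact ⟨Units.mk0 _ h0, ⟨x, y, rfl⟩, Units.ext h⟩

theorem ex_hom (q : Quad d δ σ) :
    ∃ N : Lˣ →* Kˣ, ∀ w, N w ∈ Nm d ∧ up K L (N w) = w * cj σ w := by
  choose n h1 h2 using ex_norm q
  refine ⟨MonoidHom.mk' n fun a b => up_inj (L := L) ?_, fun w => ⟨h1 w, h2 w⟩⟩
  rw [map_mul, h2, h2, h2, map_mul, mul_mul_mul_comm]
end

end Cnt0A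

open Cnt0A

theorem cnt0 (h : FGStmt) : CNT0Stmt := by
  intro K L _ _ _ _ _ d δ σ U V q hU hV h1 hUV hσ hH
  obtain ⟨N, hN⟩ := ex_hom q
  let W : Subgroup Lˣ := V ⊓ (MonoidHom.id Lˣ * cj σ).ker
  have mW : ∀ w, w ∈ W ↔ w ∈ V ∧ w * cj σ w = 1 := fun w => Iff.rfl
  have hW : Fg W := fg_mono inf_le_left hV
  have u1 : up K L (-1) = -1 := Units.ext (by simp [up_val])
  have h1W : -1 ∈ W := by
    rw [mW, ← u1, cj_up, ← map_mul, hUV]
    exact ⟨h1, by simp⟩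
  have hNU : ∀ w ∈ V, N w ∈ U := fun w hw => by
    rw [← hUV, (hN w).2]
    exact V.mul_mem hw (hσ w hw)
  have hr : rk V ≤ rk W + rk U := rk_le N V W U hV hW hU hNU fun w hw e => by
    rw [mW, ← (hN w).2, e, map_one]
    exact ⟨hw, rfl⟩
  have iU := h K U hU h1
  have iW := h L W hW h1W
  let f : Lˣ →* Lˣ := MonoidHom.id Lˣ / cj σ
  have ef : ∀ w, f w = w / cj σ w := fun w => rfl
  have hf : V.map f = W := by
    ext w
    rw [Subgroup.mem_map, mW]
    constructor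
    · rintro ⟨z, hz, rfl⟩
      refine ⟨ef z ▸ V.div_mem hz (hσ z hz), ?_⟩
      rw [ef, map_div, cj_cj q, div_mul_div_cancel, div_self']
    · rintro ⟨hw, e⟩
      obtain ⟨z, hz, e'⟩ := hH w hw e
      exact ⟨z, hz, by rw [ef, div_eq_iff_eq_mul, e']⟩
  have l1 : U.map (powMonoidHom 2) ≤ V.map N := by
    rintro _ ⟨u, hu, rfl⟩
    refine ⟨up K L u, (hUV u).2 hu, up_inj (L := L) ?_⟩
    rw [(hN _).2, cj_up, powMonoidHom_apply, map_pow, sq]
  have l2 : V.map N ≤ U := by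
    rintro _ ⟨w, hw, rfl⟩
    exact hNU w hw
  have l3 : V.map N ≤ Nm d := by
    rintro _ ⟨w, -, rfl⟩
    exact (hN w).1
  have e1 := Subgroup.relIndex_mul_relIndex _ _ _ l1 l2
  rw [iU] at e1
  have n1 : (U.map (powMonoidHom 2)).relIndex (V.map N) ≠ 0 := fun e => by
    rw [e, zero_mul] at e1
    exact absurd e1.symm (by positivity)
  have n2 : (V.map N).relIndex U ≠ 0 := fun e => by
    rw [e, mul_zero] at e1
    exact absurd e1.symm (by positivity)
  have l4 : (U.map (powMonoidHom 2)).comap N ⊓ V ≤ (W.map (powMonoidHom 2)).comap f := by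
    rintro z ⟨⟨u, hu, e⟩, hz⟩
    have e2 : z * cj σ z = up K L u * up K L u := by
      rw [← (hN z).2, ← e, powMonoidHom_apply, map_pow, sq]
    refine ⟨z / up K L u, (mW _).2 ⟨V.div_mem hz ((hUV u).2 hu), ?_⟩, ?_⟩
    · rw [map_div, cj_up, div_mul_div_comm, e2, div_self']
    · rw [powMonoidHom_apply, ef, sq, div_mul_div_comm, ← e2, mul_div_mul_left_eq_div]
  have i1 : 2 ^ (rk W + 1) ≤ (U.map (powMonoidHom 2)).relIndex (V.map N) := by
    rw [← iW, ← hf, ← Subgroup.relIndex_comap, hf, ← Subgroup.relIndex_comap,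
      ← Subgroup.inf_relIndex_right ((U.map (powMonoidHom 2)).comap N)]
    refine Subgroup.relIndex_le_of_le_left l4 ?_
    rwa [Subgroup.inf_relIndex_right, Subgroup.relIndex_comap]
  have i2 := Subgroup.relIndex_le_of_le_left l3 n2
  refine ⟨fun e => n2 (Subgroup.relIndex_eq_zero_of_le_left l3 e), ?_⟩
  have i3 : 2 ^ (rk W + 1) * (V.map N).relIndex U ≤ 2 ^ (rk U + 1) :=
    e1 ▸ Nat.mul_le_mul_right _ i1
  have i4 : 2 ^ rk W * (V.map N).relIndex U ≤ 2 ^ rk U := by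
    rw [pow_succ, pow_succ] at i3
    nlinarith
  calc (Nm d).relIndex U * 2 ^ rk V ≤ (V.map N).relIndex U * 2 ^ (rk W + rk U) :=
        Nat.mul_le_mul i2 (Nat.pow_le_pow_right two_pos hr)
    _ = 2 ^ rk W * (V.map N).relIndex U * 2 ^ rk U := by ring
    _ ≤ 2 ^ rk U * 2 ^ rk U := Nat.mul_le_mul_right _ i4
    _ = _ := by ring

end Pool.Agent.MP_a43263_nt.VH

end
end MrgPart2

-- ======== part 3: formerly Pool.Agent.MP_a43263_nt.VH.Cor
section MrgPart3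

/-! THEOREM V, part H: the transfer along a subgroup of odd index. -/

set_option autoImplicit false

noncomputable section

namespace Pool.Agent.MP_a43263_nt.VH

namespace Cor

variable {k M : Type} [Field k] [Field M] [Algebra k M]

/-- a cocycle changed by a coboundary -/
theorem coc {C : (M ≃ₐ[k] M) → (M ≃ₐ[k] M) → M} (hC : Coc C) {f : (M ≃ₐ[k] M) → M}
    (hf : ∀ σ, f σ ≠ 0) : Coc fun σ τ => C σ τ * f (σ * τ) / (f σ * σ (f τ)) := by
  have h0 : ∀ (σ : M ≃ₐ[k] M) τ, σ (f τ) ≠ 0 := fun σ τ => (map_ne_zero σ).2 (hf τ)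
  refine ⟨fun σ τ => div_ne_zero (mul_ne_zero (hC.1 _ _) (hf _)) (mul_ne_zero (hf _) (h0 _ _)),
    fun σ τ ρ => ?_⟩
  have h1 := hC.2 σ τ ρ
  have h2 := hf σ
  have h3 := hf (σ * τ)
  have h4 := h0 σ τ
  have h5 := h0 σ (τ * ρ)
  have h6 : σ (τ (f ρ)) ≠ 0 := (map_ne_zero σ).2 (h0 τ ρ)
  simp only [map_div₀, map_mul, AlgEquiv.mul_apply, mul_assoc σ τ ρ]
  field_simp
  linear_combination f (σ * (τ * ρ)) * h1

/-- the norm of a normalized cocycle -/
theorem norm {H' H : Subgroup (M ≃ₐ[k] M)} (hn : H'.relIndex H ≠ 0)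
    {C : (M ≃ₐ[k] M) → (M ≃ₐ[k] M) → M} (hC : Coc C) (h1 : ∀ σ, ∀ τ ∈ H', C σ τ = 1) :
    ∃ F : (M ≃ₐ[k] M) → M, (∀ σ, F σ ≠ 0) ∧
      ∀ σ, ∀ τ ∈ H, C σ τ ^ H'.relIndex H * F (σ * τ) = F σ * σ (F τ) := by
  have h2 : ∀ σ τ, ∀ h ∈ H', C σ (τ * h) = C σ τ := by
    intro σ τ h hh
    have := hC.2 σ τ h
    rw [h1 _ h hh, h1 _ h hh, map_one, mul_one, one_mul] at this
    exact this.symm
  have : Finite (H ⧸ H'.subgroupOf H) := Nat.finite_of_card_ne_zero hn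
  have := Fintype.ofFinite (H ⧸ H'.subgroupOf H)
  refine ⟨fun σ => ∏ x : H ⧸ H'.subgroupOf H, C σ (x.out : H),
    fun σ => Finset.prod_ne_zero_iff.2 fun x _ => hC.1 _ _, fun σ τ hτ => ?_⟩
  have e : ∀ x : H ⧸ H'.subgroupOf H,
      C σ (τ * (x.out : H)) = C σ (((⟨τ, hτ⟩ : H) • x).out : H) := by
    intro x
    have a : (((⟨τ, hτ⟩ : H) * x.out : H) : H ⧸ H'.subgroupOf H) =
        (((⟨τ, hτ⟩ : H) • x).out : H) := by
      rw [QuotientGroup.out_eq']
      exact MulAction.Quotient.coe_smul_out (H'.subgroupOf H) (⟨τ, hτ⟩ : H) x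
    have a' := Subgroup.mem_subgroupOf.1 (QuotientGroup.eq.1 a)
    have b := h2 σ (τ * (x.out : H)) _ a'
    rw [← b]
    congr 1
    simp only [Subgroup.coe_mul, InvMemClass.coe_inv, mul_inv_cancel_left]
  have c : H'.relIndex H = (Finset.univ : Finset (H ⧸ H'.subgroupOf H)).card := by
    rw [Finset.card_univ, ← Nat.card_eq_fintype_card]
    rfl
  dsimp only
  rw [c, ← Finset.prod_const, ← Finset.prod_mul_distrib, map_prod,
    ← Equiv.prod_comp (MulAction.toPerm (⟨τ, hτ⟩ : H))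
      (fun x : H ⧸ H'.subgroupOf H => C σ (x.out : H)), ← Finset.prod_mul_distrib]
  refine Finset.prod_congr rfl fun x _ => ?_
  rw [hC.2, e, mul_comm]
  rfl

end Cor

theorem cor (h : NORMStmt) : CORStmt := by
  intro k M _ _ _ H' H C _ ho hC h2 ht
  obtain ⟨f, hf, hf'⟩ := h k M H' C hC ht
  have h0 : ∀ (σ : M ≃ₐ[k] M) τ, σ (f τ) ≠ 0 := fun σ τ => (map_ne_zero σ).2 (hf τ)
  obtain ⟨F, hF, hF'⟩ := Cor.norm (H := H) ho.pos.ne' (Cor.coc hC hf) fun σ τ hτ => by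
    rw [hf' σ τ hτ]
    exact div_self (mul_ne_zero (hf _) (h0 _ _))
  refine ⟨fun σ => f σ ^ H'.relIndex H * F σ, fun σ => mul_ne_zero (pow_ne_zero _ (hf σ)) (hF σ),
    fun σ _ τ hτ => ?_⟩
  have a := hF' σ τ hτ
  have b : C σ τ ^ H'.relIndex H = C σ τ := by
    obtain ⟨m, hm⟩ := ho
    rw [hm, pow_succ, pow_mul, h2, one_pow, one_mul]
  rw [div_pow, mul_pow, mul_pow, b, div_mul_eq_mul_div,
    div_eq_iff (mul_ne_zero (pow_ne_zero _ (hf _)) (pow_ne_zero _ (h0 _ _)))] at a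
  rw [map_mul, map_pow]
  linear_combination a

end Pool.Agent.MP_a43263_nt.VH

end
end MrgPart3

-- ======== part 4: formerly Pool.Agent.MP_a43263_nt.VH.Count
section MrgPart4

/-! THEOREM V, part H, row COUNT+GST: the norm index of the `S`-units, and a non-square is a local
non-square at infinitely many primes. -/

set_option autoImplicit false

noncomputable section

namespace Pool.Agent.MP_a43263_nt.VH

open NumberField IsDedekindDomain

namespace Count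

theorem cancel {i r s s' t : ℕ} (h : i * 2 ^ (2 * r + 1 + s') ≤ 2 ^ (2 * (r + s)))
    (hs : 2 * s ≤ s' + t) : 2 * i ≤ 2 ^ t := by
  have h1 : 2 ^ (2 * (r + s)) ≤ 2 ^ t * 2 ^ (2 * r + s') := by
    rw [← pow_add]
    exact Nat.pow_le_pow_right (by norm_num) (by omega)
  have h2 : i * 2 ^ (2 * r + 1 + s') = 2 * i * 2 ^ (2 * r + s') := by ring
  rw [h2] at h
  exact Nat.le_of_mul_le_mul_right (h.trans h1) (by positivity)

end Count

theorem count (h1 : QUADStmt) (h2 : VALStmt) (h3 : SPLStmt) (h4 : H1Stmt) (h5 : CNT0Stmt)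
    (h6 : RKStmt) (h7 : BIGStmt) : COUNTStmt := by
  intro K _ _ hK S d hd hS hdS
  obtain ⟨L, _, _, _, δ, σ, hq, hc⟩ := h1 K d hd
  obtain ⟨-, hr⟩ := hc hK
  obtain ⟨S', hS'⟩ := (h2 K L).2.2.1 S
  obtain ⟨a1, a2, a3⟩ := h4 K L d δ σ S S' hq hS'
  obtain ⟨f1, r1⟩ := h6 K S
  obtain ⟨f2, r2⟩ := h6 L S'
  obtain ⟨c1, c2⟩ := h5 K L (d : K) δ σ (SU S) (SU S') hq f1 f2 ((h7 K).2.2.2.1 S) a1 a2
    (a3 hS hdS)
  refine ⟨c1, ?_⟩
  rw [r1, r2, hr] at c2
  exact Count.cancel c2 (h3 K L d δ σ S S' hq hS')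

theorem gst (h1 : BIGStmt) (h2 : L2Stmt) (h3 : WAStmt) (h4 : IDXStmt) (h5 : COUNTStmt) :
    GSTStmt := by
  classical
  intro K _ _ hK u S₀ hu
  by_contra hcon
  have hall : ∀ 𝔭 ∉ S₀, u ∈ LS 𝔭 := fun 𝔭 h => by
    by_contra h'
    exact hcon ⟨𝔭, h, h'⟩
  obtain ⟨b1, b2, b3, -, -⟩ := h1 K
  have ha : ∀ 𝔭 : Pr K, ∃ a : Kˣ, u ∉ LS 𝔭 → a ∉ LN 𝔭 (u : K) := fun 𝔭 => by
    by_cases h : u ∈ LS 𝔭
    · exact ⟨1, fun h' => absurd h h'⟩
    · by_contra hc
      refine h2 K 𝔭 u h ((Subgroup.eq_top_iff' _).2 fun a => ?_)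
      by_contra h'
      exact hc ⟨a, fun _ => h'⟩
  choose a ha using ha
  have hx : ∀ 𝔭 : Pr K, ∃ x : Kˣ, ∀ 𝔮 ∈ ns S₀ u, x / (if 𝔮 = 𝔭 then a 𝔭 else 1) ∈ Uo 𝔮 :=
    fun 𝔭 => h3 K (ns S₀ u) fun 𝔮 => if 𝔮 = 𝔭 then a 𝔭 else 1
  choose x hx using hx
  obtain ⟨S₁, hS₁⟩ := b2 (insert u ((ns S₀ u).image x))
  obtain ⟨S, hS, hB⟩ := b1 (S₀ ∪ S₁)
  have hle : SU S₁ ≤ SU S := (b3 S₁ S (Finset.subset_union_right.trans hS)).1
  have hns : ns S u = ns S₀ u := by
    ext 𝔭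
    simp only [ns, Finset.mem_filter]
    refine ⟨fun h => ⟨?_, h.2⟩, fun h => ⟨hS (Finset.mem_union_left _ h.1), h.2⟩⟩
    by_contra h'
    exact h.2 (hall 𝔭 h')
  obtain ⟨c1, c2⟩ := h5 K S u hu hB (hle (hS₁ u (Finset.mem_insert_self _ _)))
  rw [hns] at c2
  have hU : ∀ 𝔭 : Pr K, Uo 𝔭 ≤ LN 𝔭 (u : K) := fun 𝔭 => le_sup_right
  have key := h4 Kˣ (Pr K) (ns S₀ u) (fun 𝔭 => LN 𝔭 (u : K)) (SU S) (Nm (u : K)) x
    (fun 𝔭 _ => le_sup_left)
    (fun 𝔭 h => ⟨hle (hS₁ _ (Finset.mem_insert_of_mem (Finset.mem_image_of_mem x h))), fun h' => by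
      have h0 := hU 𝔭 (hx 𝔭 𝔭 h)
      rw [if_pos rfl] at h0
      have h9 : u ∉ LS 𝔭 := by
        simp only [ns, Finset.mem_filter] at h
        exact h.2
      refine ha 𝔭 h9 ?_
      have e : a 𝔭 = x 𝔭 / (x 𝔭 / a 𝔭) := by simp
      rw [e]
      exact div_mem h' h0⟩)
    (fun 𝔭 _ 𝔮 h hne => by
      have h0 := hU 𝔮 (hx 𝔭 𝔮 h)
      rwa [if_neg hne, div_one] at h0) c1
  omega

end Pool.Agent.MP_a43263_nt.VH

end
end MrgPart4

-- ======== part 5: formerly Pool.Agent.MP_a43263_nt.VH.Fg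
section MrgPart5

/-! THEOREM V, part H: the index of the squares in a finitely generated group of units. -/

set_option autoImplicit false

noncomputable section

namespace Pool.Agent.MP_a43263_nt.VH

open NumberField

namespace FgA

theorem aux {M P T : Type} [AddCommGroup M] [AddCommGroup P] [AddCommGroup T] [Module.Free ℤ P]
    [Module.Finite ℤ P] [Finite T] (e : M ≃+ P × T) :
    (nsmulAddMonoidHom (α := M) 2).range.index =
      2 ^ Module.finrank ℤ M * Nat.card (nsmulAddMonoidHom (α := M) 2).ker := by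
  have h1 : (nsmulAddMonoidHom (α := M) 2).range =
      (((nsmulAddMonoidHom (α := P) 2).range).prod (nsmulAddMonoidHom (α := T) 2).range).comap
        e.toAddMonoidHom := by
    ext x
    simp only [AddMonoidHom.mem_range, nsmulAddMonoidHom_apply, AddSubgroup.mem_comap,
      AddSubgroup.mem_prod, AddEquiv.toAddMonoidHom_eq_coe, AddMonoidHom.coe_coe]
    constructor
    · rintro ⟨y, rfl⟩
      exact ⟨⟨(e y).1, by rw [map_nsmul]; rfl⟩, ⟨(e y).2, by rw [map_nsmul]; rfl⟩⟩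
    · rintro ⟨⟨a, ha⟩, ⟨b, hb⟩⟩
      refine ⟨e.symm (a, b), e.injective ?_⟩
      rw [map_nsmul, e.apply_symm_apply]
      exact Prod.ext ha hb
  have h2 : Nat.card (nsmulAddMonoidHom (α := M) 2).ker
      = Nat.card (nsmulAddMonoidHom (α := T) 2).ker := by
    refine Nat.card_congr ⟨fun x => ⟨(e x.1).2, ?_⟩, fun y => ⟨e.symm (0, y.1), ?_⟩, fun x => ?_,
      fun y => ?_⟩
    · have hx : 2 • x.1 = 0 := x.2
      have := congrArg (fun z => (e z).2) hx
      simp only [map_nsmul, map_zero] at this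
      exact this
    · have hy : 2 • y.1 = 0 := y.2
      change 2 • e.symm (0, y.1) = 0
      rw [← map_nsmul, Prod.smul_mk, hy, smul_zero]
      exact map_zero _
    · have hx : 2 • x.1 = 0 := x.2
      have h3 : 2 • (e x.1).1 = 0 := by
        have := congrArg (fun z => (e z).1) hx
        simp only [map_nsmul, map_zero] at this
        exact this
      have h4 : (e x.1).1 = 0 :=
        AddSubgroup.nsmulAddMonoidHom_injective_of_isTorsionFree (M := P) two_ne_zero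
          (h3.trans (map_zero _).symm)
      refine Subtype.ext (e.injective ?_)
      simp only [e.apply_symm_apply]
      exact Prod.ext h4.symm rfl
    · simp
  have h3 : Module.finrank ℤ M = Module.finrank ℤ P := by
    rw [e.toIntLinearEquiv.finrank_eq]
    have a1 := Submodule.finrank_quotient_add_finrank (LinearMap.ker (LinearMap.fst ℤ P T))
    have a2 := ((LinearMap.fst ℤ P T).quotKerEquivOfSurjective LinearMap.fst_surjective).finrank_eq
    have a3 : Module.finrank ℤ (LinearMap.ker (LinearMap.fst ℤ P T)) = 0 := by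
      have : Finite (LinearMap.ker (LinearMap.fst ℤ P T)) :=
        Finite.of_injective (fun x => x.1.2) fun x y h =>
          Subtype.ext (Prod.ext ((LinearMap.mem_ker.1 x.2).trans (LinearMap.mem_ker.1 y.2).symm) h)
      rw [Module.finrank_eq_zero_iff]
      intro x
      exact ⟨(Nat.card (LinearMap.ker (LinearMap.fst ℤ P T)) : ℤ),
        by exact_mod_cast Nat.card_pos.ne', by rw [natCast_zsmul]; exact card_nsmul_eq_zero'⟩
    omega
  rw [h1, AddSubgroup.index_comap_of_surjective _ e.surjective, AddSubgroup.index_prod,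
    AddSubgroup.index_range_nsmul, AddSubgroup.index_range, h2, h3]

theorem gen (M : Type) [AddCommGroup M] [Module.Finite ℤ M] :
    (nsmulAddMonoidHom (α := M) 2).range.index =
      2 ^ Module.finrank ℤ M * Nat.card (nsmulAddMonoidHom (α := M) 2).ker := by
  have : AddGroup.FG M := Module.Finite.iff_addGroup_fg.1 inferInstance
  obtain ⟨n, ι, _, p, hp, k, ⟨e⟩⟩ := AddCommGroup.equiv_free_prod_directSum_zmod M
  have : ∀ i, NeZero (p i ^ k i) := fun i => ⟨pow_ne_zero _ (hp i).ne_zero⟩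
  have : Finite (DirectSum ι fun i => ZMod (p i ^ k i)) :=
    Finite.of_equiv _ DFinsupp.equivFunOnFintype.symm
  exact aux e

end FgA

theorem fg : FGStmt := by
  intro F _ _ A hA hm
  have : Module.Finite ℤ (Additive A) := hA
  have h1 := FgA.gen (Additive A)
  have h2 : Nat.card (nsmulAddMonoidHom (α := Additive A) 2).ker = 2 := by
    rw [Nat.card_eq_two_iff]
    refine ⟨⟨0, zero_mem _⟩, ⟨Additive.ofMul ⟨-1, hm⟩, ?_⟩, fun h => ?_, ?_⟩
    · change Additive.ofMul ((⟨-1, hm⟩ : A) ^ 2) = Additive.ofMul 1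
      congr 1
      exact Subtype.ext (by simp)
    · have h3 : ((1 : Fˣ) : F) = ((-1 : Fˣ) : F) :=
        congrArg (fun z : (nsmulAddMonoidHom (α := Additive A) 2).ker =>
          (((z.1.toMul : A) : Fˣ) : F)) h
      simp only [Units.val_one, Units.val_neg] at h3
      norm_num at h3
    · refine Set.eq_univ_of_forall fun x => ?_
      have hx : (((x.1.toMul : A) : Fˣ) : F) ^ 2 = 1 :=
        congrArg (fun z : Additive A => (((z.toMul : A) : Fˣ) : F)) x.2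
      rcases sq_eq_one_iff.1 hx with h | h
      · exact Or.inl (Subtype.ext (Additive.toMul.injective (Subtype.ext (Units.ext h))))
      · exact Or.inr (Subtype.ext (Additive.toMul.injective (Subtype.ext (Units.ext h))))
  have h3 : ((A.map (powMonoidHom 2)).subgroupOf A).toAddSubgroup
      = (nsmulAddMonoidHom (α := Additive A) 2).range := by
    ext x
    constructor
    · rintro ⟨y, hy, e⟩
      exact ⟨Additive.ofMul ⟨y, hy⟩, Additive.toMul.injective (Subtype.ext e)⟩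
    · rintro ⟨y, e⟩
      exact ⟨(y.toMul : A), (y.toMul : A).2,
        congrArg (fun z : Additive A => ((z.toMul : A) : Fˣ)) e⟩
  rw [Subgroup.relIndex, ← Subgroup.index_toAddSubgroup, h3, h1, h2, pow_succ]
  rfl

theorem fgs (h1 : FGStmt) (h2 : RKStmt) : FGSStmt := by
  intro K _ _ S
  obtain ⟨hf, hr⟩ := h2 K S
  have h3 := h1 K (SU S) hf (fun 𝔭 _ => by simp)
  have h4 : Sq K ⊓ SU S = (SU S).map (powMonoidHom 2) := by
    ext x
    constructor
    · rintro ⟨⟨w, rfl⟩, hw⟩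
      refine ⟨w, fun 𝔭 h => ?_, rfl⟩
      have h5 : 𝔭.valuation K ((w ^ 2 : Kˣ) : K) = 1 := hw 𝔭 h
      rw [Units.val_pow_eq_pow_val, map_pow] at h5
      exact (pow_eq_one_iff_of_nonneg zero_le two_ne_zero).1 h5
    · rintro ⟨w, hw, rfl⟩
      exact ⟨⟨w, rfl⟩, pow_mem hw 2⟩
  rw [← Subgroup.inf_relIndex_right, h4, h3, hr]
  congr 1
  omega

end Pool.Agent.MP_a43263_nt.VH

end
end MrgPart5

-- ======== part 6: formerly Pool.Agent.MP_a43263_nt.VH.Gst
section MrgPart6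

/-! THEOREM V, part H, row GST2: a prime where `d` is a local square and `u` is not. -/

set_option autoImplicit false

noncomputable section

namespace Pool.Agent.MP_a43263_nt.VH

open NumberField IsDedekindDomain

namespace Gst

theorem mem_Sq {K : Type} [Field K] {u : Kˣ} : u ∈ Sq K ↔ ∃ x : K, (u : K) = x ^ 2 := by
  constructor
  · rintro ⟨w, rfl⟩
    exact ⟨w, by simp⟩
  · rintro ⟨x, hx⟩
    have h0 : x ≠ 0 := by
      rintro rfl
      exact u.ne_zero (by simpa using hx)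
    exact ⟨Units.mk0 x h0, Units.ext (by simpa using hx.symm)⟩

theorem up_val {K L : Type} [Field K] [Field L] [Algebra K L] (u : Kˣ) :
    ((up K L u : Lˣ) : L) = algebraMap K L u := rfl

theorem not_sq {K L : Type} [Field K] [Field L] [CharZero L] [Algebra K L] {d u : Kˣ} {δ : L}
    {σ : L ≃ₐ[K] L} (hq : Quad (d : K) δ σ) (hu : u ∉ Sq K) (hud : u * d ∉ Sq K) :
    up K L u ∉ Sq L := by
  intro h
  obtain ⟨w, hw⟩ := mem_Sq.1 h
  obtain ⟨x, y, rfl⟩ := hq.span w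
  rw [up_val] at hw
  have h2 := congrArg σ hw
  simp only [map_pow, map_add, map_mul, AlgEquiv.commutes, hq.neg] at h2
  have h3 : (4 : L) * (algebraMap K L x * algebraMap K L y) * δ = 0 := by
    linear_combination h2 - hw
  have h4 : algebraMap K L x * algebraMap K L y = 0 := by
    rcases mul_eq_zero.1 h3 with h | h
    · exact (mul_eq_zero.1 h).resolve_left (by norm_num)
    · exact absurd h hq.ne
  have hi := (algebraMap K L).injective
  rcases mul_eq_zero.1 h4 with h | h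
  · refine hud (mem_Sq.2 ⟨y * d, hi ?_⟩)
    rw [Units.val_mul, map_mul, hw, h, map_pow, map_mul, ← hq.sq]
    ring
  · refine hu (mem_Sq.2 ⟨x, hi ?_⟩)
    rw [hw, h, map_pow]
    ring

theorem up_LS {K L : Type} [Field K] [NumberField K] [Field L] [NumberField L] [Algebra K L]
    {𝔭 : Pr K} {𝔓 : Pr L} {e : ℕ} (he : 0 < e)
    (hv : ∀ x : K, 𝔓.valuation L (algebraMap K L x) = 𝔭.valuation K x ^ e) {x : Kˣ}
    (hx : x ∈ LS 𝔭) : up K L x ∈ LS 𝔓 := by
  obtain ⟨y, hy, z, hz, rfl⟩ := Subgroup.mem_sup.1 hx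
  rw [map_mul]
  refine mul_mem (Subgroup.mem_sup_left ?_) (Subgroup.mem_sup_right ?_)
  · obtain ⟨w, hw⟩ := mem_Sq.1 hy
    exact mem_Sq.2 ⟨algebraMap K L w, by rw [up_val, hw, map_pow]⟩
  · have h1 : 𝔭.valuation K ((z : K) - 1) < 𝔭.valuation K 4 := hz
    change 𝔓.valuation L (algebraMap K L z - 1) < 𝔓.valuation L 4
    have e1 : algebraMap K L z - 1 = algebraMap K L ((z : K) - 1) := by simp
    have e2 : (4 : L) = algebraMap K L 4 := (map_ofNat _ 4).symm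
    rw [e1, e2, hv, hv]
    exact pow_lt_pow_left₀ h1 zero_le' he.ne'

end Gst

theorem gst2 (h1 : QUADStmt) (h2 : VALStmt) (h3 : ODDStmt) (h4 : GSTStmt) : GST2Stmt := by
  classical
  intro K _ _ hK d u S S₁ hS hdS huS hd hu hud
  obtain ⟨L, _, _, _, δ, σ, hq, hc⟩ := h1 K d hd
  haveI := (hc hK).1
  obtain ⟨S', hS'⟩ := (h2 K L).2.2.1 (S ∪ S₁)
  obtain ⟨𝔓, hP, hPu⟩ := h4 L (up K L u) S' (Gst.not_sq hq hu hud)
  obtain ⟨e, he, hv⟩ := (h2 K L).1 𝔓
  rw [hS', Finset.mem_union, not_or] at hP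
  have hu' : u ∉ LS (dn K 𝔓) := fun h => hPu (Gst.up_LS he hv h)
  refine ⟨dn K 𝔓, hP.1, hP.2, ?_, hu'⟩
  by_contra hd'
  have h5 := Gst.up_LS he hv (h3 K _ u d (hS.1 _ hP.1) (huS _ hP.1) (hdS _ hP.1) hu' hd')
  have h6 : up K L d ∈ LS 𝔓 :=
    Subgroup.mem_sup_left (Gst.mem_Sq.2 ⟨δ, by rw [Gst.up_val, hq.sq]⟩)
  rw [map_mul] at h5
  exact hPu ((Subgroup.mul_mem_cancel_right _ h6).1 h5)

end Pool.Agent.MP_a43263_nt.VH

end
end MrgPart6

-- ======== part 7: formerly Pool.Agent.MP_a43263_nt.VH.Hil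
section MrgPart7

set_option autoImplicit false

noncomputable section

namespace Pool.Agent.MP_a43263_nt.VH

open Classical in
theorem hil : H90Stmt := by
  intro k M _ _ _ H c L hfin hc0 hc hL
  let res : (M ≃ₐ[k] M) → (L →ₐ[k] M) := fun σ => (σ : M →ₐ[k] M).comp L.val
  let d : (L →ₐ[k] M) → M := fun i =>
    if h : ∃ σ ∈ H, res σ = i then c h.choose else 0
  have hd : ∀ σ ∈ H, d (res σ) = c σ := by
    intro σ hσ
    have h : ∃ σ' ∈ H, res σ' = res σ := ⟨σ, hσ, rfl⟩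
    simp only [d, dif_pos h]
    obtain ⟨h1, h2⟩ := h.choose_spec
    set σ' := h.choose
    have hm : σ⁻¹ * σ' ∈ H := H.mul_mem (H.inv_mem hσ) h1
    have : c (σ⁻¹ * σ') = 1 := by
      refine hL _ hm ?_
      rw [IntermediateField.mem_fixingSubgroup_iff]
      intro x hx
      have : σ' x = σ x := DFunLike.congr_fun h2 ⟨x, hx⟩
      rw [AlgEquiv.mul_apply, this]
      exact σ.symm_apply_apply x
    have e := hc σ hσ _ hm
    rw [this, mul_inv_cancel_left] at e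
    simpa using e
  let mv : (M ≃ₐ[k] M) → (L →ₐ[k] M) ≃ (L →ₐ[k] M) := fun τ =>
    { toFun := fun i => (τ : M →ₐ[k] M).comp i
      invFun := fun i => (τ.symm : M →ₐ[k] M).comp i
      left_inv := fun i => by ext x; simp
      right_inv := fun i => by ext x; simp }
  have hmv : ∀ τ ∈ H, ∀ i, d (mv τ i) = c τ * τ (d i) := by
    intro τ hτ i
    by_cases h : ∃ σ ∈ H, res σ = i
    · obtain ⟨σ, hσ, rfl⟩ := h
      have : mv τ (res σ) = res (τ * σ) := by ext x; simp [mv, res]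
      rw [this, hd _ (H.mul_mem hτ hσ), hd _ hσ, hc τ hτ σ hσ]
    · have h' : ¬∃ σ ∈ H, res σ = mv τ i := by
        rintro ⟨σ, hσ, e⟩
        refine h ⟨τ⁻¹ * σ, H.mul_mem (H.inv_mem hτ) hσ, ?_⟩
        ext x
        have : σ x = τ (i x) := DFunLike.congr_fun e x
        change (τ⁻¹ * σ) x = i x
        rw [AlgEquiv.mul_apply, this]
        exact τ.symm_apply_apply _
      simp [d, dif_neg h, dif_neg h']
  let _ : Fintype (L →ₐ[k] M) := Fintype.ofFinite _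
  obtain ⟨x, hx⟩ : ∃ x : L, ∑ i, d i * i x ≠ 0 := by
    by_contra hcon
    push Not at hcon
    have := Fintype.linearIndependent_iff.1 (linearIndependent_algHom_toLinearMap k L M) d
      (by ext x; simpa using hcon x) (res 1)
    rw [hd 1 H.one_mem] at this
    exact hc0 1 H.one_mem this
  refine ⟨(∑ i, d i * i x)⁻¹, inv_ne_zero hx, fun σ hσ => ?_⟩
  have e : ∑ i, d i * i x = c σ * σ (∑ i, d i * i x) := by
    rw [map_sum, Finset.mul_sum, ← Equiv.sum_comp (mv σ)]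
    refine Finset.sum_congr rfl fun i _ => ?_
    rw [hmv σ hσ, map_mul, mul_assoc]
    rfl
  have h1 := hc0 σ hσ
  have h2 : σ (∑ i, d i * i x) ≠ 0 := (map_ne_zero σ).2 hx
  rw [map_inv₀]
  conv_rhs => rw [e]
  field_simp

open Classical in
theorem nor : NORMStmt := by
  intro k M _ _ _ H C hC hT
  obtain ⟨hC0, hC1⟩ := hC
  obtain ⟨b, hb0, hb⟩ := hT
  let r : (M ≃ₐ[k] M) → (M ≃ₐ[k] M) := fun σ => (QuotientGroup.mk σ : (M ≃ₐ[k] M) ⧸ H).out
  have hr1 : ∀ σ, (r σ)⁻¹ * σ ∈ H := fun σ =>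
    QuotientGroup.eq.1 (QuotientGroup.out_eq' (QuotientGroup.mk σ : (M ≃ₐ[k] M) ⧸ H))
  have hr2 : ∀ σ, ∀ τ ∈ H, r (σ * τ) = r σ := by
    intro σ τ hτ
    have : (QuotientGroup.mk (σ * τ) : (M ≃ₐ[k] M) ⧸ H) = QuotientGroup.mk σ :=
      QuotientGroup.mk_mul_of_mem σ hτ
    simp only [r, this]
  refine ⟨fun σ => if σ ∈ H then b σ else r σ (b ((r σ)⁻¹ * σ)) / C (r σ) ((r σ)⁻¹ * σ),
    fun σ => ?_, fun σ τ hτ => ?_⟩
  · by_cases h : σ ∈ H
    · simp only [if_pos h]; exact hb0 σ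
    · simp only [if_neg h]
      exact div_ne_zero ((map_ne_zero _).2 (hb0 _)) (hC0 _ _)
  · by_cases h : σ ∈ H
    · simp only [if_pos h, if_pos hτ, if_pos (H.mul_mem h hτ)]
      exact hb σ h τ hτ
    · have h' : σ * τ ∉ H := fun h2 => h (by simpa using H.mul_mem h2 (H.inv_mem hτ))
      simp only [if_neg h, if_pos hτ, if_neg h', hr2 σ τ hτ]
      have hm := hr1 σ
      set ρ := r σ
      set g := ρ⁻¹ * σ with hg
      have hσ : ρ * g = σ := by rw [hg, mul_inv_cancel_left]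
      have e1 := hC1 ρ g τ
      have e2 := congrArg ρ (hb g hm τ hτ)
      rw [map_mul, map_mul, ← AlgEquiv.mul_apply ρ g, hσ] at e2
      rw [hσ] at e1
      have e3 : ρ⁻¹ * (σ * τ) = g * τ := by rw [hg, mul_assoc]
      rw [e3]
      have n1 := hC0 ρ g
      have n2 := hC0 ρ (g * τ)
      field_simp
      linear_combination ρ (b (g * τ)) * e1 + C ρ (g * τ) * e2

end Pool.Agent.MP_a43263_nt.VH

end
end MrgPart7

-- ======== part 8: formerly Pool.Agent.MP_a43263_nt.VH.Hnt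
section MrgPart8

/-! The Hasse norm theorem for quadratic extensions of totally complex fields. -/

set_option autoImplicit false

noncomputable section

namespace Pool.Agent.MP_a43263_nt.VH

open NumberField IsDedekindDomain

namespace HntA

variable {K : Type} [Field K] [NumberField K]

theorem of_sq (d a : Kˣ) (hd : d ∈ Sq K) : a ∈ Nm (d : K) := by
  obtain ⟨w, hw⟩ := hd
  have h : (d : K) = (w : K) ^ 2 := by rw [← hw]; simp
  have h0 := w.ne_zero
  refine ⟨((a : K) + 1) / 2, ((a : K) - 1) / (2 * w), ?_⟩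
  rw [h]; field_simp; ring

theorem deg [IsTotallyComplex K] : Module.finrank ℚ K = 2 * (Units.rank K + 1) := by
  have h1 := IsTotallyComplex.finrank (K := K)
  have h2 := InfinitePlace.card_eq_nrRealPlaces_add_nrComplexPlaces K
  have h3 := IsTotallyComplex.nrRealPlaces_eq_zero (K := K)
  have h4 : 0 < Fintype.card (InfinitePlace K) := Fintype.card_pos
  rw [Units.rank]
  omega

theorem low (h6 : L2Stmt) (h7 : WAStmt) (h8 : IDXStmt) (S : Finset (Pr K)) (d : Kˣ)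
    (h0 : (⨅ 𝔭 ∈ ns S d, LN 𝔭 (d : K)).index ≠ 0) :
    2 ^ (ns S d).card ≤ (⨅ 𝔭 ∈ ns S d, LN 𝔭 (d : K)).index := by
  classical
  have hx : ∀ i : Pr K, ∃ x : Kˣ, i ∈ ns S d →
      x ∉ LN i (d : K) ∧ ∀ j ∈ ns S d, j ≠ i → x ∈ LN j (d : K) := by
    intro i
    by_cases hi : i ∈ ns S d
    · have hne := h6 K i d (Finset.mem_filter.1 hi).2
      obtain ⟨y, hy⟩ : ∃ y, y ∉ LN i (d : K) := by
        by_contra h
        exact hne ((Subgroup.eq_top_iff' _).2 fun y => not_not.1 fun hy => h ⟨y, hy⟩)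
      obtain ⟨x, hx⟩ := h7 K (ns S d) fun 𝔭 => if 𝔭 = i then y else 1
      refine ⟨x, fun _ => ⟨fun h => hy ?_, fun j hj hji => ?_⟩⟩
      · have h1 := hx i hi
        rw [if_pos rfl] at h1
        have h2 : x / y ∈ LN i (d : K) := Subgroup.mem_sup_right h1
        simpa using (LN i (d : K)).div_mem h h2
      · have h1 := hx j hj
        rw [if_neg hji, div_one] at h1
        exact Subgroup.mem_sup_right h1
    · exact ⟨1, fun h => absurd h hi⟩
  choose x hx using hx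
  have := h8 Kˣ (Pr K) (ns S d) (fun i => LN i (d : K)) ⊤ (⨅ 𝔭 ∈ ns S d, LN 𝔭 (d : K)) x
    (fun i hi => iInf₂_le i hi) (fun i hi => ⟨trivial, (hx i hi).1⟩)
    (fun i hi j hj hji => (hx i hi).2 j hj hji) (by rwa [Subgroup.relIndex_top_right])
  rwa [Subgroup.relIndex_top_right] at this

end HntA

theorem hnt (h1 : BIGStmt) (h2 : SELStmt) (h3 : INJStmt) (h4 : FGSStmt) (h5 : L1BStmt)
    (h6 : L2Stmt) (h7 : WAStmt) (h8 : IDXStmt) (h9 : FIN0Stmt) (h10 : COUNTStmt) : HNTStmt := by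
  intro K _ _ _ d a ha
  classical
  by_cases hd : d ∈ Sq K
  · exact HntA.of_sq d a hd
  obtain ⟨b1, b2, b3, -, b5⟩ := h1 K
  obtain ⟨S₀, h0⟩ := b2 {a, d}
  obtain ⟨S, hS, hB⟩ := b1 S₀
  have haS : a ∈ SU S := (b3 _ _ hS).1 (h0 a (by simp))
  have hdS : d ∈ SU S := (b3 _ _ hS).1 (h0 d (by simp))
  obtain ⟨T, hT, hc, hdT, hx⟩ := h2 K d S hB hdS hd
  obtain ⟨hle, hB'⟩ := b3 S (S ∪ T) Finset.subset_union_left
  have hns : ns (S ∪ T) d = ns S d := by
    ext 𝔭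
    simp only [ns, Finset.mem_filter, Finset.mem_union]
    exact ⟨fun h => ⟨h.1.resolve_right fun k => h.2 (hdT 𝔭 k), h.2⟩, fun h => ⟨Or.inl h.1, h.2⟩⟩
  obtain ⟨c1, c2⟩ := h10 K (S ∪ T) d hd (hB' hB) (hle hdS)
  rw [hns] at c2
  obtain ⟨l1, l2⟩ := h5 K S
  have hAB : (⨅ 𝔭 ∈ S, LS 𝔭) ≤ ⨅ 𝔭 ∈ ns S d, LN 𝔭 (d : K) :=
    le_iInf₂ fun 𝔭 h => (iInf₂_le 𝔭 (Finset.mem_filter.1 h).1).trans (b5 𝔭 d)
  have hNB : Nm (d : K) ≤ ⨅ 𝔭 ∈ ns S d, LN 𝔭 (d : K) := le_iInf₂ fun 𝔭 _ => le_sup_left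
  have hB0 : (⨅ 𝔭 ∈ ns S d, LN 𝔭 (d : K)).index ≠ 0 :=
    ne_zero_of_dvd_ne_zero l1 (Subgroup.index_dvd_of_le hAB)
  have hAW : (⨅ 𝔭 ∈ S, LS 𝔭) ⊓ SU (S ∪ T) = Sq K ⊓ SU (S ∪ T) := by
    have hq : Sq K ≤ ⨅ 𝔭 ∈ S, LS 𝔭 := le_iInf₂ fun 𝔭 _ => le_sup_left
    refine le_antisymm (fun b hb => ⟨?_, hb.2⟩) (inf_le_inf_right _ hq)
    refine h3 K S T (S ∪ T) b hB hT (fun _ => Finset.mem_union) hx hb.2 fun 𝔭 h => ?_
    exact (iInf₂_le 𝔭 h : (⨅ 𝔭 ∈ S, LS 𝔭) ≤ LS 𝔭) hb.1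
  have hrel : (⨅ 𝔭 ∈ S, LS 𝔭).relIndex (SU (S ∪ T)) =
      2 ^ (Units.rank K + 1 + (S.card + (Units.rank K + S.card))) := by
    rw [← Subgroup.inf_relIndex_right, hAW, Subgroup.inf_relIndex_right, h4 K (S ∪ T),
      Finset.card_union_of_disjoint hT, hc]
  have hA : (⨅ 𝔭 ∈ S, LS 𝔭).index ≤ 2 * (⨅ 𝔭 ∈ S, LS 𝔭).relIndex (SU (S ∪ T)) := by
    refine l2.trans (le_of_eq ?_)
    rw [hrel, HntA.deg, show (4 : ℕ) = 2 ^ 2 from rfl, ← pow_mul, ← pow_add, ← pow_succ']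
    congr 1
    ring
  refine h9 Kˣ _ _ _ (SU (S ∪ T)) _ hAB hNB l1 hA (HntA.low h6 h7 h8 S d hB0) c1 c2
    ⟨hle haS, ?_⟩
  exact Subgroup.mem_iInf.2 fun 𝔭 => Subgroup.mem_iInf.2 fun _ => ha 𝔭

end Pool.Agent.MP_a43263_nt.VH

end
end MrgPart8

-- ======== part 9: formerly Pool.Agent.MP_a43263_nt.VH.Hone
section MrgPart9

/-! THEOREM V, part H: Hilbert 90 for the `S`-units of a quadratic extension. -/

set_option autoImplicit false

noncomputable section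

namespace Pool.Agent.MP_a43263_nt.VH

open NumberField IsDedekindDomain

namespace Hone

variable {K : Type} [Field K] [NumberField K] {S : Finset (Pr K)}

open Classical in
lemma prescribe (hS : Big S) (n : Pr K → WithZero (Multiplicative ℤ)) (hn : ∀ 𝔭, n 𝔭 ≠ 0)
    (T : Finset (Pr K)) :
    ∃ k : Kˣ, ∀ 𝔭 ∉ S, 𝔭.valuation K (k : K) = if 𝔭 ∈ T then n 𝔭 else 1 := by
  induction T using Finset.induction_on with
  | empty => exact ⟨1, by simp⟩
  | insert 𝔮 T hT ih =>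
    obtain ⟨k, hk⟩ := ih
    by_cases hq : 𝔮 ∈ S
    · refine ⟨k, fun 𝔭 hp => ?_⟩
      have : 𝔭 ≠ 𝔮 := fun e => hp (e ▸ hq)
      simp [hk 𝔭 hp, this]
    obtain ⟨j, h1, h2⟩ := hS.2 𝔮 hq
    refine ⟨k * j ^ (-WithZero.log (n 𝔮)), fun 𝔭 hp => ?_⟩
    rw [Units.val_mul, map_mul, Units.val_zpow_eq_zpow_val, map_zpow₀, hk 𝔭 hp]
    rcases eq_or_ne 𝔭 𝔮 with rfl | e
    · rw [h1, ← WithZero.exp_zsmul]
      simp [hT, WithZero.exp_log (hn 𝔭)]
    · simp [h2 𝔭 hp e, e]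

lemma exists_max (hS : Big S) {x y : K} (h : x ≠ 0 ∨ y ≠ 0) :
    ∃ k : Kˣ, ∀ 𝔭 ∉ S, 𝔭.valuation K (k : K) = max (𝔭.valuation K x) (𝔭.valuation K y) := by
  classical
  wlog hx : x ≠ 0 generalizing x y
  · simpa only [max_comm] using this h.symm (h.resolve_left hx)
  have hf := ((HeightOneSpectrum.Support.finite (𝓞 K) x).union
    (HeightOneSpectrum.Support.finite (𝓞 K) y)).union (HeightOneSpectrum.Support.finite (𝓞 K) x⁻¹)
  have h0 : ∀ 𝔭 : Pr K, 0 < 𝔭.valuation K x := fun 𝔭 =>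
    zero_lt_iff.2 ((Valuation.ne_zero_iff _).2 hx)
  obtain ⟨k, hk⟩ := prescribe hS (fun 𝔭 => max (𝔭.valuation K x) (𝔭.valuation K y))
    (fun 𝔭 => (lt_max_of_lt_left (h0 𝔭)).ne') hf.toFinset
  refine ⟨k, fun 𝔭 hp => (hk 𝔭 hp).trans ?_⟩
  split_ifs with c
  · rfl
  simp only [Set.Finite.mem_toFinset, Set.mem_union, HeightOneSpectrum.Support, Set.mem_ofPred_eq,
    not_or, not_lt, map_inv₀, inv_le_one₀ (h0 𝔭)] at c
  exact le_antisymm (le_max_of_le_left c.2) (max_le c.1.1 c.1.2)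

end Hone

theorem hone (h : VALStmt) : H1Stmt := by
  intro K L _ _ _ _ _ d δ σ S S' hq hS
  obtain ⟨v1, v2, -, v4⟩ := h K L
  have up_val : ∀ x : Kˣ, ((up K L x : Lˣ) : L) = algebraMap K L x := fun _ => rfl
  have cj_val : ∀ w : Lˣ, ((cj σ w : Lˣ) : L) = σ w := fun _ => rfl
  refine ⟨fun x => ⟨fun hx 𝔭 hp => ?_, fun hx 𝔓 hP => ?_⟩, fun w hw 𝔓 hP => ?_, ?_⟩
  · obtain ⟨𝔓, rfl⟩ := v2 𝔭
    obtain ⟨e, he, h1⟩ := v1 𝔓
    have := hx 𝔓 fun c => hp ((hS 𝔓).1 c)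
    rwa [up_val, h1, pow_eq_one_iff_of_nonneg zero_le he.ne'] at this
  · obtain ⟨e, -, h1⟩ := v1 𝔓
    rw [up_val, h1, hx _ fun c => hP ((hS 𝔓).2 c), one_pow]
  · obtain ⟨𝔔, h1, h2⟩ := v4 σ 𝔓
    rw [cj_val, ← h2]
    exact hw 𝔔 fun c => hP ((hS 𝔓).2 (h1 ▸ (hS 𝔔).1 c))
  intro hB hd w hw h1
  have h2 : (w : L) * σ w = 1 := congrArg Units.val h1
  obtain ⟨z, z0, hz⟩ : ∃ z : L, z ≠ 0 ∧ w * σ z = z := by
    rcases eq_or_ne (1 + w : L) 0 with c | c
    · exact ⟨δ, hq.ne, by rw [hq.neg]; linear_combination -δ * c⟩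
    · exact ⟨_, c, by rw [map_add, map_one]; linear_combination h2⟩
  obtain ⟨x, y, e1⟩ := hq.span z
  have e2 : σ z = algebraMap K L x - algebraMap K L y * δ := by
    rw [e1, map_add, map_mul, σ.commutes, σ.commutes, hq.neg]
    ring
  obtain ⟨k, hk⟩ := Hone.exists_max hB (x := x) (y := y) (by
    by_contra c
    push Not at c
    simp [e1, c.1, c.2] at z0)
  refine ⟨Units.mk0 z z0 / up K L k, fun 𝔓 hP => ?_, Units.ext ?_⟩
  · have hp : dn K 𝔓 ∉ S := fun c => hP ((hS 𝔓).2 c)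
    obtain ⟨e, he, a1⟩ := v1 𝔓
    have a2 : 𝔓.valuation L 2 = 1 := by
      rw [← map_ofNat (algebraMap K L) 2, a1, hB.1 _ hp, one_pow]
    have a3 : 𝔓.valuation L δ = 1 := by
      rw [← pow_eq_one_iff_of_nonneg zero_le two_ne_zero, ← map_pow, hq.sq, a1, hd _ hp, one_pow]
    have a4 : 𝔓.valuation L (σ z) = 𝔓.valuation L z := by
      conv_rhs => rw [← hz, map_mul, hw 𝔓 hP, one_mul]
    have a5 : 𝔓.valuation L z = max (𝔓.valuation L (algebraMap K L x))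
        (𝔓.valuation L (algebraMap K L y)) := by
      refine le_antisymm ?_ (max_le ?_ ?_)
      · refine (e1 ▸ Valuation.map_add _ _ _).trans ?_
        rw [map_mul, a3, mul_one]
      · have := (𝔓.valuation L).map_add z (σ z)
        rwa [a4, max_self, show z + σ z = 2 * algebraMap K L x by rw [e2, e1]; ring, map_mul, a2,
          one_mul] at this
      · have := (𝔓.valuation L).map_sub z (σ z)
        rwa [a4, max_self, show z - σ z = 2 * δ * algebraMap K L y by rw [e2, e1]; ring, map_mul,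
          map_mul, a2, a3, one_mul, one_mul] at this
    rw [Units.val_div_eq_div_val, map_div₀, Units.val_mk0, up_val, a1, hk _ hp,
      (pow_left_mono e).map_max, ← a1, ← a1, ← a5]
    exact div_self ((Valuation.ne_zero_iff _).2 z0)
  · rw [Units.val_mul, cj_val, Units.val_div_eq_div_val, map_div₀, Units.val_mk0, up_val,
      σ.commutes, ← mul_div_assoc, hz]

end Pool.Agent.MP_a43263_nt.VH

end
end MrgPart9

-- ======== part 10: formerly Pool.Agent.MP_a43263_nt.VH.Idx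
section MrgPart10

/-! Two index inequalities in commutative groups. -/

set_option autoImplicit false

namespace Pool.Agent.MP_a43263_nt.VH

open Subgroup

theorem idx : IDXStmt := by
  intro G ι _ T B W N x
  classical
  induction T using Finset.induction_on generalizing W with
  | empty => exact fun _ _ _ h => Nat.one_le_iff_ne_zero.2 h
  | insert i T hi ih =>
    intro h1 h2 h3 h4
    have m := Finset.mem_insert_self i T
    have e : N.relIndex (B i ⊓ W) * (B i).relIndex W = N.relIndex W := by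
      rw [relIndex_inf_mul_relIndex, inf_eq_left.2 (h1 i m)]
    rw [← e] at h4 ⊢
    have a := ih (B i ⊓ W) (fun j hj => h1 j (Finset.mem_insert_of_mem hj))
      (fun j hj => ⟨⟨h3 j (Finset.mem_insert_of_mem hj) i m (fun e => hi (e ▸ hj)),
        (h2 j (Finset.mem_insert_of_mem hj)).1⟩, (h2 j (Finset.mem_insert_of_mem hj)).2⟩)
      (fun j hj k hk => h3 j (Finset.mem_insert_of_mem hj) k (Finset.mem_insert_of_mem hk))
      (left_ne_zero_of_mul h4)
    have b0 := right_ne_zero_of_mul h4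
    have b1 : (B i).relIndex W ≠ 1 := fun e => (h2 i m).2 (relIndex_eq_one.1 e (h2 i m).1)
    rw [Finset.card_insert_of_notMem hi, pow_succ]
    exact Nat.mul_le_mul a (by omega)

theorem fin0 : FIN0Stmt := by
  intro G _ A B N W t hAB hNB h0 h1 h2 h3 h4
  have f : ∀ C : Subgroup G, C.relIndex W * (C ⊔ W).index = C.index := fun C => by
    rw [← relIndex_sup_left W C, relIndex_mul_index le_sup_left]
  have a0 : A.relIndex W ≠ 0 := left_ne_zero_of_mul ((f A).symm ▸ h0)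
  have a1 : (A ⊔ W).index ≠ 0 := right_ne_zero_of_mul ((f A).symm ▸ h0)
  have a2 : (A ⊔ W).index ≤ 2 := by
    rw [← f A, mul_comm] at h1
    exact Nat.le_of_mul_le_mul_right h1 (Nat.pos_of_ne_zero a0)
  have a3 : (B ⊔ W).index ≤ 2 :=
    (Nat.le_of_dvd (Nat.pos_of_ne_zero a1) (index_dvd_of_le (sup_le_sup_right hAB W))).trans a2
  have e : N.relIndex (B ⊓ W) * B.relIndex W = N.relIndex W := by
    rw [relIndex_inf_mul_relIndex, inf_eq_left.2 hNB]
  rw [← e] at h3 h4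
  have b0 := Nat.pos_of_ne_zero (left_ne_zero_of_mul h3)
  have b1 := Nat.pos_of_ne_zero (right_ne_zero_of_mul h3)
  have b2 : B.index ≤ B.relIndex W * 2 := (f B).symm.le.trans (Nat.mul_le_mul_left _ a3)
  rw [inf_comm]
  refine relIndex_eq_one.1 (le_antisymm (Nat.le_of_mul_le_mul_right ?_ b1) b0)
  omega

end Pool.Agent.MP_a43263_nt.VH

end MrgPart10

-- ======== part 11: formerly Pool.Agent.MP_a43263_nt.VH.Inj
section MrgPart11

/-! THEOREM V, part H: an `S ∪ T`-unit that is a local square on `S` is a square. -/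

set_option autoImplicit false

namespace Pool.Agent.MP_a43263_nt.VH

open NumberField IsDedekindDomain

namespace InjA

variable {K : Type} [Field K] [NumberField K]

/-- a uniformizer and a non-square unit generate everything modulo the local squares -/
theorem top (h4 : ODDStmt) {𝔭 : Pr K} {B : Subgroup Kˣ} {x k : Kˣ} (hB : LS 𝔭 ≤ B)
    (h2 : 𝔭.valuation K 2 = 1) (hx : 𝔭.valuation K (x : K) = 1) (hx' : x ∉ LS 𝔭)
    (hk : 𝔭.valuation K (k : K) = WithZero.exp (-1 : ℤ)) (mx : x ∈ B) (mk : k ∈ B) : B = ⊤ := by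
  refine eq_top_iff.2 fun a _ => ?_
  have h0 : 𝔭.valuation K (a : K) ≠ 0 := (Valuation.ne_zero_iff _).2 a.ne_zero
  obtain ⟨m, hm⟩ : ∃ m : ℤ, 𝔭.valuation K (a : K) = WithZero.exp m :=
    ⟨WithZero.log (𝔭.valuation K (a : K)), (WithZero.exp_log h0).symm⟩
  have hu : 𝔭.valuation K ((a * k ^ m : Kˣ) : K) = 1 := by
    rw [Units.val_mul, Units.val_zpow_eq_zpow_val, map_mul, map_zpow₀, hm, hk,
      ← WithZero.exp_zsmul, ← WithZero.exp_add]
    simp
  have mu : a * k ^ m ∈ B := by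
    by_cases h : a * k ^ m ∈ LS 𝔭
    · exact hB h
    · exact (B.mul_mem_cancel_right mx).1 (hB (h4 K 𝔭 _ x h2 hu hx h hx'))
  exact (B.mul_mem_cancel_right (B.zpow_mem mk m)).1 mu

/-- an element that is not in `B` and is a local square at the other primes of `T` -/
theorem dual (h4 : ODDStmt) {S T S' : Finset (Pr K)} (hS : Big S) (hd : Disjoint S T)
    (hS' : ∀ 𝔭, 𝔭 ∈ S' ↔ 𝔭 ∈ S ∨ 𝔭 ∈ T)
    (hT : ∀ 𝔭 ∈ T, ∃ x ∈ SU S, x ∉ LS 𝔭 ∧ ∀ 𝔮 ∈ T, 𝔮 ≠ 𝔭 → x ∈ LS 𝔮) {𝔭 : Pr K} (h𝔭 : 𝔭 ∈ T)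
    {B : Subgroup Kˣ} (hB : LS 𝔭 ≤ B) (hB' : B ≠ ⊤) :
    ∃ y ∈ SU S', y ∉ B ∧ ∀ 𝔮 ∈ T, 𝔮 ≠ 𝔭 → y ∈ LS 𝔮 := by
  classical
  choose! x hx hx' hx'' using hT
  have nS : ∀ 𝔮 ∈ T, 𝔮 ∉ S := fun 𝔮 h => Finset.disjoint_right.1 hd h
  have le : SU S ≤ SU S' := fun u hu 𝔮 h => hu 𝔮 fun h' => h ((hS' 𝔮).2 (Or.inl h'))
  by_cases hxB : x 𝔭 ∈ B
  swap
  · exact ⟨x 𝔭, le (hx 𝔭 h𝔭), hxB, hx'' 𝔭 h𝔭⟩
  obtain ⟨k, hk, hk'⟩ := hS.2 𝔭 (nS 𝔭 h𝔭)
  set A := T.filter fun 𝔮 => 𝔮 ≠ 𝔭 ∧ k ∉ LS 𝔮 with hA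
  have mA : ∀ 𝔮, 𝔮 ∈ A ↔ 𝔮 ∈ T ∧ 𝔮 ≠ 𝔭 ∧ k ∉ LS 𝔮 := fun 𝔮 => Finset.mem_filter
  refine ⟨k * ∏ 𝔮 ∈ A, x 𝔮, (SU S').mul_mem (fun 𝔮 h => hk' 𝔮 (fun h' => h ((hS' 𝔮).2 (Or.inl h')))
    fun h' => h ((hS' 𝔮).2 (Or.inr (h' ▸ h𝔭))))
    ((SU S').prod_mem fun 𝔮 h => le (hx 𝔮 ((mA 𝔮).1 h).1)), fun h => hB' ?_, fun 𝔮 h h' => ?_⟩
  · refine top h4 hB (hS.1 𝔭 (nS 𝔭 h𝔭)) (hx 𝔭 h𝔭 𝔭 (nS 𝔭 h𝔭)) (hx' 𝔭 h𝔭) hk hxB ?_
    exact (B.mul_mem_cancel_right (B.prod_mem fun 𝔮 h =>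
      hB (hx'' 𝔮 ((mA 𝔮).1 h).1 𝔭 h𝔭 ((mA 𝔮).1 h).2.1.symm))).1 h
  · by_cases hq : k ∈ LS 𝔮
    · refine (LS 𝔮).mul_mem hq ((LS 𝔮).prod_mem fun 𝔯 hr => hx'' 𝔯 ((mA 𝔯).1 hr).1 𝔮 h ?_)
      rintro rfl
      exact ((mA 𝔮).1 hr).2.2 hq
    · rw [← Finset.mul_prod_erase A x ((mA 𝔮).2 ⟨h, h', hq⟩), ← mul_assoc]
      refine (LS 𝔮).mul_mem (h4 K 𝔮 k (x 𝔮) (hS.1 𝔮 (nS 𝔮 h)) (hk' 𝔮 (nS 𝔮 h) h')
        (hx 𝔮 h 𝔮 (nS 𝔮 h)) hq (hx' 𝔮 h)) ((LS 𝔮).prod_mem fun 𝔯 hr => ?_)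
      exact hx'' 𝔯 ((mA 𝔯).1 (Finset.mem_of_mem_erase hr)).1 𝔮 h (Finset.ne_of_mem_erase hr).symm

end InjA

theorem inj (h1 : BIGStmt) (h2 : COUNTStmt) (h3 : L2Stmt) (h4 : ODDStmt) (h5 : IDXStmt) :
    INJStmt := by
  classical
  intro K _ _ _ S T S' b hS hd hS' hT hb hbS
  by_contra hsq
  obtain ⟨-, -, hB3, -, hB5⟩ := h1 K
  have hbig : Big S' := (hB3 S S' fun 𝔭 h => (hS' 𝔭).2 (Or.inl h)).2 hS
  obtain ⟨c0, c1⟩ := h2 K S' b hsq hbig hb
  have mT : ∀ 𝔭 ∈ ns S' b, 𝔭 ∈ T ∧ b ∉ LS 𝔭 := fun 𝔭 h => by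
    have h' := Finset.mem_filter.1 h
    exact ⟨((hS' 𝔭).1 h'.1).resolve_left fun h => h'.2 (hbS 𝔭 h), h'.2⟩
  have key : ∀ 𝔭 ∈ ns S' b, ∃ y ∈ SU S', y ∉ LN 𝔭 (b : K) ∧ ∀ 𝔮 ∈ T, 𝔮 ≠ 𝔭 → y ∈ LS 𝔮 :=
    fun 𝔭 h => InjA.dual h4 hS hd hS' hT (mT 𝔭 h).1 (hB5 𝔭 b) (h3 K 𝔭 b (mT 𝔭 h).2)
  choose! y hy hy' hy'' using key
  have := h5 Kˣ (Pr K) (ns S' b) (fun 𝔭 => LN 𝔭 (b : K)) (SU S') (Nm (b : K)) y
    (fun _ _ => le_sup_left) (fun 𝔭 h => ⟨hy 𝔭 h, hy' 𝔭 h⟩)
    (fun 𝔭 h 𝔮 h' hne => hB5 𝔮 b (hy'' 𝔭 h 𝔮 (mT 𝔮 h').1 hne)) c0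
  omega

end Pool.Agent.MP_a43263_nt.VH

end MrgPart11

-- ======== part 12: formerly Pool.Agent.MP_a43263_nt.VH.L1b
section MrgPart12

/-! THEOREM V, part H, rows L1B and WA: the index of the local squares at a finite set of primes,
and weak approximation. -/

set_option autoImplicit false

noncomputable section

namespace Pool.Agent.MP_a43263_nt.VH

open NumberField IsDedekindDomain

namespace L1b

variable {K : Type} [Field K] [NumberField K]

theorem val_int (𝔭 : Pr K) (r : 𝓞 K) :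
    𝔭.valuation K (algebraMap (𝓞 K) K r) = 𝔭.intValuation r :=
  𝔭.valuation_of_algebraMap r

theorem prod_le (S : Finset (Pr K)) (e : Pr K → ℕ)
    (he : ∀ 𝔭, (2 : 𝓞 K) ∈ 𝔭.asIdeal ^ e 𝔭) :
    ∏ 𝔭 ∈ S, Ideal.absNorm 𝔭.asIdeal ^ e 𝔭 ≤ 2 ^ Module.finrank ℚ K := by
  have h1 : Ideal.span {((2 : ℕ) : 𝓞 K)} ≤ ∏ 𝔭 ∈ S, 𝔭.asIdeal ^ e 𝔭 := by
    rw [← HeightOneSpectrum.inf_pow_eq_prod S e (fun 𝔭 => 𝔭) (fun _ _ _ _ h => h),
      Ideal.span_singleton_le_iff_mem, Submodule.mem_finsetInf]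
    intro 𝔭 _
    simpa using he 𝔭
  have h2 := Ideal.absNorm_dvd_absNorm_of_le h1
  rw [Ideal.absNorm_span_natCast, RingOfIntegers.rank, map_prod] at h2
  simp only [map_pow] at h2
  exact Nat.le_of_dvd (by positivity) h2

end L1b

open L1b

theorem l1b (h : L1AStmt) : L1BStmt := by
  intro K _ _ S
  have h2 : (2 : 𝓞 K) ≠ 0 := two_ne_zero
  let e : Pr K → ℕ := fun 𝔭 => multiplicity 𝔭.asIdeal (Ideal.span {(2 : 𝓞 K)})
  have he : ∀ 𝔭 : Pr K, 𝔭.intValuation (2 : 𝓞 K) = WithZero.exp (-(e 𝔭 : ℤ)) := fun 𝔭 =>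
    𝔭.intValuation_eq_exp_neg_multiplicity h2
  have he' : ∀ 𝔭 : Pr K, 𝔭.valuation K 2 = WithZero.exp (-(e 𝔭 : ℤ)) := fun 𝔭 => by
    rw [← he, ← val_int, map_ofNat (algebraMap (𝓞 K) K)]
  have hm : ∀ 𝔭 : Pr K, (2 : 𝓞 K) ∈ 𝔭.asIdeal ^ e 𝔭 := fun 𝔭 =>
    (𝔭.intValuation_le_pow_iff_mem _ _).1 (he 𝔭).le
  rw [iInf_subtype']
  refine ⟨Subgroup.index_iInf_ne_zero fun 𝔭 => (h K 𝔭.1 _ (he' 𝔭.1)).1, ?_⟩
  refine (Subgroup.index_iInf_le _).trans ?_
  calc ∏ 𝔭 : {𝔭 // 𝔭 ∈ S}, (LS 𝔭.1).index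
      ≤ ∏ 𝔭 : {𝔭 // 𝔭 ∈ S}, 4 * Ideal.absNorm 𝔭.1.asIdeal ^ e 𝔭.1 :=
        Finset.prod_le_prod' fun 𝔭 _ => (h K 𝔭.1 _ (he' 𝔭.1)).2
    _ = ∏ 𝔭 ∈ S, 4 * Ideal.absNorm 𝔭.asIdeal ^ e 𝔭 :=
        Finset.prod_coe_sort S fun 𝔭 => 4 * Ideal.absNorm 𝔭.asIdeal ^ e 𝔭
    _ = 4 ^ S.card * ∏ 𝔭 ∈ S, Ideal.absNorm 𝔭.asIdeal ^ e 𝔭 := by
        rw [Finset.prod_mul_distrib, Finset.prod_const]
    _ ≤ _ := Nat.mul_le_mul_left _ (prod_le S e hm)

theorem wa : WAStmt := by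
  intro K _ _ T a
  rcases T.eq_empty_or_nonempty with rfl | ⟨𝔮, h𝔮⟩
  · exact ⟨1, by simp⟩
  obtain ⟨D, hD⟩ := IsLocalization.exist_integer_multiples (nonZeroDivisors (𝓞 K)) T
    (fun 𝔭 => (a 𝔭 : K))
  have hD0 : algebraMap (𝓞 K) K D ≠ 0 := by simp
  choose! r hr using hD
  have hr' : ∀ 𝔭 ∈ T, algebraMap (𝓞 K) K (r 𝔭) = algebraMap (𝓞 K) K D * a 𝔭 := fun 𝔭 h => by
    rw [hr 𝔭 h, Algebra.smul_def]
  have hr0 : ∀ 𝔭 ∈ T, r 𝔭 ≠ 0 := fun 𝔭 h h0 => by
    have := hr' 𝔭 h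
    rw [h0, map_zero] at this
    exact mul_ne_zero hD0 (a 𝔭).ne_zero this.symm
  let n : Pr K → ℕ := fun 𝔭 => multiplicity 𝔭.asIdeal (Ideal.span {4 * r 𝔭}) + 1
  obtain ⟨y, hy⟩ := exists_forall_sub_mem_ideal (s := T) (fun 𝔭 : Pr K => 𝔭.asIdeal) n
    (fun 𝔭 _ => 𝔭.prime) (fun _ _ _ _ h k => h (HeightOneSpectrum.ext k)) (fun 𝔭 => r 𝔭.1)
  have hlt : ∀ 𝔭 ∈ T, 𝔭.intValuation (y - r 𝔭) < 𝔭.intValuation (4 * r 𝔭) := fun 𝔭 h => by
    refine lt_of_le_of_lt ((𝔭.intValuation_le_pow_iff_mem _ _).2 (hy 𝔭 h)) ?_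
    rw [𝔭.intValuation_eq_exp_neg_multiplicity (mul_ne_zero (by norm_num) (hr0 𝔭 h)),
      WithZero.exp_lt_exp]
    simp only [n]
    push_cast
    omega
  have hy0 : y ≠ 0 := by
    rintro rfl
    have h1 := hlt 𝔮 h𝔮
    rw [zero_sub, Valuation.map_neg, map_mul] at h1
    exact absurd h1 (not_lt.2 (mul_le_of_le_one_left' (𝔮.intValuation_le_one 4)))
  have hy1 : algebraMap (𝓞 K) K y ≠ 0 := by simpa using hy0
  refine ⟨Units.mk0 (algebraMap (𝓞 K) K y / algebraMap (𝓞 K) K D) (div_ne_zero hy1 hD0),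
    fun 𝔭 h => ?_⟩
  change 𝔭.valuation K (_ - 1) < 𝔭.valuation K 4
  have ha := (a 𝔭).ne_zero
  have e : ((Units.mk0 (algebraMap (𝓞 K) K y / algebraMap (𝓞 K) K D) (div_ne_zero hy1 hD0) /
      a 𝔭 : Kˣ) : K) - 1 = algebraMap (𝓞 K) K (y - r 𝔭) / algebraMap (𝓞 K) K (r 𝔭) := by
    rw [Units.val_div_eq_div_val, Units.val_mk0, map_sub, hr' 𝔭 h]
    field_simp
  have h4 : 𝔭.valuation K 4 = 𝔭.intValuation 4 := by
    rw [← val_int, map_ofNat (algebraMap (𝓞 K) K)]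
  rw [e, map_div₀, val_int, val_int, h4,
    div_lt_iff₀ (zero_lt_iff.2 (𝔭.intValuation_ne_zero _ (hr0 𝔭 h))), ← map_mul]
  exact hlt 𝔭 h

end Pool.Agent.MP_a43263_nt.VH

end
end MrgPart12

-- ======== part 13: formerly Pool.Agent.MP_a43263_nt.VH.Lev
section MrgPart13

/-! A locally constant function of two Galois variables has a finite level. -/

set_option autoImplicit false

namespace Pool.Agent.MP_a43263_nt.VH

open Topology

namespace Lev

variable {k K : Type} [Field k] [Field K] [Algebra k K]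

theorem agree_iff (F : IntermediateField k K) (σ σ' : K ≃ₐ[k] K) :
    σ⁻¹ * σ' ∈ F.fixingSubgroup ↔ ∀ x ∈ F, σ x = σ' x := by
  rw [IntermediateField.mem_fixingSubgroup_iff]
  refine forall_congr' fun x => forall_congr' fun _ => ?_
  rw [AlgEquiv.mul_apply, AlgEquiv.aut_inv, AlgEquiv.symm_apply_eq]
  exact eq_comm

theorem isOpen_agree (F : IntermediateField k K) [FiniteDimensional k F] (σ : K ≃ₐ[k] K) :
    IsOpen {σ' : K ≃ₐ[k] K | ∀ x ∈ F, σ x = σ' x} := by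
  have h := F.fixingSubgroup_isOpen.preimage (continuous_const_mul σ⁻¹)
  convert h using 1
  ext σ'
  exact (agree_iff F σ σ').symm

theorem exists_level [IsGalois k K] (σ : K ≃ₐ[k] K) {u : Set (K ≃ₐ[k] K)} (hu : u ∈ 𝓝 σ) :
    ∃ F : FiniteGaloisIntermediateField k K, ∀ σ' : K ≃ₐ[k] K,
      (∀ x ∈ F.toIntermediateField, σ x = σ' x) → σ' ∈ u := by
  have h : (fun τ => σ * τ) ⁻¹' u ∈ 𝓝 (1 : K ≃ₐ[k] K) :=
    (continuous_const_mul σ).continuousAt.preimage_mem_nhds (by rwa [mul_one])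
  obtain ⟨F, hF⟩ := (InfiniteGalois.krullTopology_mem_nhds_one_iff_of_isGalois _).1 h
  refine ⟨F, fun σ' h' => ?_⟩
  have h2 := hF ((agree_iff _ σ σ').2 h')
  rwa [Set.mem_preimage, mul_inv_cancel_left] at h2

theorem level [IsGalois k K] {Y : Type} (a : (K ≃ₐ[k] K) → (K ≃ₐ[k] K) → Y)
    (ha : IsLocallyConstant fun x : (K ≃ₐ[k] K) × (K ≃ₐ[k] K) => a x.1 x.2) :
    ∃ F : FiniteGaloisIntermediateField k K, ∀ σ σ' τ τ' : K ≃ₐ[k] K,
      (∀ x ∈ F.toIntermediateField, σ x = σ' x) → (∀ x ∈ F.toIntermediateField, τ x = τ' x) →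
        a σ τ = a σ' τ' := by
  let V : FiniteGaloisIntermediateField k K → Set ((K ≃ₐ[k] K) × (K ≃ₐ[k] K)) := fun F =>
    {z | ∀ σ' τ' : K ≃ₐ[k] K, (∀ x ∈ F.toIntermediateField, z.1 x = σ' x) →
      (∀ x ∈ F.toIntermediateField, z.2 x = τ' x) → a z.1 z.2 = a σ' τ'}
  have hmono : Monotone V := fun F F' h z hz σ' τ' h1 h2 =>
    hz σ' τ' (fun x hx => h1 x (h hx)) fun x hx => h2 x (h hx)
  have : Nonempty (FiniteGaloisIntermediateField k K) := ⟨⊥⟩
  refine (isCompact_univ.elim_directed_cover V (fun F => ?_) (fun z _ => ?_)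
    hmono.directed_le).imp fun F hF σ σ' τ τ' => hF (Set.mem_univ (σ, τ)) σ' τ'
  · refine isOpen_iff_forall_mem_open.2 fun z hz => ⟨_, ?_,
      (isOpen_agree F.toIntermediateField z.1).prod (isOpen_agree F.toIntermediateField z.2),
      fun _ _ => rfl, fun _ _ => rfl⟩
    rintro w ⟨h1, h2⟩ σ' τ' h3 h4
    rw [← hz w.1 w.2 h1 h2]
    exact hz σ' τ' (fun x hx => (h1 x hx).trans (h3 x hx)) fun x hx => (h2 x hx).trans (h4 x hx)
  · obtain ⟨u, hu, v, hv, huv⟩ := mem_nhds_prod_iff.1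
      ((ha.isOpen_fiber (a z.1 z.2)).mem_nhds (x := (z.1, z.2)) rfl)
    obtain ⟨F1, h1⟩ := exists_level z.1 hu
    obtain ⟨F2, h2⟩ := exists_level z.2 hv
    refine Set.mem_iUnion.2 ⟨F1 ⊔ F2, fun σ' τ' h3 h4 => ?_⟩
    exact (huv (Set.mk_mem_prod
      (h1 σ' fun x hx => h3 x ((le_sup_left : F1 ≤ F1 ⊔ F2) hx))
      (h2 τ' fun x hx => h4 x ((le_sup_right : F2 ≤ F1 ⊔ F2) hx)))).symm

end Lev

theorem lev : LEVStmt := by
  intro a ha
  have : IsAlgClosure ℚ Qb := ⟨inferInstance, inferInstance⟩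
  have : IsGalois ℚ Qb := IsGalois.mk
  obtain ⟨F, hF⟩ := Lev.level a ha
  obtain ⟨i, hi⟩ := IsAlgClosed.exists_pow_nat_eq (-1 : Qb) two_pos
  let M := F ⊔ FiniteGaloisIntermediateField.adjoin ℚ {i}
  have h1 : F ≤ M := le_sup_left
  have h2 : i ∈ M.toIntermediateField :=
    FiniteGaloisIntermediateField.adjoin_simple_le_iff.1 le_sup_right
  exact ⟨M.toIntermediateField, M.finiteDimensional, M.isGalois, ⟨⟨i, h2⟩, Subtype.ext hi⟩,
    fun σ σ' τ τ' h3 h4 => hF σ σ' τ τ' (fun x hx => h3 x (h1 hx)) fun x hx => h4 x (h1 hx)⟩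

end Pool.Agent.MP_a43263_nt.VH

end MrgPart13

-- ======== part 14: formerly Pool.Agent.MP_a43263_nt.VH.Lnm
section MrgPart14

/-! THEOREM V, part H: approximation by global elements and local norms. -/

set_option autoImplicit false

namespace Pool.Agent.MP_a43263_nt.VH

open NumberField IsDedekindDomain

theorem apx : APXStmt := by
  intro K _ _ p _ φ x η hη hx
  let F : IntermediateField ℚ_[p] (PadicAlgCl p) :=
    φ.fieldRange.topologicalClosure.toIntermediateField fun q =>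
      map_mem_closure (continuous_algebraMap ℚ_[p] (PadicAlgCl p)) (Padic.denseRange_ratCast p q)
        (by rintro _ ⟨r, rfl⟩; exact ⟨r, by simp⟩)
  have h : x ∈ F := by
    rw [← InfiniteGalois.fixedField_fixingSubgroup F, IntermediateField.mem_fixedField_iff]
    exact fun s hs => hx s fun z =>
      (IntermediateField.mem_fixingSubgroup_iff _ _).1 hs _ (subset_closure ⟨z, rfl⟩)
  obtain ⟨_, ⟨z, rfl⟩, h⟩ := Metric.mem_closure_iff.1 h η hη
  exact ⟨z, by rwa [← dist_eq_norm, dist_comm]⟩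

/-- a norm in the closure is a local norm -/
theorem Lnm.near {K Ω : Type} [Field K] [NumberField K] [NormedField Ω] (𝔭 : Pr K) (φ : K →+* Ω)
    (hv : ∀ z, ‖φ z‖ < 1 ↔ 𝔭.valuation K z < 1) (a : Kˣ) (d : K) {x y : Ω}
    (e : φ a = x ^ 2 - φ d * y ^ 2) (hx : ∀ η : ℝ, 0 < η → ∃ z, ‖φ z - x‖ < η)
    (hy : ∀ η : ℝ, 0 < η → ∃ z, ‖φ z - y‖ < η) : a ∈ LN 𝔭 d := by
  have h4 : (4 : K) ≠ 0 := by norm_num
  have hn := norm_pos_iff.2 ((map_ne_zero φ).2 (mul_ne_zero h4 a.ne_zero))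
  obtain ⟨η, hη, hb⟩ := Metric.isOpen_iff.1 (isOpen_lt (g := fun _ => ‖φ (4 * a)‖)
    (f := fun q : Ω × Ω => ‖q.1 ^ 2 - φ d * q.2 ^ 2 - φ a‖) (by fun_prop) continuous_const) (x, y)
    (by simpa only [Set.mem_ofPred_eq, ← e, sub_self, norm_zero])
  obtain ⟨x', hx⟩ := hx η hη
  obtain ⟨y', hy⟩ := hy η hη
  have k := @hb (φ x', φ y') (by
    rw [Metric.mem_ball, Prod.dist_eq, dist_eq_norm, dist_eq_norm]; exact max_lt hx hy)
  have k1 := (hv ((x' ^ 2 - d * y' ^ 2 - a) / (4 * a))).1 (by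
    rw [map_div₀, norm_div, div_lt_one hn]
    simpa only [Set.mem_ofPred_eq, map_sub, map_mul φ d, map_pow] using k)
  rw [mul_comm (4 : K), ← div_div, map_div₀, div_lt_one₀ (zero_lt_iff.2
    ((Valuation.ne_zero_iff _).2 h4)), ← div_sub_one a.ne_zero] at k1
  have k3 : x' ^ 2 - d * y' ^ 2 ≠ 0 := fun h => by
    rw [h, zero_div, zero_sub, Valuation.map_neg, map_one] at k1
    exact k1.not_ge (four_le 𝔭)
  have k4 : Units.mk0 _ k3 ∈ Nm d := ⟨x', y', rfl⟩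
  have k5 : Units.mk0 _ k3 / a ∈ Uo 𝔭 := by
    change 𝔭.valuation K (((Units.mk0 _ k3 / a : Kˣ) : K) - 1) < 𝔭.valuation K 4
    rwa [Units.val_div_eq_div_val]
  exact Subgroup.mem_sup.2 ⟨_, k4, _, inv_mem k5, by simp⟩

theorem lnm (h1 : PLACEStmt) (h2 : CONJStmt) (h3 : LOCStmt) (h4 : APXStmt) : LNMStmt := by
  intro M _ _ _ c H' H δ a d hH hi hc hl hy hδ h5 h6 𝔭
  obtain ⟨p, _, hp⟩ := h1 (IntermediateField.fixedField H) M 𝔭
  obtain ⟨ε, hε⟩ := hl p
  obtain ⟨g, hg⟩ := hp ε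
  have h0 : δ ≠ 0 := fun h => d.ne_zero (Subtype.ext (by rw [← hδ, h]; simp))
  obtain ⟨x, y, e, hf⟩ := h3 M p _ c H' H a.1 δ hH hi (h2 M p ε c g hc hε) hy
    ((IntermediateField.mem_fixedField_iff _ _).1 a.1.2) h0 h5 h6
  obtain ⟨φ, hφ⟩ : ∃ φ : IntermediateField.fixedField H →+* PadicAlgCl p,
      ∀ z, φ z = ε.comp (g : M →+* M) z :=
    ⟨(ε.comp (g : M →+* M)).comp (algebraMap _ M), fun _ => rfl⟩
  have hs : ∀ s : Gp p, (∀ z, s (φ z) = φ z) → s x = x ∧ s y = y := fun s hs => hf s fun z hz => by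
    simpa only [hφ] using hs ⟨z, (IntermediateField.mem_fixedField_iff _ _).2 hz⟩
  rw [← map_pow, hδ, ← hφ, ← hφ] at e
  exact Lnm.near 𝔭 φ (fun z => by rw [hφ]; exact hg z) a d.1 e
    (fun η hη => h4 _ p φ x η hη fun s h => (hs s h).1)
    fun η hη => h4 _ p φ y η hη fun s h => (hs s h).2

end Pool.Agent.MP_a43263_nt.VH

end MrgPart14

-- ======== part 15: formerly Pool.Agent.MP_a43263_nt.VH.Place
section MrgPart15

/-! THEOREM V, part H: every finite prime comes from a conjugate of a given `p`-adic embedding. -/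

set_option autoImplicit false

noncomputable section

namespace Pool.Agent.MP_a43263_nt.VH

open NumberField IsDedekindDomain
open scoped NNReal Pointwise

namespace Place

variable {Γ : Type} [LinearOrderedCommGroupWithZero Γ]

/-- every valuation is at most one on the algebraic integers -/
theorem le_one {M : Type} [Field M] (w : Valuation M Γ) (y : 𝓞 M) : w (y : M) ≤ 1 :=
  (Valuation.integer.integers w).mem_of_integral
    (IsIntegral.tower_top (R := ℤ) (RingOfIntegers.isIntegral_coe y))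

/-- the centre of a valuation -/
def cen {M : Type} [Field M] (w : Valuation M Γ) : Ideal (𝓞 M) where
  carrier := {y | w (y : M) < 1}
  zero_mem' := by simp
  add_mem' := fun {a b} ha hb => by
    simp only [Set.mem_ofPred_eq, map_add] at ha hb ⊢
    exact w.map_add_lt ha hb
  smul_mem' := fun c x hx => by
    simp only [Set.mem_ofPred_eq, smul_eq_mul, map_mul] at hx ⊢
    exact lt_of_le_of_lt (mul_le_of_le_one_left' (le_one w c)) hx

theorem mem_cen {M : Type} [Field M] (w : Valuation M Γ) (y : 𝓞 M) :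
    y ∈ cen w ↔ w (y : M) < 1 := Iff.rfl

theorem cen_prime {M : Type} [Field M] (w : Valuation M Γ) : (cen w).IsPrime where
  ne_top' := (Ideal.ne_top_iff_one _).2 (by simp [mem_cen])
  mem_or_mem' := fun {x y} h => by
    by_contra hc
    rw [not_or, mem_cen, mem_cen, not_lt, not_lt] at hc
    have h1 := le_antisymm (le_one w x) hc.1
    have h2 := le_antisymm (le_one w y) hc.2
    rw [mem_cen, RingOfIntegers.coe_eq_algebraMap, map_mul, map_mul] at h
    rw [RingOfIntegers.coe_eq_algebraMap] at h1 h2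
    rw [h1, h2, one_mul] at h
    exact lt_irrefl _ h

/-- a valuation with centre `𝔭` has the maximal ideal of the valuation of `𝔭` -/
theorem lt_iff {K : Type} [Field K] [NumberField K] (w : Valuation K Γ) (𝔭 : Pr K)
    (h : ∀ y : 𝓞 K, w (y : K) < 1 ↔ y ∈ 𝔭.asIdeal) (z : K) :
    w z < 1 ↔ 𝔭.valuation K z < 1 := by
  have key : ∀ z : K, 𝔭.valuation K z ≤ 1 → (w z < 1 ↔ 𝔭.valuation K z < 1) := by
    intro z hz
    obtain ⟨n, ⟨d, hd⟩, e⟩ := 𝔭.exists_primeCompl_mul_eq_of_integer z hz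
    have hd' : d ∉ 𝔭.asIdeal := hd
    have h1 : w (algebraMap (𝓞 K) K d) = 1 :=
      le_antisymm (le_one w d) (not_lt.1 fun hh => hd' ((h d).1 hh))
    have h2 : 𝔭.valuation K (algebraMap (𝓞 K) K d) = 1 :=
      le_antisymm (𝔭.valuation_le_one d)
        (not_lt.1 fun hh => hd' ((𝔭.valuation_lt_one_iff_mem d).1 hh))
    have e1 := congrArg w e
    have e2 := congrArg (𝔭.valuation K) e
    simp only [map_mul, h1, h2, mul_one] at e1 e2
    rw [e1, e2, 𝔭.valuation_lt_one_iff_mem]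
    exact h n
  rcases le_or_gt (𝔭.valuation K z) 1 with hz | hz
  · exact key z hz
  · have h1 : 𝔭.valuation K z⁻¹ < 1 := by
      rw [map_inv₀]
      exact inv_lt_one_of_one_lt₀ hz
    have h2 := (key z⁻¹ h1.le).2 h1
    have h0 : z ≠ 0 := by
      rintro rfl
      simp at hz
    refine iff_of_false (fun h3 => ?_) (not_lt.2 hz.le)
    have h4 : w z * w z⁻¹ < 1 := lt_of_le_of_lt (mul_le_of_le_one_left' h3.le) h2
    rw [← map_mul, mul_inv_cancel₀ h0, map_one] at h4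
    exact lt_irrefl _ h4

end Place

theorem place : PLACEStmt := by
  intro K M _ _ _ _ _ _ 𝔭
  have hP := 𝔭.isPrime
  have : NeZero 𝔭.asIdeal := ⟨𝔭.ne_bot⟩
  have hp := Nat.absNorm_under_prime 𝔭.asIdeal
  have hl := Int.liesOver_span_absNorm 𝔭.asIdeal
  generalize Ideal.absNorm (Ideal.under ℤ 𝔭.asIdeal) = p at hp hl
  have : Fact p.Prime := ⟨hp⟩
  refine ⟨p, this, fun ε => ?_⟩
  obtain ⟨⟨P, hP1, hP2⟩⟩ := 𝔭.asIdeal.nonempty_primesOver (S := 𝓞 M)
  have hmax : (Ideal.span {(p : ℤ)}).IsMaximal :=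
    (Ideal.isPrime_of_prime (Ideal.prime_span_singleton_iff.mpr
      (Nat.prime_iff_prime_int.mp hp))).isMaximal (by simp [hp.ne_zero])
  have hP3 : P.LiesOver (Ideal.span {(p : ℤ)}) := Ideal.LiesOver.trans P 𝔭.asIdeal _
  let w : Valuation M ℝ≥0 := (Valued.v : Valuation (PadicAlgCl p) ℝ≥0).comap ε
  have hw : ∀ y : M, w y < 1 ↔ ‖ε y‖ < 1 := fun y => Iff.rfl
  have hQ1 := Place.cen_prime w
  have hQ2 : (Place.cen w).LiesOver (Ideal.span {(p : ℤ)}) := by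
    refine ⟨hmax.eq_of_le (Ideal.IsPrime.under ℤ (Place.cen w)).ne_top ?_⟩
    rw [Ideal.span_singleton_le_iff_mem, Ideal.under_def, Ideal.mem_comap, Place.mem_cen]
    have e : w (((algebraMap ℤ (𝓞 M)) (p : ℤ) : 𝓞 M) : M) = 1 / (p : ℝ≥0) := by
      rw [← PadicAlgCl.valuation_p p]
      simp [w]
    rw [e, one_div]
    exact inv_lt_one_of_one_lt₀ (by exact_mod_cast hp.one_lt)
  obtain ⟨g, hg⟩ := Ideal.exists_smul_eq_of_isGaloisGroup (Ideal.span {(p : ℤ)}) P (Place.cen w)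
    (M ≃ₐ[ℚ] M)
  refine ⟨g, fun z => ?_⟩
  rw [← hw]
  refine Place.lt_iff (w.comap ((g : M →+* M).comp (algebraMap K M))) 𝔭 (fun y => ?_) z
  have h1 : y ∈ 𝔭.asIdeal ↔ algebraMap (𝓞 K) (𝓞 M) y ∈ P := Ideal.mem_of_liesOver P 𝔭.asIdeal y
  rw [h1, ← Ideal.smul_mem_pointwise_smul_iff (a := g), hg, Place.mem_cen]
  rfl

end Pool.Agent.MP_a43263_nt.VH

end
end MrgPart15

-- ======== part 16: formerly Pool.Agent.MP_a43263_nt.VH.Quad
section MrgPart16

/-! THEOREM V, part H: the quadratic extension generated by a square root. -/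

set_option autoImplicit false

namespace Pool.Agent.MP_a43263_nt.VH

open NumberField

namespace QuadA

/-- the conjugation -/
def conj {K : Type} [Field K] (d : K) : QuadraticAlgebra K d 0 ≃ₐ[K] QuadraticAlgebra K d 0 :=
  AlgEquiv.ofRingEquiv (f := starRingAut) fun x => by
    ext <;> simp

theorem rank_eq (K : Type) [Field K] [NumberField K] [IsTotallyComplex K] :
    Module.finrank ℚ K = 2 * (Units.rank K + 1) := by
  have h1 := InfinitePlace.card_eq_nrRealPlaces_add_nrComplexPlaces K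
  have h2 := IsTotallyComplex.nrRealPlaces_eq_zero K
  have h3 := IsTotallyComplex.finrank K
  have h4 : 0 < Fintype.card (InfinitePlace K) := Fintype.card_pos
  rw [Units.rank]
  omega

end QuadA

theorem quad : QUADStmt := by
  intro K _ _ d hd
  have : Fact (∀ r : K, r ^ 2 ≠ (d : K) + 0 * r) := ⟨fun r hr => hd (by
    rw [zero_mul, add_zero] at hr
    have h0 : r ≠ 0 := fun h => d.ne_zero (by rw [← hr, h]; simp)
    exact ⟨Units.mk0 r h0, Units.ext hr⟩)⟩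
  have : NumberField (QuadraticAlgebra K (d : K) 0) := NumberField.of_module_finite K _
  refine ⟨QuadraticAlgebra K (d : K) 0, inferInstance, inferInstance, inferInstance,
    QuadraticAlgebra.omega, QuadA.conj _, ⟨fun h => ?_, ?_, ?_, fun w => ⟨w.re, w.im, ?_⟩⟩,
    fun hK => ?_⟩
  · simpa using congrArg QuadraticAlgebra.im h
  · ext <;> simp [sq]
  · ext <;> simp [QuadA.conj]
  · ext <;> simp
  · have hL : IsTotallyComplex (QuadraticAlgebra K (d : K) 0) := isTotallyComplex_of_algebra K _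
    refine ⟨hL, ?_⟩
    have h1 := QuadA.rank_eq K
    have h2 := QuadA.rank_eq (QuadraticAlgebra K (d : K) 0)
    have h3 := Module.finrank_mul_finrank ℚ K (QuadraticAlgebra K (d : K) 0)
    rw [QuadraticAlgebra.finrank_eq_two] at h3
    omega

end Pool.Agent.MP_a43263_nt.VH

end MrgPart16

-- ======== part 17: formerly Pool.Agent.MP_a43263_nt.VH.Res
section MrgPart17

/-! THEOREM V, part H: restriction to a decomposition group and conjugate embeddings. -/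

set_option autoImplicit false

noncomputable section

namespace Pool.Agent.MP_a43263_nt.VH

open NumberField IntermediateField

namespace ResA

theorem ex {M : Type} [Field M] [NumberField M] [IsGalois ℚ M] {p : ℕ} [Fact p.Prime]
    (ε : M →+* PadicAlgCl p) (s : Gp p) : ∃ τ : M ≃ₐ[ℚ] M, ∀ x, ε (τ x) = s (ε x) := by
  let _ : Algebra M (PadicAlgCl p) := ε.toAlgebra
  have : IsScalarTower ℚ M (PadicAlgCl p) :=
    IsScalarTower.of_algebraMap_eq' (Subsingleton.elim _ _)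
  let s' : PadicAlgCl p ≃ₐ[ℚ] PadicAlgCl p :=
    AlgEquiv.ofRingEquiv (f := s.toRingEquiv) (fun q => by simp)
  exact ⟨s'.restrictNormal M, fun x => s'.restrictNormal_commutes M x⟩

theorem mu {G : Type} [Group G] {c : G → G → ℤˣ} (h : SC c) {g σ σ' τ τ' : G} (e : τ * g = g * σ)
    (e' : τ' * g = g * σ') : c σ σ' * (c g (σ * σ') * (c (τ * τ') g)⁻¹) =
      c g σ * (c τ g)⁻¹ * (c g σ' * (c τ' g)⁻¹) * c τ τ' := by
  have h1 := h g σ σ'
  have h2 := h τ g σ'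
  have h3 := h τ τ' g
  rw [e] at h2
  rw [e'] at h3
  rw [eq_inv_mul_of_mul_eq h1.symm, eq_inv_mul_of_mul_eq h2, eq_inv_mul_of_mul_eq h3]
  apply Additive.ofMul.injective
  simp only [ofMul_mul, ofMul_inv]
  abel

end ResA

open ResA

theorem res : RESStmt := by
  intro M _ _ _ p _ ε
  choose r hr using ex ε
  have u : ∀ s τ, (∀ x, ε (τ x) = s (ε x)) → r s = τ := fun s τ h =>
    AlgEquiv.ext fun x => ε.injective (by rw [hr, h])
  obtain ⟨θ, hθ⟩ := Field.exists_primitive_element ℚ M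
  refine ⟨MonoidHom.mk' r fun s t => u _ _ fun x => by
    rw [AlgEquiv.mul_apply, hr, hr, AlgEquiv.mul_apply], hr, adjoin ℚ_[p] {ε θ},
    adjoin.finiteDimensional (Algebra.IsIntegral.isIntegral _), fun s hs => ?_⟩
  have e : r s θ = θ := ε.injective (by
    rw [hr, (mem_fixingSubgroup_iff _ _).1 hs _ (mem_adjoin_simple_self _ _)])
  have : (⊤ : IntermediateField ℚ M) ≤ fixedField (MulAction.stabilizer (M ≃ₐ[ℚ] M) θ) := by
    rw [← hθ, adjoin_simple_le_iff, mem_fixedField_iff]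
    exact fun _ h => h
  exact AlgEquiv.ext fun x => (mem_fixedField_iff _ _).1 (this mem_top) (r s) e

theorem conj (h : RESStmt) : CONJStmt := by
  rintro M _ _ _ p _ ε c g hc ⟨β, β0, ⟨F, hF, hβ⟩, H⟩
  obtain ⟨r, hr, F', hF', h1⟩ := h M p ε
  refine ⟨fun s => β s * ((c g (g⁻¹ * r s * g) * (c (r s) g)⁻¹ : ℤˣ) : ℤ), fun s => mul_ne_zero (β0 s)
    (Int.cast_ne_zero.2 (Units.ne_zero _)), ⟨F ⊔ F', inferInstance, fun s hs => ?_⟩,
    fun s s' σ σ' a a' => ?_⟩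
  · rw [fixingSubgroup_sup] at hs
    simp only [hβ s hs.1, h1 s hs.2, map_one]
  · have u : ∀ (s : Gp p) (σ : M ≃ₐ[ℚ] M), (∀ x, ε (g (σ x)) = s (ε (g x))) → r s * g = g * σ :=
      fun s σ a => AlgEquiv.ext fun x => ε.injective (by
        rw [AlgEquiv.mul_apply, AlgEquiv.mul_apply, hr, a])
    have e := u s σ a
    have e' := u s' σ' a'
    have v : ∀ {τ σ : M ≃ₐ[ℚ] M}, τ * g = g * σ → g⁻¹ * τ * g = σ := fun h => by
      rw [mul_assoc, h, inv_mul_cancel_left]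
    have m := congrArg (fun x : ℤˣ => ((x : ℤ) : PadicAlgCl p)) (mu hc e e')
    have k := H s s' _ _ (hr s) (hr s')
    simp only [map_mul, map_intCast, v e, v e',
      v (show r s * r s' * g = g * (σ * σ') by rw [mul_assoc, e', ← mul_assoc, e, mul_assoc])]
    simp only [Units.val_mul, Int.cast_mul] at m ⊢
    linear_combination β (s * s') * m + ((c g σ : ℤ) : PadicAlgCl p) * ((c (r s) g)⁻¹ : ℤˣ) *
      ((c g σ' : ℤ) * ((c (r s') g)⁻¹ : ℤˣ)) * k

end Pool.Agent.MP_a43263_nt.VH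

end
end MrgPart17

-- ======== part 18: formerly Pool.Agent.MP_a43263_nt.VH.Rk
section MrgPart18

/-! THEOREM V, part H: the rank of the group of `S`-units. -/

set_option autoImplicit false

noncomputable section

namespace Pool.Agent.MP_a43263_nt.VH

open NumberField IsDedekindDomain Module

namespace RkA

theorem lin {A M ι : Type} [AddCommGroup A] [AddCommGroup M] [Fintype ι] [Module.Finite ℤ A]
    (f : A →ₗ[ℤ] M) (φ : M →ₗ[ℤ] ι → ℤ) (hf : Function.Injective f) (he : Function.Exact f φ)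
    (hs : ∀ i, ∃ m, φ m i ≠ 0 ∧ ∀ j, j ≠ i → φ m j = 0) :
    Module.Finite ℤ M ∧ finrank ℤ M = finrank ℤ A + Fintype.card ι := by
  have e : LinearMap.ker φ = LinearMap.range f := he.linearMap_ker_eq
  have : Module.Finite ℤ M := Module.Finite.of_exact (f := f) (g := φ.rangeRestrict)
    (LinearMap.exact_iff.2 (by rw [LinearMap.ker_rangeRestrict, e])) φ.surjective_rangeRestrict
  refine ⟨this, ?_⟩
  rw [← (LinearMap.ker φ).finrank_quotient_add_finrank, φ.quotKerEquivRange.finrank_eq, e,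
    ← (LinearEquiv.ofInjective f hf).finrank_eq, add_comm]
  congr 1
  refine le_antisymm ((Submodule.finrank_le _).trans_eq (finrank_fintype_fun_eq_card ℤ)) ?_
  choose m h0 h1 using hs
  refine LinearIndependent.fintype_card_le_finrank (b := fun i => φ.rangeRestrict (m i))
    (Fintype.linearIndependent_iff.2 fun g hg i => ?_)
  have := congrArg (fun x : LinearMap.range φ => x.1 i) hg
  simp only [Submodule.coe_sum, Finset.sum_apply, Submodule.coe_smul, Pi.smul_apply,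
    LinearMap.rangeRestrict, LinearMap.codRestrict_apply, smul_eq_mul, Submodule.coe_zero,
    Pi.zero_apply] at this
  rw [Finset.sum_eq_single i (fun j _ hj => by rw [h1 j i hj.symm, mul_zero])
    (fun h => absurd (Finset.mem_univ i) h)] at this
  exact (mul_eq_zero.1 this).resolve_right (h0 i)

variable {K : Type} [Field K] [NumberField K]

theorem vne (𝔭 : Pr K) (u : Kˣ) : 𝔭.valuation K (u : K) ≠ 0 :=
  (Valuation.ne_zero_iff _).2 u.ne_zero

theorem log0 (𝔭 : Pr K) (u : Kˣ) :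
    WithZero.log (𝔭.valuation K (u : K)) = 0 ↔ 𝔭.valuation K (u : K) = 1 :=
  ⟨fun h => by rw [← WithZero.exp_log (vne 𝔭 u), h, WithZero.exp_zero],
    fun h => by rw [h, WithZero.log_one]⟩

theorem gen (𝔭 : Pr K) : ∃ k : Kˣ, 𝔭.valuation K (k : K) ≠ 1 ∧
    ∀ 𝔮 : Pr K, 𝔮 ≠ 𝔭 → 𝔮.valuation K (k : K) = 1 := by
  have h0 : 𝔭.asIdeal ∈ nonZeroDivisors (Ideal (𝓞 K)) := mem_nonZeroDivisors_of_ne_zero 𝔭.ne_bot
  have hc : 0 < Fintype.card (ClassGroup (𝓞 K)) := Fintype.card_pos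
  obtain ⟨k, hk⟩ : (𝔭.asIdeal ^ Fintype.card (ClassGroup (𝓞 K))).IsPrincipal := by
    rw [← ClassGroup.mk0_eq_one_iff (pow_mem h0 _), ← pow_card_eq_one (x := ClassGroup.mk0 ⟨_, h0⟩),
      ← map_pow]
    rfl
  have k0 : k ≠ 0 := by
    rintro rfl
    exact pow_ne_zero _ 𝔭.ne_bot (hk.trans (Submodule.span_zero_singleton _))
  have m : ∀ 𝔮 : Pr K, k ∈ 𝔮.asIdeal ↔ 𝔭.asIdeal ≤ 𝔮.asIdeal := fun 𝔮 => by
    rw [← Ideal.span_singleton_le_iff_mem, ← Ideal.submodule_span_eq, ← hk,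
      𝔮.isPrime.pow_le_iff hc.ne']
  refine ⟨Units.mk0 (algebraMap (𝓞 K) K k) (by simpa using k0), ?_, fun 𝔮 h => ?_⟩
  · rw [Units.val_mk0, Ne, HeightOneSpectrum.valuation_eq_one_iff_notMem, not_not, m]
  · rw [Units.val_mk0, HeightOneSpectrum.valuation_eq_one_iff_notMem, m]
    exact fun a => h (HeightOneSpectrum.ext (𝔭.isMaximal.eq_of_le 𝔮.isPrime.ne_top a).symm)

theorem vun (𝔭 : Pr K) (u : (𝓞 K)ˣ) : 𝔭.valuation K (algebraMap (𝓞 K) K u) = 1 := by
  rw [HeightOneSpectrum.valuation_eq_one_iff_notMem]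
  exact fun h => 𝔭.isPrime.ne_top (Ideal.eq_top_of_isUnit_mem _ h u.isUnit)

/-- the global units are `S`-units -/
def inc (S : Finset (Pr K)) : (𝓞 K)ˣ →* SU S :=
  (Units.map (algebraMap (𝓞 K) K).toMonoidHom).codRestrict _ fun u 𝔭 _ => vun 𝔭 u

/-- the exponents at the primes of `S` -/
def ex (S : Finset (Pr K)) : Additive (SU S) →+ S → ℤ :=
  AddMonoidHom.mk' (fun u 𝔭 => WithZero.log (𝔭.1.valuation K (u.toMul.1 : K))) fun a b => by
    funext 𝔭
    rw [toMul_add, Subgroup.coe_mul, Units.val_mul, map_mul,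
      WithZero.log_mul (vne _ _) (vne _ _), Pi.add_apply]

theorem unit {u : Kˣ} (h : ∀ 𝔭 : Pr K, 𝔭.valuation K (u : K) = 1) :
    ∃ w : (𝓞 K)ˣ, algebraMap (𝓞 K) K w = u := by
  obtain ⟨a, ha⟩ := HeightOneSpectrum.mem_integers_of_valuation_le_one K (u : K) fun 𝔭 => (h 𝔭).le
  obtain ⟨b, hb⟩ := HeightOneSpectrum.mem_integers_of_valuation_le_one K ((u⁻¹ : Kˣ) : K)
    fun 𝔭 => by rw [Units.val_inv_eq_inv_val, map_inv₀, h, inv_one]
  have e : a * b = 1 := FaithfulSMul.algebraMap_injective (𝓞 K) K (by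
    rw [map_mul, ha, hb, map_one, Units.mul_inv])
  exact ⟨⟨a, b, e, by rw [mul_comm, e]⟩, ha⟩

end RkA

open RkA

theorem rks : RKStmt := by
  intro K _ _ S
  have h := lin (MonoidHom.toAdditive (inc S)).toIntLinearMap (ex S).toIntLinearMap
    (fun a b h => Additive.toMul.injective (Units.ext (FaithfulSMul.algebraMap_injective (𝓞 K) K
      (congrArg (fun x : Additive (SU S) => (x.toMul.1 : K)) h))))
    (fun u => ⟨fun h => ?_, ?_⟩) fun 𝔭 => ?_
  · rw [Units.finrank_eq, Fintype.card_coe] at h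
    exact h
  · obtain ⟨w, hw⟩ := unit (u := u.toMul.1) fun 𝔭 => by
      by_cases a : 𝔭 ∈ S
      · exact (log0 _ _).1 (congrFun h ⟨𝔭, a⟩)
      · exact u.toMul.2 𝔭 a
    exact ⟨Additive.ofMul w, Additive.toMul.injective (Subtype.ext (Units.ext hw))⟩
  · rintro ⟨w, rfl⟩
    exact funext fun 𝔭 => (log0 _ _).2 (vun 𝔭.1 w.toMul)
  · obtain ⟨k, h0, h1⟩ := gen 𝔭.1
    exact ⟨Additive.ofMul ⟨k, fun 𝔮 a => h1 𝔮 fun b => a (b ▸ 𝔭.2)⟩,
      fun a => h0 ((log0 _ _).1 a), fun 𝔮 a => (log0 _ _).2 (h1 _ fun b => a (Subtype.ext b))⟩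

end Pool.Agent.MP_a43263_nt.VH

end
end MrgPart18

-- ======== part 19: formerly Pool.Agent.MP_a43263_nt.VH.Sign
section MrgPart19

/-! THEOREM V, part H: the splitting cochain can be taken sign valued. -/

set_option autoImplicit false

namespace Pool.Agent.MP_a43263_nt.VH

theorem lc_apply (w : Qb) : IsLocallyConstant fun σ : GQ => σ w := by
  refine (IsLocallyConstant.iff_exists_open _).2 fun s => ⟨(fun τ => s⁻¹ * τ) ⁻¹'
    (MulAction.stabilizer GQ w : Set GQ), (stabilizer_isOpen_of_isIntegral w).preimage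
      (continuous_const_mul _), by simp, fun τ h => ?_⟩
  have e : (s⁻¹ * τ) w = w := h
  have := congrArg s e
  rwa [← AlgEquiv.mul_apply, mul_inv_cancel_left] at this

theorem sign (h1 : H90Stmt) (h2 : ABHNStmt) : VV.HStmt := by
  classical
  intro c hc hcc hl
  obtain ⟨b, hb, hb0, hbc⟩ := h2 c hc hcc fun p _ => hl p
  have hsq : ∀ s t, ((c s t : ℤ) : Qb) ^ 2 = 1 := fun s t => by
    rcases Int.units_eq_one_or (c s t) with h | h <;> simp [h]
  have hb2 : ∀ s t, b (s * t) ^ 2 = b s ^ 2 * s (b t ^ 2) := fun s t => by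
    rw [map_pow, ← mul_pow, ← hbc, mul_pow, hsq, one_mul]
  obtain ⟨F, hF, hFb⟩ := (krullTopology_mem_nhds_one_iff ℚ Qb _).1 (hb.eventually_eq 1)
  obtain ⟨z, hz0, hz⟩ := h1 ℚ Qb ⊤ (fun s => b s ^ 2) F hF (fun s _ => pow_ne_zero 2 (hb0 s))
    (fun s _ t _ => hb2 s t) fun s _ k => by
      have e := hb2 1 1
      rw [mul_one, AlgEquiv.one_apply] at e
      have e1 : b s = b 1 := hFb k
      rw [e1]
      exact (mul_left_cancel₀ (pow_ne_zero 2 (hb0 1)) (by rw [← e, mul_one])).symm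
  obtain ⟨w, hw⟩ := IsAlgClosed.exists_pow_nat_eq z (show 0 < 2 by norm_num)
  have hw0 : w ≠ 0 := fun h => hz0 (by rw [← hw, h]; norm_num)
  have hs0 : ∀ s : GQ, s w ≠ 0 := fun s => (map_ne_zero s).2 hw0
  let d : GQ → Qb := fun s => b s * w / s w
  have hd : ∀ s, d s = 1 ∨ d s = -1 := fun s => by
    rw [← sq_eq_one_iff]
    have e := hz s trivial
    rw [← hw, map_pow] at e
    have := hs0 s
    simp only [d]
    field_simp
    exact e.symm
  let g : Qb → ℤˣ := fun x => if x = 1 then 1 else -1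
  have hg : ∀ s, ((g (d s) : ℤ) : Qb) = d s := fun s => by
    rcases hd s with h | h
    · simp [g, h]
    · have : (-1 : Qb) ≠ 1 := by norm_num
      simp [g, h, this]
  refine ⟨fun s => g (d s), ?_, fun s t => ?_⟩
  · exact (hb.prodMk (lc_apply w)).comp fun x : Qb × Qb => g (x.1 * w / x.2)
  · apply Units.ext
    apply Int.cast_injective (α := Qb)
    have e : s (d t) = d t := by rcases hd t with h | h <;> simp [h]
    rw [Units.val_mul, Units.val_mul, Int.cast_mul, Int.cast_mul, hg, hg, hg, ← e]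
    have n1 := hs0 s
    have n2 : s (t w) ≠ 0 := (map_ne_zero s).2 (hs0 t)
    simp only [d, map_div₀, map_mul, AlgEquiv.mul_apply]
    field_simp
    linear_combination hbc s t

end Pool.Agent.MP_a43263_nt.VH

end MrgPart19

-- ======== part 20: formerly Pool.Agent.MP_a43263_nt.VH.Two
section MrgPart20

/-! Row TWO: a rational that is a sum of two squares in every `p`-adic field is a sum of two
rational squares. -/

namespace Pool.Agent.MP_a43263_nt.VH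

namespace Two

theorem lift {p : ℕ} [Fact p.Prime] {x y : ℚ_[p]} (hx : x ≠ 0) (h : ‖y‖ ≤ ‖x‖) :
    ∃ t : ℤ_[p], y = x * t :=
  ⟨⟨y / x, by rw [norm_div]; exact div_le_one_of_le₀ h (norm_nonneg _)⟩, by
    show y = x * (y / x); field_simp⟩

theorem even_aux {p : ℕ} [Fact p.Prime] (h3 : p % 4 = 3) {x y : ℚ_[p]} (h0 : x ^ 2 + y ^ 2 ≠ 0)
    (h : ‖y‖ ≤ ‖x‖) : Even (x ^ 2 + y ^ 2).valuation := by
  have hx : x ≠ 0 := by
    rintro rfl
    rw [norm_zero, norm_le_zero_iff] at h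
    simp [h] at h0
  obtain ⟨t, rfl⟩ := lift hx h
  have hu : ‖(1 + t ^ 2 : ℤ_[p])‖ = 1 := by
    rw [← PadicInt.isUnit_iff]
    by_contra c
    have : (1 + t ^ 2 : ℤ_[p]) ∈ RingHom.ker (PadicInt.toZMod : ℤ_[p] →+* ZMod p) := by
      rw [PadicInt.ker_toZMod]; exact c
    rw [RingHom.mem_ker, map_add, map_one, map_pow] at this
    exact ZMod.mod_four_ne_three_of_sq_eq_neg_one (eq_neg_of_add_eq_zero_right this) h3
  have hu' : ‖(1 + (t : ℚ_[p]) ^ 2)‖ = 1 := by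
    rw [PadicInt.norm_def] at hu
    exact_mod_cast hu
  have h1 : (1 + (t : ℚ_[p]) ^ 2) ≠ 0 := fun c => by simp [c] at hu'
  have hv : (1 + (t : ℚ_[p]) ^ 2).valuation = 0 := by
    rw [Padic.norm_eq_zpow_neg_valuation h1] at hu'
    have hp : (1 : ℝ) < p := by exact_mod_cast (Fact.out : p.Prime).one_lt
    simpa using (zpow_eq_one_iff_right₀ (by positivity) hp.ne').1 hu'
  rw [show x ^ 2 + (x * t) ^ 2 = x ^ 2 * (1 + (t : ℚ_[p]) ^ 2) by ring,
    Padic.valuation_mul (pow_ne_zero _ hx) h1, hv, add_zero, Padic.valuation_pow]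
  exact ⟨x.valuation, by push_cast; ring⟩

theorem even {p : ℕ} [Fact p.Prime] (h3 : p % 4 = 3) {x y : ℚ_[p]} (h0 : x ^ 2 + y ^ 2 ≠ 0) :
    Even (x ^ 2 + y ^ 2).valuation := by
  rcases le_total ‖y‖ ‖x‖ with h | h
  · exact even_aux h3 h0 h
  · rw [add_comm] at h0 ⊢; exact even_aux h3 h0 h

theorem three_aux {x y z : ℚ_[2]} (hx : x ≠ 0) (hy : ‖y‖ ≤ ‖x‖) (hz : ‖z‖ ≤ ‖x‖)
    (h : x ^ 2 + y ^ 2 + z ^ 2 = 0) : False := by
  obtain ⟨s, rfl⟩ := lift hx hy
  obtain ⟨t, rfl⟩ := lift hx hz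
  have h1 : ((1 + s ^ 2 + t ^ 2 : ℤ_[2]) : ℚ_[2]) = 0 := by
    refine (mul_eq_zero.1 (?_ : x ^ 2 * _ = 0)).resolve_left (pow_ne_zero _ hx)
    push_cast
    linear_combination h
  have h2 := congrArg (PadicInt.toZModPow 2) (PadicInt.coe_eq_zero.1 h1)
  rw [map_add, map_add, map_one, map_pow, map_pow, map_zero] at h2
  have : ∀ a b : ZMod (2 ^ 2), 1 + a ^ 2 + b ^ 2 ≠ 0 := by decide
  exact this _ _ h2

theorem three {y z : ℚ_[2]} (h : 1 + y ^ 2 + z ^ 2 = 0) : False := by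
  by_cases h1 : ‖y‖ ≤ 1 ∧ ‖z‖ ≤ 1
  · exact three_aux (x := 1) one_ne_zero (by simpa using h1.1) (by simpa using h1.2)
      (by simpa using h)
  · rcases le_total ‖y‖ ‖z‖ with k | k
    · have : 1 < ‖z‖ := by by_contra c; exact h1 ⟨k.trans (not_lt.1 c), not_lt.1 c⟩
      exact three_aux (x := z) (y := 1) (norm_pos_iff.1 (by linarith)) (by simpa using this.le) k
        (by linear_combination h)
    · have : 1 < ‖y‖ := by by_contra c; exact h1 ⟨not_lt.1 c, k.trans (not_lt.1 c)⟩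
      exact three_aux (x := y) (y := 1) (norm_pos_iff.1 (by linarith)) (by simpa using this.le) k
        (by linear_combination h)

theorem int (n : ℤ) (hn : n ≠ 0)
    (h : ∀ (p : ℕ) [Fact p.Prime], ∃ x y : ℚ_[p], (n : ℚ_[p]) = x ^ 2 + y ^ 2) :
    ∃ u v : ℕ, n = u ^ 2 + v ^ 2 := by
  obtain ⟨u, v, e⟩ : ∃ u v : ℕ, n.natAbs = u ^ 2 + v ^ 2 := by
    refine Nat.eq_sq_add_sq_iff.2 fun q hq h3 => ?_
    have : Fact q.Prime := ⟨Nat.prime_of_mem_primeFactors hq⟩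
    obtain ⟨x, y, e⟩ := h q
    have := even h3 (x := x) (y := y) (by rw [← e]; exact_mod_cast hn)
    rw [← e, Padic.valuation_intCast] at this
    exact (Int.even_coe_nat _).1 this
  refine ⟨u, v, ?_⟩
  rcases Int.natAbs_eq n with k | k
  · rw [k, e]; push_cast; rfl
  · obtain ⟨x, y, f⟩ := h 2
    have h0 : (n : ℚ_[2]) ≠ 0 := by exact_mod_cast hn
    have g : (n : ℚ_[2]) = -((u : ℚ_[2]) ^ 2 + v ^ 2) := by rw [k, e]; push_cast; rfl
    refine (three (y := (x * u + y * v) / n) (z := (x * v - y * u) / n) ?_).elim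
    field_simp
    linear_combination (n : ℚ_[2]) * g - ((u : ℚ_[2]) ^ 2 + v ^ 2) * f

end Two

theorem two : TWOStmt := by
  intro a ha h
  have hd : (a.den : ℚ) ≠ 0 := by exact_mod_cast a.den_nz
  have e : ((a.num * a.den : ℤ) : ℚ) = a * a.den ^ 2 := by
    push_cast
    rw [← Rat.mul_den_eq_num a]
    ring
  obtain ⟨u, v, f⟩ := Two.int (a.num * a.den)
    (mul_ne_zero (Rat.num_ne_zero.2 ha) (by exact_mod_cast a.den_nz)) fun p _ => by
      obtain ⟨x, y, k⟩ := h p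
      refine ⟨x * a.den, y * a.den, ?_⟩
      rw [← Rat.cast_intCast, e]
      push_cast
      rw [k]
      ring
  refine ⟨u / a.den, v / a.den, ?_⟩
  rw [f] at e
  push_cast at e
  field_simp
  exact e.symm

end Pool.Agent.MP_a43263_nt.VH

end MrgPart20

-- ======== part 21: formerly Pool.Agent.MP_a43263_nt.VH.Val
section MrgPart21

/-! Valuations in an extension of number fields. -/

set_option autoImplicit false

namespace Pool.Agent.MP_a43263_nt.VH

open NumberField IsDedekindDomain WithZero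

namespace Val

theorem le_of {a b : WithZero (Multiplicative ℤ)} (hb : b ≤ 1)
    (h : ∀ n : ℕ, b ≤ exp (-(n : ℤ)) → a ≤ exp (-(n : ℤ))) : a ≤ b := by
  rcases eq_or_ne a 0 with rfl | ha
  · exact zero_le
  rcases eq_or_ne b 0 with rfl | hb0
  · have := exp_le_exp.1 ((exp_log ha).trans_le (h ((-log a).toNat + 1) zero_le))
    omega
  · rw [← exp_log hb0, ← exp_zero, exp_le_exp] at hb
    have e : -(((-log b).toNat : ℕ) : ℤ) = log b := by omega
    have := h (-log b).toNat (by rw [e, exp_log hb0])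
    rwa [e, exp_log hb0] at this

theorem int_comap {R : Type} [CommRing R] [IsDedekindDomain R] (e : R ≃+* R)
    (P : HeightOneSpectrum R) (r : R) :
    (P.comap (e : R →+* R) e.surjective).intValuation r = P.intValuation (e r) := by
  have key : ∀ n : ℕ, (P.comap (e : R →+* R) e.surjective).intValuation r ≤ exp (-(n : ℤ)) ↔
      P.intValuation (e r) ≤ exp (-(n : ℤ)) := fun n => by
    rw [HeightOneSpectrum.intValuation_le_pow_iff_mem,
      HeightOneSpectrum.intValuation_le_pow_iff_mem]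
    change r ∈ (P.asIdeal.comap e) ^ n ↔ r ∈ (P.asIdeal ^ n).comap e
    rw [← Ideal.map_symm, ← Ideal.map_symm, Ideal.map_pow]
  exact le_antisymm (le_of (P.intValuation_le_one _) fun n => (key n).2)
    (le_of (HeightOneSpectrum.intValuation_le_one _ _) fun n => (key n).1)

end Val

theorem vals : VALStmt := by
  intro K L _ _ _ _ _
  refine ⟨fun 𝔓 => ?_, fun 𝔭 => ?_, fun S => ?_, fun σ 𝔓 => ?_⟩
  · have : 𝔓.asIdeal.LiesOver (dn K 𝔓).asIdeal := ⟨rfl⟩
    exact ⟨_, Nat.pos_of_ne_zero (Ideal.IsDedekindDomain.ramificationIdx'_ne_zero_of_liesOver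
      𝔓.asIdeal (dn K 𝔓).ne_bot),
      fun x => (HeightOneSpectrum.valuation_liesOver L (dn K 𝔓) 𝔓 x).symm⟩
  · have := 𝔭.isMaximal
    obtain ⟨Q, h1, h2⟩ := Ideal.exists_maximal_ideal_liesOver_of_isIntegral (S := 𝓞 L) 𝔭.asIdeal
    exact ⟨⟨Q, h1.isPrime, Ideal.ne_bot_of_liesOver_of_ne_bot 𝔭.ne_bot Q⟩,
      HeightOneSpectrum.ext h2.over.symm⟩
  · have h : {𝔓 : Pr L | dn K 𝔓 ∈ S}.Finite := by
      refine (S.finite_toSet.biUnion (t := fun 𝔭 => {𝔓 : Pr L | dn K 𝔓 = 𝔭}) fun 𝔭 _ => ?_).subset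
        fun 𝔓 h => Set.mem_biUnion h rfl
      have := 𝔭.isMaximal
      refine ((IsDedekindDomain.primesOver_finite 𝔭.asIdeal (𝓞 L)).preimage
        (f := HeightOneSpectrum.asIdeal) fun _ _ _ _ h => HeightOneSpectrum.ext h).subset ?_
      rintro 𝔓 rfl
      exact ⟨𝔓.isPrime, ⟨rfl⟩⟩
    exact ⟨h.toFinset, fun 𝔓 => h.mem_toFinset⟩
  · let e := RingOfIntegers.mapRingEquiv (σ : L ≃+* L)
    refine ⟨𝔓.comap (e : 𝓞 L →+* 𝓞 L) e.surjective, ?_, fun w => ?_⟩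
    · ext x
      change e (algebraMap (𝓞 K) (𝓞 L) x) ∈ 𝔓.asIdeal ↔ algebraMap (𝓞 K) (𝓞 L) x ∈ 𝔓.asIdeal
      have : e (algebraMap (𝓞 K) (𝓞 L) x) = algebraMap (𝓞 K) (𝓞 L) x :=
        RingOfIntegers.ext (σ.commutes (x : K))
      rw [this]
    · obtain ⟨x, y, hy, rfl⟩ := IsFractionRing.div_surjective (A := 𝓞 L) w
      have key : ∀ r : 𝓞 L, (𝔓.comap (e : 𝓞 L →+* 𝓞 L) e.surjective).valuation L
          (algebraMap (𝓞 L) L r) = 𝔓.valuation L (σ (algebraMap (𝓞 L) L r)) := fun r =>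
        (HeightOneSpectrum.valuation_of_algebraMap _ r).trans ((Val.int_comap e 𝔓 r).trans
          (𝔓.valuation_of_algebraMap (K := L) (e r)).symm)
      rw [map_div₀, map_div₀, map_div₀, key, key]

end Pool.Agent.MP_a43263_nt.VH

end MrgPart21

-- ======== part 22: formerly Pool.Agent.MP_a43263_nt.VH.All
section MrgPart22

/-! THEOREM V, part H: assembly. -/

namespace Pool.Agent.MP_a43263_nt.VH

theorem countA : COUNTStmt := count quad vals (spl vals) (hone vals) (cnt0 fg) rks big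

theorem gstA : GSTStmt := gst big ltwo wa idx countA

/-- the Hasse norm theorem for quadratic extensions of totally complex number fields -/
theorem hntA : HNTStmt :=
  hnt big (sel (fgs fg rks) oddp (gst2 quad vals oddp gstA)) (inj big countA ltwo oddp idx)
    (fgs fg rks) (l1b l1a) ltwo wa idx fin0 countA

theorem finA : FINStmt :=
  fin (step (cyc nor hil) nrm (lnm place (conj res) (loc res hil) apx) hntA) (cor nor)
    (top (cyc nor hil) nrm (loc res hil) two)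

theorem abhnA : ABHNStmt := abhn_of lev finA

/-- the Hasse principle for the 2-torsion of the Brauer group of the rationals -/
theorem abhn : VV.HStmt := sign hil abhnA

end Pool.Agent.MP_a43263_nt.VH

end MrgPart22

-- marker of a merged file
example : 731051 + 173579 = 731051 + 173579 := rfl
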